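import Pool.Agent.MP_89e1e6_lc.Defs

set_option autoImplicit false

namespace Pool.Agent.MP_89e1e6_lc

namespace Clockwise

variable {Q Γ : Type} (M : Clockwise Q Γ)

def nx (q : Q) (a : Γ) : Q := if (M.halt q).isSome then q else M.next q a
def wr (q : Q) (a : Γ) : List Γ := if (M.halt q).isSome then [a] else M.write q a

theorem wr_ne (q : Q) (a : Γ) : M.wr q a ≠ [] := by
  unfold wr; split_ifs
  · simp
  · exact M.write_ne q a

/-- One turn round the tape. -/
def gen : Q → List Γ → Q × List Γ
  | q, [] => (q, [])
  | q, a :: w => ((gen (M.nx q a) w).1, M.wr q a ++ (gen (M.nx q a) w).2)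

theorem gen_append (q : Q) (u w : List Γ) :
    M.gen q (u ++ w) = ((M.gen (M.gen q u).1 w).1, (M.gen q u).2 ++ (M.gen (M.gen q u).1 w).2) := by
  induction u generalizing q with
  | nil => simp [gen]
  | cons a u ih => simp [gen, ih]

theorem gen_len (q : Q) (w : List Γ) : w.length ≤ (M.gen q w).2.length := by
  induction w generalizing q with
  | nil => simp
  | cons a w ih =>
    have := List.length_pos_of_ne_nil (M.wr_ne q a)
    have := ih (M.nx q a)
    simp only [gen, List.length_append, List.length_cons]
    omega

theorem gen_len_le {c : ℕ} (hc : ∀ q a, (M.wr q a).length ≤ c) (q : Q) (w : List Γ) :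
    (M.gen q w).2.length ≤ c * w.length := by
  induction w generalizing q with
  | nil => simp [gen]
  | cons a w ih =>
    have := hc q a
    have := ih (M.nx q a)
    simp only [gen, List.length_append, List.length_cons, mul_add, mul_one]
    omega

theorem gen_halt {q : Q} (h : (M.halt q).isSome) (w : List Γ) : (M.gen q w).1 = q := by
  induction w with
  | nil => rfl
  | cons a w ih => simp only [gen, nx, h, if_true, ih]

/-- Several turns, each started in a prescribed state. -/
def band : List Q → List Γ → List Q × List Γ
  | [], w => ([], w)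
  | q :: σ, w => ((M.gen q w).1 :: (band σ (M.gen q w).2).1, (band σ (M.gen q w).2).2)

theorem band_nil (σ : List Q) : M.band σ [] = (σ, []) := by
  induction σ with
  | nil => rfl
  | cons q σ ih => simp [band, gen, ih]

theorem band_append (σ : List Q) (u w : List Γ) :
    M.band σ (u ++ w) =
      ((M.band (M.band σ u).1 w).1, (M.band σ u).2 ++ (M.band (M.band σ u).1 w).2) := by
  induction σ generalizing u w with
  | nil => simp [band]
  | cons q σ ih => simp [band, gen_append, ih]

theorem band_length (σ : List Q) (w : List Γ) : (M.band σ w).1.length = σ.length := by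
  induction σ generalizing w with
  | nil => rfl
  | cons q σ ih => simp [band, ih]

theorem band_take (j : ℕ) (σ : List Q) (w : List Γ) :
    (M.band σ w).1.take j = (M.band (σ.take j) w).1 := by
  induction σ generalizing w j with
  | nil => simp [band]
  | cons q σ ih =>
    cases j with
    | zero => simp [band]
    | succ j => simp [band, ih]

theorem band_len (σ : List Q) (w : List Γ) : w.length ≤ (M.band σ w).2.length := by
  induction σ generalizing w with
  | nil => rfl
  | cons q σ ih => exact (M.gen_len q w).trans (ih _)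

theorem band_len_le {c : ℕ} (hc : ∀ q a, (M.wr q a).length ≤ c) (σ : List Q) (w : List Γ) :
    (M.band σ w).2.length ≤ c ^ σ.length * w.length := by
  induction σ generalizing w with
  | nil => simp [band]
  | cons q σ ih =>
    refine (ih _).trans ?_
    rw [List.length_cons, pow_succ, mul_assoc]
    exact Nat.mul_le_mul_left _ (M.gen_len_le hc q w)

def G (p : Q × List Γ) : Q × List Γ := M.gen p.1 p.2

/-- The states at the beginning of the next `K` turns. -/
def vec : ℕ → Q × List Γ → List Q
  | 0, _ => []
  | K + 1, p => p.1 :: vec K (M.G p)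

theorem vec_length (K : ℕ) (p : Q × List Γ) : (M.vec K p).length = K := by
  induction K generalizing p with
  | zero => rfl
  | succ K ih => simp [vec, ih]

theorem vec_take {j K : ℕ} (h : j ≤ K) (p : Q × List Γ) : (M.vec K p).take j = M.vec j p := by
  induction j generalizing p K with
  | zero => simp [vec]
  | succ j ih =>
    obtain ⟨K, rfl⟩ : ∃ K', K = K' + 1 := ⟨K - 1, by omega⟩
    simp [vec, ih (K := K) (by omega)]

theorem vec_getD {j K : ℕ} (h : j < K) (p : Q × List Γ) (d : Q) :
    (M.vec K p).getD j d = (M.G^[j] p).1 := by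
  induction j generalizing p K with
  | zero =>
    obtain ⟨K, rfl⟩ : ∃ K', K = K' + 1 := ⟨K - 1, by omega⟩
    simp [vec]
  | succ j ih =>
    obtain ⟨K, rfl⟩ : ∃ K', K = K' + 1 := ⟨K - 1, by omega⟩
    simpa [vec] using ih (K := K) (by omega) (M.G p)

theorem band_vec (K : ℕ) (p : Q × List Γ) :
    M.band (M.vec K p) p.2 = (M.vec K (M.G p), (M.G^[K] p).2) := by
  induction K generalizing p with
  | zero => rfl
  | succ K ih =>
    have := ih (M.G p)
    simp only [vec, band, Function.iterate_succ_apply]
    change ((M.G p).1 :: (M.band (M.vec K (M.G p)) (M.G p).2).1,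
      (M.band (M.vec K (M.G p)) (M.G p).2).2) = _
    rw [this]

/-- Fixed point iteration that finds the true start states from the table `F`. -/
def fixp (K : ℕ) (F : List Q → List Q) (q : Q) : ℕ → List Q
  | 0 => List.replicate K q
  | j + 1 => (q :: F (fixp K F q j)).take K

theorem fixp_length {K : ℕ} {F : List Q → List Q} (hF : ∀ σ, σ.length = K → (F σ).length = K)
    (q : Q) (j : ℕ) : (fixp K F q j).length = K := by
  induction j with
  | zero => simp [fixp]
  | succ j ih => simp [fixp, hF _ ih]

theorem fixp_take (K : ℕ) (p : Q × List Γ) {j : ℕ} (h : j ≤ K) :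
    (fixp K (fun σ => (M.band σ p.2).1) p.1 j).take j = M.vec j p := by
  induction j with
  | zero => simp [vec]
  | succ j ih =>
    rw [fixp, List.take_take, min_eq_left h, List.take_succ_cons, band_take, ih (by omega),
      band_vec]
    rfl

theorem fixp_eq (K : ℕ) (p : Q × List Γ) :
    fixp K (fun σ => (M.band σ p.2).1) p.1 K = M.vec K p := by
  rw [← M.fixp_take K p le_rfl, List.take_of_length_le]
  exact (fixp_length (fun σ h => by rw [band_length, h]) _ _).le

theorem G_len (p : Q × List Γ) {i j : ℕ} (h : i ≤ j) :
    (M.G^[i] p).2.length ≤ (M.G^[j] p).2.length := by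
  induction j, h using Nat.le_induction with
  | base => rfl
  | succ j _ ih =>
    rw [Function.iterate_succ_apply']
    exact ih.trans (M.gen_len _ _)

theorem G_halt (p : Q × List Γ) {i j : ℕ} (h : i ≤ j) (hh : (M.halt (M.G^[i] p).1).isSome) :
    (M.G^[j] p).1 = (M.G^[i] p).1 := by
  induction j, h using Nat.le_induction with
  | base => rfl
  | succ j _ ih =>
    rw [Function.iterate_succ_apply', G, gen_halt, ih]
    rwa [ih]

theorem step_halt {p : Q × List Γ} (h : (M.halt p.1).isSome) (t : ℕ) : M.step^[t] p = p := by
  refine Function.iterate_fixed ?_ t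
  obtain ⟨q, w⟩ := p
  cases w with
  | nil => rfl
  | cons a w => simp only [step]; rw [if_pos h]

theorem step_gen (q : Q) (w u : List Γ) :
    (M.step^[w.length] (q, w ++ u)).1 = (M.gen q w).1 ∧
      (¬ (M.halt (M.gen q w).1).isSome →
        M.step^[w.length] (q, w ++ u) = ((M.gen q w).1, u ++ (M.gen q w).2)) := by
  induction w generalizing q u with
  | nil => simp [gen]
  | cons a w ih =>
    by_cases h : (M.halt q).isSome
    · rw [M.step_halt (p := (q, _)) h, M.gen_halt h]
      exact ⟨rfl, fun h' => absurd h h'⟩
    · have e : M.step (q, a :: w ++ u) = (M.nx q a, w ++ (u ++ M.wr q a)) := by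
        simp [step, nx, wr, h]
      rw [List.length_cons, Function.iterate_succ_apply, e]
      simpa [gen] using ih (M.nx q a) (u ++ M.wr q a)

/-- Number of steps in the first `g` turns. -/
def tot (p : Q × List Γ) (g : ℕ) : ℕ := ∑ i ∈ Finset.range g, (M.G^[i] p).2.length

theorem step_tot (p : Q × List Γ) (g : ℕ) :
    (M.step^[M.tot p g] p).1 = (M.G^[g] p).1 ∧
      (¬ (M.halt (M.G^[g] p).1).isSome → M.step^[M.tot p g] p = M.G^[g] p) := by
  induction g with
  | zero => simp [tot]
  | succ g ih =>
    rw [tot, Finset.sum_range_succ, add_comm, Function.iterate_add_apply,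
      Function.iterate_succ_apply']
    change (M.step^[_] (M.step^[M.tot p g] p)).1 = _ ∧ (_ → M.step^[_] (M.step^[M.tot p g] p) = _)
    by_cases h : (M.halt (M.G^[g] p).1).isSome
    · rw [M.step_halt (by rw [ih.1]; exact h), G, M.gen_halt h]
      exact ⟨ih.1, fun h' => absurd h h'⟩
    · rw [ih.2 h]
      simpa [G] using M.step_gen (M.G^[g] p).1 (M.G^[g] p).2 []

/-- If the machine has halted after `T` steps, then a turn starts in the final state or early. -/
theorem halt_or_lt {p : Q × List Γ} {T : ℕ} {b : Bool} (h : M.halt (M.step^[T] p).1 = some b)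
    (g : ℕ) : M.halt (M.G^[g] p).1 = some b ∨
      (M.halt (M.G^[g] p).1 = none ∧ M.tot p g < T) := by
  have h1 := (M.step_tot p g).1
  rcases le_or_gt T (M.tot p g) with hT | hT
  · left
    obtain ⟨s, hs⟩ := Nat.exists_eq_add_of_le hT
    rw [← h1, hs, add_comm, Function.iterate_add_apply, M.step_halt (by simp [h]), h]
  · by_cases h2 : (M.halt (M.G^[g] p).1).isSome
    · left
      obtain ⟨s, hs⟩ := Nat.exists_eq_add_of_le hT.le
      rw [hs, add_comm, Function.iterate_add_apply, M.step_halt (by rw [h1]; exact h2), h1] at h
      exact h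
    · exact Or.inr ⟨by simpa using h2, hT⟩

theorem tot_band (p : Q × List Γ) (k b : ℕ) :
    k * ∑ i ∈ Finset.range b, (M.G^[k * i] p).2.length ≤ M.tot p (k * b) := by
  induction b with
  | zero => simp
  | succ b ih =>
    rw [Finset.sum_range_succ, mul_add, mul_add, mul_one, tot, Finset.sum_range_add]
    refine add_le_add ih ?_
    calc k * (M.G^[k * b] p).2.length = ∑ _i ∈ Finset.range k, (M.G^[k * b] p).2.length := by simp
      _ ≤ _ := Finset.sum_le_sum fun i _ => M.G_len p (by omega)

end Clockwise

end Pool.Agent.MP_89e1e6_lc
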