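import Pool.Agent.MP_89e1e6_lc.Defs

set_option autoImplicit false

namespace Pool.Agent.MP_89e1e6_lc

open Classical

/-- Values of all wires. -/
def wires (gs : List Gate) (x : List Bool) : List Bool :=
  gs.foldl (fun w g => w ++ [g.eval w]) x

theorem wires_snoc (gs : List Gate) (g : Gate) (x : List Bool) :
    wires (gs ++ [g]) x = wires gs x ++ [g.eval (wires gs x)] := by
  simp [wires, List.foldl_append]

theorem wires_length (gs : List Gate) (x : List Bool) :
    (wires gs x).length = x.length + gs.length := by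
  induction gs using List.reverseRecOn with
  | nil => simp [wires]
  | append_singleton gs g ih => rw [wires_snoc]; simp [ih, add_assoc]

theorem wires_prefix (gs hs : List Gate) (x : List Bool) :
    wires gs x <+: wires (gs ++ hs) x := by
  induction hs using List.reverseRecOn with
  | nil => simp
  | append_singleton hs g ih =>
    rw [← List.append_assoc, wires_snoc]
    exact ih.trans (List.prefix_append _ _)

/-- Inputs of length `n`. -/
abbrev X (n : ℕ) := {x : List Bool // x.length = n}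

/-- `h` is the function on some wire of `gs`. -/
def OnW {n : ℕ} (gs : List Gate) (h : X n → Bool) : Prop :=
  ∃ i, i < n + gs.length ∧ ∀ x : X n, (wires gs x.1).getD i false = h x

theorem OnW.mono {n : ℕ} {gs hs : List Gate} {h : X n → Bool} (hw : OnW gs h) (hp : gs <+: hs) :
    OnW hs h := by
  obtain ⟨i, hi, he⟩ := hw
  obtain ⟨t, rfl⟩ := hp
  refine ⟨i, by simp; omega, fun x => ?_⟩
  obtain ⟨u, hu⟩ := wires_prefix gs t x.1
  rw [← hu, List.getD_append _ _ _ _ (by rw [wires_length, x.2]; exact hi), he]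

/-- Acyclic programs that have both constants on wires. -/
structure Pr (n : ℕ) where
  gs : List Gate
  ac : ∀ (k : ℕ) (h : k < gs.length), gs[k].Below (n + k)
  c0 : OnW (n := n) gs fun _ => false
  c1 : OnW (n := n) gs fun _ => true

variable {n : ℕ}

def Pr.Le (a b : Pr n) : Prop := a.gs <+: b.gs

theorem Pr.Le.refl (a : Pr n) : a.Le a := List.prefix_refl _

theorem Pr.Le.trans {a b c : Pr n} (h : a.Le b) (h' : b.Le c) : a.Le c := List.IsPrefix.trans h h'

/-- From `a`, at any later stage, `P` can be reached with `c` more gates. -/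
def Can (a : Pr n) (c : ℕ) (P : Pr n → Prop) : Prop :=
  ∀ a', a.Le a' → ∃ b, a'.Le b ∧ b.gs.length ≤ a'.gs.length + c ∧ P b

def Mono (P : Pr n → Prop) : Prop := ∀ a b, a.Le b → P a → P b

theorem Can.now {a : Pr n} {P : Pr n → Prop} (hP : Mono P) (h : P a) : Can a 0 P :=
  fun a' h' => ⟨a', .refl _, le_rfl, hP _ _ h' h⟩

theorem Can.later {a a' : Pr n} {c : ℕ} {P : Pr n → Prop} (h : Can a c P) (h' : a.Le a') :
    Can a' c P := fun b hb => h b (h'.trans hb)

theorem Can.weak {a : Pr n} {c d : ℕ} {P R : Pr n → Prop} (h : Can a c P) (hc : c ≤ d)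
    (hP : ∀ b, a.Le b → P b → R b) : Can a d R := fun a' h' => by
  obtain ⟨b, h1, h2, h3⟩ := h a' h'
  exact ⟨b, h1, by omega, hP b (h'.trans h1) h3⟩

theorem Can.cost {a : Pr n} {c d : ℕ} {P : Pr n → Prop} (h : Can a c P) (hc : c ≤ d) :
    Can a d P := h.weak hc fun _ _ h => h

theorem Can.bind {a : Pr n} {c d : ℕ} {P R : Pr n → Prop} (h : Can a c P)
    (h' : ∀ b, a.Le b → P b → Can b d R) : Can a (c + d) R := fun a' ha => by
  obtain ⟨b, h1, h2, h3⟩ := h a' ha
  obtain ⟨e, h4, h5, h6⟩ := h' b (ha.trans h1) h3 b (.refl _)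
  exact ⟨e, h1.trans h4, by omega, h6⟩

theorem Can.and {a : Pr n} {c d : ℕ} {P R : Pr n → Prop} (hP : Mono P) (h : Can a c P)
    (h' : Can a d R) : Can a (c + d) fun b => P b ∧ R b :=
  h.bind fun _ hb hp => (h'.later hb).weak le_rfl fun _ he hr => ⟨hP _ _ he hp, hr⟩

theorem Can.all {ι : Type*} {a : Pr n} {c : ℕ} {P : ι → Pr n → Prop} (s : Finset ι)
    (hP : ∀ i, Mono (P i)) (h : ∀ i ∈ s, Can a c (P i)) :
    Can a (s.card * c) fun b => ∀ i ∈ s, P i b := by
  induction s using Finset.induction_on with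
  | empty => exact (Can.now (P := fun _ => True) (fun _ _ _ _ => trivial) trivial).weak (by simp) (by simp)
  | insert i s hi ih =>
    have h1 := (h i (Finset.mem_insert_self _ _)).and (hP i)
      (ih fun j hj => h j (Finset.mem_insert_of_mem hj))
    refine h1.weak (by rw [Finset.card_insert_of_notMem hi]; ring_nf; rfl) ?_
    intro b _ hb j hj
    rcases Finset.mem_insert.1 hj with rfl | hj
    · exact hb.1
    · exact hb.2 j hj

theorem can_gate (a : Pr n) (g : Gate) (hg : g.Below (n + a.gs.length)) (h : X n → Bool)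
    (he : ∀ x : X n, g.eval (wires a.gs x.1) = h x) :
    ∃ b : Pr n, a.Le b ∧ b.gs.length ≤ a.gs.length + 1 ∧ OnW b.gs h := by
  have hp : a.gs <+: a.gs ++ [g] := List.prefix_append _ _
  refine ⟨⟨a.gs ++ [g], fun k hk => ?_, a.c0.mono hp, a.c1.mono hp⟩, hp, by simp, n + a.gs.length,
    by simp, fun x => ?_⟩
  · rcases lt_or_ge k a.gs.length with h1 | h1
    · rw [List.getElem_append_left h1]; exact a.ac k h1
    · have : k = a.gs.length := by simp at hk; omega
      subst this
      simpa using hg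
  · change (wires (a.gs ++ [g]) x.1).getD _ _ = _
    rw [wires_snoc, List.getD_append_right _ _ _ _ (by rw [wires_length, x.2]), wires_length, x.2,
      Nat.sub_self]
    exact he x

theorem monoW (h : X n → Bool) : Mono fun a : Pr n => OnW a.gs h := fun _ _ hab h => h.mono hab

theorem can_and {a : Pr n} {f g : X n → Bool} (hf : OnW a.gs f) (hg : OnW a.gs g) :
    Can a 1 fun b => OnW b.gs fun x => f x && g x := fun a' h' => by
  obtain ⟨i, hi, ei⟩ := hf.mono h'
  obtain ⟨j, hj, ej⟩ := hg.mono h'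
  exact can_gate a' (.and i j) ⟨hi, hj⟩ _ fun x => by simp only [Gate.eval, ei, ej]

theorem can_or {a : Pr n} {f g : X n → Bool} (hf : OnW a.gs f) (hg : OnW a.gs g) :
    Can a 1 fun b => OnW b.gs fun x => f x || g x := fun a' h' => by
  obtain ⟨i, hi, ei⟩ := hf.mono h'
  obtain ⟨j, hj, ej⟩ := hg.mono h'
  exact can_gate a' (.or i j) ⟨hi, hj⟩ _ fun x => by simp only [Gate.eval, ei, ej]

theorem can_not {a : Pr n} {f : X n → Bool} (hf : OnW a.gs f) :
    Can a 1 fun b => OnW b.gs fun x => !f x := fun a' h' => by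
  obtain ⟨i, hi, ei⟩ := hf.mono h'
  exact can_gate a' (.not i) hi _ fun x => by simp only [Gate.eval, ei]

/-- All indicator functions of `f` are on wires. -/
def Kn {P : Type} (f : X n → P) (a : Pr n) : Prop :=
  ∀ p, OnW a.gs fun x => decide (f x = p)

theorem monoK {P : Type} (f : X n → P) : Mono (Kn f) := fun _ _ hab h p => (h p).mono hab

theorem Kn.mono {P : Type} {f : X n → P} {a b : Pr n} (h : Kn f a) (hab : a.Le b) : Kn f b :=
  monoK f _ _ hab h

theorem Kn.congr {P : Type} {f g : X n → P} {a : Pr n} (h : Kn f a) (e : ∀ x, f x = g x) :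
    Kn g a := by rwa [← funext e]

theorem kn_const {P : Type} (p : P) (a : Pr n) : Kn (fun _ => p) a := fun q => by
  by_cases h : p = q
  · simpa [h] using a.c1
  · simpa [h] using a.c0

theorem Kn.of_const {P : Type} {f : X n → P} (p : P) (a : Pr n) (e : ∀ x, f x = p) : Kn f a :=
  (kn_const p a).congr fun x => (e x).symm

/-- `f` takes at most `m` values. -/
def Sm {P : Type} (f : X n → P) (m : ℕ) : Prop := ∃ R : Finset P, R.card ≤ m ∧ ∀ x, f x ∈ R

theorem Sm.mono {P : Type} {f : X n → P} {m m' : ℕ} (h : Sm f m) (hm : m ≤ m') : Sm f m' :=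
  h.imp fun _ h => ⟨h.1.trans hm, h.2⟩

theorem sm_fin {P : Type} [Fintype P] (f : X n → P) : Sm f (Fintype.card P) :=
  ⟨Finset.univ, le_rfl, fun _ => Finset.mem_univ _⟩

theorem sm_lt {f : X n → ℕ} {m : ℕ} (h : ∀ x, f x < m) : Sm f m :=
  ⟨Finset.range m, by simp, fun x => Finset.mem_range.2 (h x)⟩

theorem Sm.bin {P₁ P₂ P : Type} {f : X n → P₁} {g : X n → P₂} {m₁ m₂ : ℕ} (hf : Sm f m₁)
    (hg : Sm g m₂) (φ : P₁ → P₂ → P) : Sm (fun x => φ (f x) (g x)) (m₁ * m₂) := by
  obtain ⟨R₁, c₁, h₁⟩ := hf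
  obtain ⟨R₂, c₂, h₂⟩ := hg
  refine ⟨(R₁ ×ˢ R₂).image fun z => φ z.1 z.2, Finset.card_image_le.trans ?_, fun x =>
    Finset.mem_image.2 ⟨(f x, g x), Finset.mem_product.2 ⟨h₁ x, h₂ x⟩, rfl⟩⟩
  rw [Finset.card_product]
  exact Nat.mul_le_mul c₁ c₂

theorem can_bin {P₁ P₂ P : Type} {a : Pr n} {f : X n → P₁} {g : X n → P₂} {m₁ m₂ : ℕ}
    (hf : Kn f a) (hg : Kn g a) (sf : Sm f m₁) (sg : Sm g m₂) (φ : P₁ → P₂ → P) :
    Can a (2 * (m₁ * m₂)) (Kn fun x => φ (f x) (g x)) := by
  obtain ⟨R₁, c₁, h₁⟩ := sf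
  obtain ⟨R₂, c₂, h₂⟩ := sg
  have key : ∀ S : Finset (P₁ × P₂), Can a (2 * S.card) fun b =>
      ∀ p, OnW b.gs fun x => decide ((f x, g x) ∈ S ∧ φ (f x) (g x) = p) := by
    intro S
    induction S using Finset.induction_on with
    | empty =>
      exact (Can.now (P := fun _ => True) (fun _ _ _ _ => trivial) trivial).weak (by simp)
        fun b _ _ p => by simpa using b.c0
    | insert z S hz ih =>
      rw [Finset.card_insert_of_notMem hz, mul_add, mul_one]
      refine ih.bind fun b hb hS => ?_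
      refine ((can_and ((hf z.1).mono hb) ((hg z.2).mono hb)).bind fun e he h1 =>
        (can_or h1 ((hS (φ z.1 z.2)).mono he)).weak le_rfl fun e' he' h2 p => ?_).cost le_rfl
      by_cases hp : φ z.1 z.2 = p
      · subst hp
        convert h2 using 2 with x
        obtain ⟨z₁, z₂⟩ := z
        by_cases e₁ : f x = z₁ <;> by_cases e₂ : g x = z₂ <;> simp [e₁, e₂]
      · convert (hS p).mono (he.trans he') using 2 with x
        obtain ⟨z₁, z₂⟩ := z
        by_cases e₁ : f x = z₁ <;> by_cases e₂ : g x = z₂ <;> simp_all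
  refine (key (R₁ ×ˢ R₂)).weak ?_ fun b _ hb p => ?_
  · rw [Finset.card_product]
    exact Nat.mul_le_mul_left _ (Nat.mul_le_mul c₁ c₂)
  · convert hb p using 2 with x
    simp [h₁ x, h₂ x]

theorem can_un {P₁ P : Type} {a : Pr n} {f : X n → P₁} {m : ℕ} (hf : Kn f a) (sf : Sm f m)
    (φ : P₁ → P) : Can a (2 * m) (Kn fun x => φ (f x)) := by
  simpa using can_bin hf (kn_const () a) sf (sm_fin _) fun u _ => φ u

theorem can_tri {P₁ P₂ P₃ P : Type} {a : Pr n} {f : X n → P₁} {g : X n → P₂} {h : X n → P₃}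
    {m : ℕ} (hf : Kn f a) (hg : Kn g a) (hh : Kn h a) (sf : Sm f m) (sg : Sm g m) (sh : Sm h m)
    (φ : P₁ → P₂ → P₃ → P) : Can a (4 * m ^ 3) (Kn fun x => φ (f x) (g x) (h x)) := by
  refine ((can_bin hf hg sf sg Prod.mk).bind fun b hb h1 =>
    can_bin h1 (hh.mono hb) (sf.bin sg Prod.mk) sh fun z u => φ z.1 z.2 u).cost ?_
  rcases Nat.eq_zero_or_pos m with rfl | hm
  · simp
  · nlinarith [Nat.mul_le_mul_left (m * m) hm]

theorem can_quad {P₁ P₂ P₃ P₄ P : Type} {a : Pr n} {f : X n → P₁} {g : X n → P₂} {h : X n → P₃}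
    {l : X n → P₄} {m : ℕ} (hf : Kn f a) (hg : Kn g a) (hh : Kn h a) (hl : Kn l a) (sf : Sm f m)
    (sg : Sm g m) (sh : Sm h m) (sl : Sm l m) (φ : P₁ → P₂ → P₃ → P₄ → P) :
    Can a (6 * m ^ 4) (Kn fun x => φ (f x) (g x) (h x) (l x)) := by
  refine ((can_tri hf hg hh sf sg sh fun u v w => (u, v, w)).bind fun b hb h1 =>
    can_bin h1 (hl.mono hb) (sf.bin (sg.bin sh Prod.mk) Prod.mk) sl
      fun z u => φ z.1 z.2.1 z.2.2 u).cost ?_
  rcases Nat.eq_zero_or_pos m with rfl | hm
  · simp
  · nlinarith [Nat.mul_le_mul_left (m ^ 3) hm]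

/-- Table lookup at a variable address. -/
theorem can_look {P₁ P : Type} {a : Pr n} {f : X n → P₁} {F : P₁ → X n → P} (V : Finset P₁)
    (R : Finset P) {m : ℕ} (hV : V.card ≤ m) (hR : R.card ≤ m) (p₀ : P) (h0 : p₀ ∈ R)
    (hf : Kn f a) (fV : ∀ x, f x ∈ V) (hF : ∀ v ∈ V, Kn (F v) a) (FR : ∀ v ∈ V, ∀ x, F v x ∈ R) :
    Can a (4 * m ^ 4) (Kn fun x => F (f x) x) := by
  have key : ∀ S : Finset P₁, S ⊆ V → Can a (S.card * (4 * m ^ 3))
      (Kn fun x => if f x ∈ S then F (f x) x else p₀) := by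
    intro S
    induction S using Finset.induction_on with
    | empty => exact fun _ => (Can.now (monoK _) (Kn.of_const p₀ a (by simp))).cost (by simp)
    | insert v S hv ih =>
      intro hS
      have hvV := hS (Finset.mem_insert_self _ _)
      rw [Finset.card_insert_of_notMem hv, add_mul, one_mul]
      refine (ih ((Finset.subset_insert _ _).trans hS)).bind fun b hb h1 => ?_
      refine (can_tri (hf.mono hb) ((hF v hvV).mono hb) h1 ⟨V, hV, fV⟩ ⟨R, hR, FR v hvV⟩
        ⟨R, hR, fun x => ?_⟩ fun u s t => if u = v then s else t).weak le_rfl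
        fun e _ h2 => h2.congr fun x => ?_
      · beta_reduce
        split_ifs
        · exact FR _ (fV x) x
        · exact h0
      · by_cases e₁ : f x = v <;> simp [e₁]
  refine (key V le_rfl).weak ?_ fun b _ hb => hb.congr fun x => by simp [fV x]
  calc V.card * (4 * m ^ 3) ≤ m * (4 * m ^ 3) := Nat.mul_le_mul_right _ hV
    _ = _ := by ring

theorem onW_inp (gs : List Gate) {i : ℕ} (hi : i < n) :
    OnW (n := n) gs fun x => x.1.getD i false := by
  refine OnW.mono (gs := []) ⟨i, by simpa using hi, fun x => rfl⟩ List.nil_prefix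

theorem can_inp (a : Pr n) {i : ℕ} (hi : i < n) : Can a 1 (Kn fun x => x.1.getD i false) := by
  refine (can_not (onW_inp a.gs hi)).weak le_rfl fun b _ hb p => ?_
  cases p
  · convert hb using 2 with x
    beta_reduce
    generalize x.1.getD i false = u
    cases u <;> simp
  · convert onW_inp b.gs hi using 2 with x
    beta_reduce
    generalize x.1.getD i false = u
    cases u <;> simp

theorem exists_pr (hn : 1 ≤ n) : ∃ a : Pr n, a.gs.length = 3 := by
  have hw : ∀ x : X n, wires [.not 0, .and 0 n, .or 0 n] x.1 = x.1 ++ [!x.1.getD 0 false, false, true] := by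
    intro x
    have h0 : ∀ t : List Bool, (x.1 ++ t).getD 0 false = x.1.getD 0 false := fun t =>
      List.getD_append _ _ _ _ (by rw [x.2]; omega)
    have h1 : ∀ (u : Bool) (t : List Bool), (x.1 ++ u :: t).getD n false = u := fun u t => by
      rw [List.getD_append_right _ _ _ _ (by rw [x.2]), x.2, Nat.sub_self]; rfl
    simp only [wires, List.foldl_cons, List.foldl_nil, Gate.eval, List.append_assoc,
      List.cons_append, List.nil_append, h0, h1]
    cases x.1.getD 0 false <;> simp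
  refine ⟨⟨[.not 0, .and 0 n, .or 0 n], fun k hk => ?_, ⟨n + 1, by simp, fun x => ?_⟩,
    ⟨n + 2, by simp, fun x => ?_⟩⟩, rfl⟩
  · have : k = 0 ∨ k = 1 ∨ k = 2 := by simp at hk; omega
    rcases this with rfl | rfl | rfl <;> simp [Gate.Below]
    all_goals omega
  · rw [hw, List.getD_append_right _ _ _ _ (by rw [x.2]; omega), x.2]; simp
  · rw [hw, List.getD_append_right _ _ _ _ (by rw [x.2]; omega), x.2]; simp

theorem exists_circuit (hn : 1 ≤ n) {P : Type} {f : X n → P} {c : ℕ}
    (h : ∀ a : Pr n, Can a c (Kn f)) (p : P) :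
    ∃ C : Circuit n, C.gates.length ≤ 3 + c ∧ ∀ x : X n, C.eval x.1 = true ↔ f x = p := by
  obtain ⟨a, ha⟩ := exists_pr hn
  obtain ⟨b, -, h1, h2⟩ := h a a (.refl _)
  obtain ⟨i, hi, he⟩ := h2 p
  refine ⟨⟨b.gs, i, b.ac, hi⟩, by simpa [ha] using h1, fun x => ?_⟩
  change (wires b.gs x.1).getD i false = true ↔ _
  rw [he]; simp

end Pool.Agent.MP_89e1e6_lc
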