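import Pool.Agent.MP_89e1e6_lc.Circ

set_option autoImplicit false

namespace Pool.Agent.MP_89e1e6_lc

variable {n : ℕ} {Γ : Type}

/-- A write-once array (cell `τ` is written at time `τ`) with a read pointer moving right. -/
structure Str (n : ℕ) (Γ : Type) where
  A : ℕ → X n → Γ
  r : ℕ → X n → ℕ
  d : Γ
  r0 : ∀ x, r 0 x = 0
  rs : ∀ τ x, r τ x ≤ r (τ + 1) x ∧ r (τ + 1) x ≤ r τ x + 1

namespace Str

variable (S : Str n Γ)

theorem r_add (τ s : ℕ) (x : X n) : S.r τ x ≤ S.r (τ + s) x ∧ S.r (τ + s) x ≤ S.r τ x + s := by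
  induction s with
  | zero => simp
  | succ s ih =>
    have := S.rs (τ + s) x
    rw [← add_assoc]
    omega

theorem r_le (τ : ℕ) (x : X n) : S.r τ x ≤ τ := by
  have := (S.r_add 0 τ x).2
  rwa [S.r0, zero_add] at this

def At (τ p : ℕ) (x : X n) : Γ := if p < τ then S.A p x else S.d
def rd (τ : ℕ) (x : X n) : Γ := S.At τ (S.r τ x) x
def RW (m τ i : ℕ) (x : X n) : Γ := S.At τ (S.r τ x / m * m + i) x
def Bt (m τ : ℕ) (x : X n) : ℕ := S.r τ x / m % 2
def Dl (m τ : ℕ) (x : X n) : ℕ := min (τ / m - S.r τ x / m) 2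
def Ov (m τ : ℕ) (x : X n) : ℕ := S.r (τ + m) x / m - S.r τ x / m
def Mid (m τ u : ℕ) (x : X n) : Γ := S.At (τ + m) (S.r τ x / (2 * m) * (2 * m) + u) x

theorem div_step {m : ℕ} (hm : 0 < m) (τ : ℕ) (x : X n) :
    S.r τ x / m ≤ S.r (τ + m) x / m ∧ S.r (τ + m) x / m ≤ S.r τ x / m + 1 := by
  have h := S.r_add τ m x
  exact ⟨Nat.div_le_div_right h.1, (Nat.div_le_div_right h.2).trans (Nat.add_div_right _ hm).le⟩

theorem div2 (a m : ℕ) : a / (2 * m) = a / m / 2 := by rw [Nat.div_div_eq_div_mul, mul_comm]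

theorem ov_lt {m : ℕ} (hm : 0 < m) (τ : ℕ) (x : X n) : S.Ov m τ x < 2 := by
  have := S.div_step hm τ x
  unfold Ov; omega

theorem rw1 (m τ i : ℕ) (x : X n) :
    S.RW m τ i x = S.RW (2 * m) τ (S.Bt m τ x * m + i) x := by
  unfold RW Bt
  rw [div2]
  congr 1
  generalize S.r τ x / m = a
  nth_rw 1 [← Nat.div_add_mod a 2]
  ring

theorem dl1 {m : ℕ} (hm : 0 < m) (t : ℕ) (x : X n) :
    S.Dl m (t * (2 * m)) x = min (2 * S.Dl (2 * m) (t * (2 * m)) x - S.Bt m (t * (2 * m)) x) 2 := by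
  unfold Dl Bt
  have e : t * (2 * m) / m = 2 * t := by
    rw [show t * (2 * m) = 2 * t * m by ring, Nat.mul_div_cancel _ hm]
  have h := Nat.div_le_div_right (c := m) (S.r_le (t * (2 * m)) x)
  rw [div2, div2, e] at *
  omega

theorem mid_eq {m : ℕ} (hm : 0 < m) (t u : ℕ) (hu : u < 4 * m) (x : X n) :
    S.Mid m (t * (2 * m)) u x =
      if u % (2 * m) < m ∧ S.Dl (2 * m) (t * (2 * m)) x = u / (2 * m) then
        S.A (t * (2 * m) + u % (2 * m)) x else S.RW (2 * m) (t * (2 * m)) u x := by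
  unfold Mid RW Dl At
  have hM : 0 < 2 * m := by omega
  have h := Nat.div_le_div_right (c := 2 * m) (S.r_le (t * (2 * m)) x)
  rw [Nat.mul_div_cancel _ hM] at *
  generalize S.r (t * (2 * m)) x / (2 * m) = a at *
  obtain ⟨D, rfl⟩ := Nat.exists_eq_add_of_le h
  rw [Nat.add_sub_cancel_left, add_mul]
  generalize a * (2 * m) = z
  have hd : 2 ≤ D → 4 * m ≤ D * (2 * m) := fun h => by nlinarith
  rcases lt_or_ge u (2 * m) with h1 | h1
  · rw [Nat.mod_eq_of_lt h1, Nat.div_eq_of_lt h1]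
    rcases D with _ | D
    · simp only [zero_mul, add_zero]
      split_ifs <;> first | rfl | omega
    · have : 2 * m ≤ (D + 1) * (2 * m) := by nlinarith
      split_ifs <;> first | rfl | omega
  · obtain ⟨v, rfl⟩ := Nat.exists_eq_add_of_le h1
    have hv : v < 2 * m := by omega
    rw [Nat.add_mod_left, Nat.add_div_left _ hM, Nat.mod_eq_of_lt hv, Nat.div_eq_of_lt hv]
    rcases D with _ | _ | D
    · simp only [zero_mul, add_zero]
      split_ifs <;> first | rfl | omega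
    · simp only [zero_add, one_mul, add_assoc]
      split_ifs <;> first | rfl | omega
    · have := hd (by omega)
      split_ifs <;> first | rfl | omega

theorem rw2 {m : ℕ} (hm : 0 < m) (τ i : ℕ) (x : X n) :
    S.RW m (τ + m) i x = S.Mid m τ ((S.Bt m τ x + S.Ov m τ x) * m + i) x := by
  unfold RW Mid Bt Ov
  rw [div2]
  congr 1
  have h := S.div_step hm τ x
  generalize S.r τ x / m = a at *
  generalize S.r (τ + m) x / m = b at *
  have : b = 2 * (a / 2) + (a % 2 + (b - a)) := by omega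
  nth_rw 1 [this]
  ring

theorem dl2 {m : ℕ} (hm : 0 < m) (t : ℕ) (x : X n) :
    S.Dl m (t * (2 * m) + m) x = min (2 * S.Dl (2 * m) (t * (2 * m)) x + 1 -
      (S.Bt m (t * (2 * m)) x + S.Ov m (t * (2 * m)) x)) 2 := by
  unfold Dl Bt Ov
  have e : t * (2 * m) / m = 2 * t := by
    rw [show t * (2 * m) = 2 * t * m by ring, Nat.mul_div_cancel _ hm]
  have h := Nat.div_le_div_right (c := m) (S.r_le (t * (2 * m)) x)
  have h' := S.div_step hm (t * (2 * m)) x
  rw [Nat.add_div_right _ hm, div2, div2, e] at *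
  omega

theorem bt2 {m : ℕ} (hm : 0 < m) (τ : ℕ) (x : X n) :
    S.Bt m (τ + 2 * m) x = (S.Bt m τ x + S.Ov m τ x + S.Ov m (τ + m) x) % 2 ∧
    S.Ov (2 * m) τ x = (S.Bt m τ x + S.Ov m τ x + S.Ov m (τ + m) x) / 2 := by
  unfold Bt Ov
  have h := S.div_step hm τ x
  have h' := S.div_step hm (τ + m) x
  rw [div2, div2]
  rw [show τ + m + m = τ + 2 * m by ring] at *
  omega

end Str

theorem can_sel {a : Pr n} {s : X n → ℕ} {g : ℕ → X n → Γ} {m : ℕ} (hm : 3 ≤ m)
    (hs : Kn s a) (h3 : ∀ x, s x < 3) (hg : ∀ i < 3, Kn (g i) a) (sg : ∀ i, Sm (g i) m) :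
    Can a (6 * m ^ 4) (Kn fun x => g (s x) x) := by
  refine (can_quad hs (hg 0 (by norm_num)) (hg 1 (by norm_num)) (hg 2 (by norm_num))
    ((sm_lt h3).mono hm) (sg 0) (sg 1) (sg 2)
    fun u v w z => if u = 0 then v else if u = 1 then w else z).weak le_rfl
    fun b _ hb => hb.congr fun x => ?_
  have := h3 x
  have h : s x = 0 ∨ s x = 1 ∨ s x = 2 := by omega
  rcases h with h | h | h <;> simp [h]

theorem mono_all {ι : Type*} {P : ι → Pr n → Prop} (R : ι → Prop) (hP : ∀ i, Mono (P i)) :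
    Mono fun b => ∀ i, R i → P i b := fun _ _ hab h i hi => hP i _ _ hab (h i hi)

theorem Can.range {a : Pr n} {c : ℕ} {P : ℕ → Pr n → Prop} (N : ℕ) (hP : ∀ i, Mono (P i))
    (h : ∀ i < N, Can a c (P i)) : Can a (N * c) fun b => ∀ i < N, P i b := by
  simpa using Can.all (Finset.range N) hP fun i hi => h i (Finset.mem_range.1 hi)

theorem queue_rec [Fintype Γ] (S : Str n Γ) (St : ℕ → Pr n → Prop) (hSt : ∀ τ, Mono (St τ))
    {C g : ℕ} (hg : 3 ≤ g) (hΓ : Fintype.card Γ ≤ g)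
    (step : ∀ τ a, St τ a → Kn (S.rd τ) a → Can a C fun b =>
      St (τ + 1) b ∧ Kn (S.A τ) b ∧ Kn (fun x => S.r (τ + 1) x - S.r τ x) b) (j : ℕ) :
    ∀ (t : ℕ) (a : Pr n), St (t * 2 ^ j) a → (∀ i < j, Kn (S.Bt (2 ^ i) (t * 2 ^ j)) a) →
      (∀ i < 2 * 2 ^ j, Kn (S.RW (2 ^ j) (t * 2 ^ j) i) a) → Kn (S.Dl (2 ^ j) (t * 2 ^ j)) a →
      Can a (2 ^ j * (C + 39 * g ^ 4 * j)) fun b => St (t * 2 ^ j + 2 ^ j) b ∧
        (∀ i < j, Kn (S.Bt (2 ^ i) (t * 2 ^ j + 2 ^ j)) b) ∧ Kn (S.Ov (2 ^ j) (t * 2 ^ j)) b ∧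
        ∀ i < 2 ^ j, Kn (S.A (t * 2 ^ j + i)) b := by
  have sΓ : ∀ f : X n → Γ, Sm f g := fun f => (sm_fin f).mono hΓ
  induction j with
  | zero =>
    intro t a h1 _ h3 _
    simp only [pow_zero, mul_one] at *
    refine (step t a h1 ((h3 0 (by norm_num)).congr fun x => by simp [Str.RW, Str.rd])).weak
      (by simp) fun b _ hb => ⟨hb.1, by simp, hb.2.2.congr fun x => by simp [Str.Ov], fun i hi => ?_⟩
    obtain rfl : i = 0 := by omega
    exact hb.2.1
  | succ j ih =>
    intro t a h1 h2 h3 h4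
    obtain ⟨m, hm⟩ : ∃ m, m = 2 ^ j := ⟨_, rfl⟩
    have hm0 : 0 < m := by rw [hm]; positivity
    have eM : 2 ^ (j + 1) = 2 * m := by rw [hm]; ring
    have ih1 := ih (2 * t)
    have ih2 := ih (2 * t + 1)
    have hβ := h2 j (by omega)
    rw [eM] at h1 h2 h3 h4 hβ ⊢
    rw [← hm] at ih1 ih2 hβ
    clear ih eM
    rw [show 2 * t * m = t * (2 * m) by ring] at ih1
    rw [show (2 * t + 1) * m = t * (2 * m) + m by ring,
      show t * (2 * m) + m + m = t * (2 * m) + 2 * m by ring] at ih2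
    have hd1 := S.dl1 hm0 t
    have hd2 := S.dl2 hm0 t
    have hmid := S.mid_eq hm0 t
    generalize t * (2 * m) = τ at *
    have sB : ∀ x, S.Bt m τ x < 2 := fun x => Nat.mod_lt _ (by norm_num)
    have sD : Sm (S.Dl (2 * m) τ) g :=
      (sm_lt (m := 3) fun x => by unfold Str.Dl; omega).mono hg
    have sO : ∀ τ, Sm (S.Ov m τ) g := fun τ => (sm_lt (S.ov_lt hm0 τ)).mono (by omega)
    have sB' : Sm (S.Bt m τ) g := (sm_lt sB).mono (by omega)
    have sS : ∀ x, S.Bt m τ x + S.Ov m τ x < 3 := fun x => by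
      have := sB x; have := S.ov_lt hm0 τ x; omega
    have c2 : 2 * (g * g) ≤ 6 * g ^ 4 := by nlinarith [Nat.mul_le_mul hg hg]
    have c3 : 4 * g ^ 3 ≤ 6 * g ^ 4 := by nlinarith [Nat.mul_le_mul_left (g ^ 3) hg]
    -- windows for the first half
    have a1 : Can a (2 * m * (6 * g ^ 4)) fun b => ∀ i < 2 * m, Kn (S.RW m τ i) b :=
      Can.range _ (fun _ => monoK _) fun i hi =>
        (can_sel (g := fun s => S.RW (2 * m) τ (s * m + i)) hg hβ (fun x => by have := sB x; omega)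
          (fun s hs => h3 _ (by nlinarith)) fun _ => sΓ _).weak le_rfl
          fun b _ hb => hb.congr fun x => (S.rw1 m τ i x).symm
    have a2 : Can a (6 * g ^ 4) (Kn (S.Dl m τ)) :=
      (can_bin h4 hβ sD sB' fun u v => min (2 * u - v) 2).weak c2
        fun b _ hb => hb.congr fun x => (hd1 x).symm
    refine ((a1.and (mono_all _ fun _ => monoK _) a2).bind fun b hab hb =>
      (ih1 b (hSt _ _ _ hab h1) (fun i hi => (h2 i (by omega)).mono hab) hb.1 hb.2).bind
        (d := 4 * m * (6 * g ^ 4) + (6 * g ^ 4 + (2 * m * (6 * g ^ 4) + 6 * g ^ 4 +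
          (m * (C + 39 * g ^ 4 * j) + (6 * g ^ 4 + 6 * g ^ 4)))))
        fun c hbc hc => ?_).cost ?_
    · obtain ⟨c1, c2', c3', c4⟩ := hc
      have hac := hab.trans hbc
      have b1 : Can c (4 * m * (6 * g ^ 4)) fun e => ∀ u < 4 * m, Kn (S.Mid m τ u) e :=
        Can.range _ (fun _ => monoK _) fun u hu => by
          by_cases h : u % (2 * m) < m
          · exact (can_tri (h4.mono hac) (c4 _ h) ((h3 u (by omega)).mono hac) sD (sΓ _) (sΓ _)
              fun p v w => if p = u / (2 * m) then v else w).weak c3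
              fun e _ he => he.congr fun x => by simp [hmid u hu x, h]
          · exact (Can.now (monoK _) (((h3 u (by omega)).mono hac).congr
              fun x => by simp [hmid u hu x, h])).cost (Nat.zero_le _)
      refine b1.bind fun e hce he => ?_
      have hae := hac.trans hce
      refine ((can_bin (hβ.mono hae) (c3'.mono hce) sB' (sO τ) fun u v => u + v).cost c2).bind
        fun e' hee' hs => ?_
      have hae' := hae.trans hee'
      have hce' := hce.trans hee'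
      have b2 : Can e' (2 * m * (6 * g ^ 4)) fun b => ∀ i < 2 * m, Kn (S.RW m (τ + m) i) b :=
        Can.range _ (fun _ => monoK _) fun i hi =>
          (can_sel (g := fun s => S.Mid m τ (s * m + i)) hg hs sS
            (fun s hs => (he _ (by nlinarith)).mono hee') fun _ => sΓ _).weak le_rfl
            fun b _ hb => hb.congr fun x => (S.rw2 hm0 τ i x).symm
      have b3 : Can e' (6 * g ^ 4) (Kn (S.Dl m (τ + m))) :=
        (can_bin (h4.mono hae') hs sD ((sm_lt sS).mono hg) fun u v => min (2 * u + 1 - v) 2).weak c2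
          fun b _ hb => hb.congr fun x => (hd2 x).symm
      refine (b2.and (mono_all _ fun _ => monoK _) b3).bind fun f hef hf => ?_
      have hcf := hce'.trans hef
      refine (ih2 f (hSt _ _ _ hcf c1) (fun i hi => (c2' i hi).mono hcf) hf.1 hf.2).bind
        fun k hfk hk => ?_
      obtain ⟨k1, k2, k3, k4⟩ := hk
      have hs' := hs.mono (hef.trans hfk)
      refine (((can_bin hs' k3 ((sm_lt sS).mono hg) (sO _) fun u v => (u + v) % 2).cost c2).and
        (monoK _) ((can_bin hs' k3 ((sm_lt sS).mono hg) (sO _) fun u v => (u + v) / 2).cost c2)).weak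
        le_rfl fun l hkl hl => ⟨hSt _ _ _ hkl k1, fun i hi => ?_,
          hl.2.congr fun x => (S.bt2 hm0 τ x).2.symm, fun i hi => ?_⟩
      · rcases Nat.lt_succ_iff_lt_or_eq.1 hi with h | rfl
        · exact (k2 i h).mono hkl
        · rw [← hm]
          exact hl.1.congr fun x => (S.bt2 hm0 τ x).1.symm
      · rcases lt_or_ge i m with h | h
        · exact (c4 i h).mono (hcf.trans (hfk.trans hkl))
        · have := (k4 (i - m) (by omega)).mono hkl
          rwa [show τ + m + (i - m) = τ + i by omega] at this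
    · generalize g ^ 4 = κ
      nlinarith [Nat.mul_le_mul_right κ hm0]

/-- Oblivious simulation of the read pointer. -/
theorem queue_main [Fintype Γ] (S : Str n Γ) (St : ℕ → Pr n → Prop) (hSt : ∀ τ, Mono (St τ))
    {C g : ℕ} (hg : 3 ≤ g) (hΓ : Fintype.card Γ ≤ g)
    (step : ∀ τ a, St τ a → Kn (S.rd τ) a → Can a C fun b =>
      St (τ + 1) b ∧ Kn (S.A τ) b ∧ Kn (fun x => S.r (τ + 1) x - S.r τ x) b) (j : ℕ)
    (a : Pr n) (h : St 0 a) : Can a (2 ^ j * (C + 39 * g ^ 4 * j)) (St (2 ^ j)) := by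
  have := queue_rec S St hSt hg hΓ step j 0 a (by simpa using h)
    (fun i _ => Kn.of_const 0 a fun x => by simp [Str.Bt, S.r0])
    (fun i _ => Kn.of_const S.d a fun x => by simp [Str.RW, Str.At])
    (Kn.of_const 0 a fun x => by simp [Str.Dl])
  exact this.weak le_rfl fun b _ hb => by simpa using hb.1

end Pool.Agent.MP_89e1e6_lc
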