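import Pool.Agent.MP_89e1e6_lc.Micro
import Pool.Agent.MP_89e1e6_lc.Queue

set_option autoImplicit false
set_option linter.unusedSectionVars false

namespace Pool.Agent.MP_89e1e6_lc

open Classical

/-- Lists of given length. -/
noncomputable def lists (Q : Type) [Fintype Q] : ℕ → Finset (List Q)
  | 0 => {[]}
  | K + 1 => (Finset.univ ×ˢ lists Q K).image fun z => z.1 :: z.2

theorem mem_lists {Q : Type} [Fintype Q] {K : ℕ} {l : List Q} : l ∈ lists Q K ↔ l.length = K := by
  induction K generalizing l with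
  | zero => simp [lists]
  | succ K ih =>
    cases l with
    | nil => simp [lists]
    | cons a l => simp [lists, ih]

theorem card_lists (Q : Type) [Fintype Q] (K : ℕ) : (lists Q K).card ≤ Fintype.card Q ^ K := by
  induction K with
  | zero => simp [lists]
  | succ K ih =>
    refine Finset.card_image_le.trans ?_
    rw [Finset.card_product, Finset.card_univ, pow_succ']
    exact Nat.mul_le_mul_left _ ih

namespace Clockwise

variable {Q Γ : Type} [Fintype Q] [Fintype Γ] (M : Clockwise Q Γ) (k : ℕ)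

/-- Possible buffer contents. -/
noncomputable def bufs : Finset (List Γ) :=
  insert [] ((lists Q (2 * k + 3) ×ˢ Finset.univ).biUnion fun z : List Q × Γ =>
    (M.band (z.1.take (k + 1)) [z.2]).2.tails.toFinset)

theorem mem_bufs {l : List Γ} : l ∈ M.bufs k ↔ l = [] ∨ ∃ (σ : List Q) (γ : Γ), σ.length = 2 * k + 3 ∧
    l <:+ (M.band (σ.take (k + 1)) [γ]).2 := by
  simp [bufs, mem_lists]

theorem card_bufs {c : ℕ} (hc : ∀ q a, (M.wr q a).length ≤ c) : (M.bufs k).card ≤
    Fintype.card Q ^ (2 * k + 3) * Fintype.card Γ * (c ^ (k + 1) + 1) + 1 := by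
  refine (Finset.card_insert_le _ _).trans (Nat.add_le_add_right ?_ 1)
  refine (Finset.card_biUnion_le_card_mul _ _ (c ^ (k + 1) + 1) fun z hz => ?_).trans ?_
  · refine (List.toFinset_card_le _).trans ?_
    have h1 := M.band_len_le hc (z.1.take (k + 1)) [z.2]
    have h2 : z.1.length = 2 * k + 3 := mem_lists.1 (Finset.mem_product.1 hz).1
    rw [List.length_take, h2, min_eq_left (by omega)] at h1
    simpa using h1
  · rw [Finset.card_product, Finset.card_univ]
    exact Nat.mul_le_mul_right _ (Nat.mul_le_mul_right _ (card_lists Q _))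

/-- Lengths of the state vectors. -/
def Ok (c : Cfg Q Γ) : Prop :=
  c.s.length = 2 * k + 3 ∧ ∀ σ, σ.length = 2 * k + 3 → (c.F σ).length = 2 * k + 3

theorem Ok.step {c : Cfg Q Γ} (h : Ok k c) : Ok k (M.stepc k c) := by
  refine ⟨?_, fun σ hσ => ?_⟩
  · simp only [stepc]
    split_ifs
    · exact fixp_length h.2 _ _
    · unfold news
      split
      · rw [band_length, h.1]
      · exact h.1
  · simp only [stepc]
    split_ifs
    · exact hσ
    · rw [upd, band_length, h.2 σ hσ]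

theorem buf_step {c : Cfg Q Γ} (h : Ok k c) (hb : c.buf ∈ M.bufs k) :
    (M.stepc k c).buf ∈ M.bufs k := by
  have : M.wd k c ∈ M.bufs k := by
    unfold wd word
    split
    · rename_i h1
      rwa [← h1]
    · exact (M.mem_bufs k).2 (Or.inr ⟨_, _, h.1, List.suffix_refl _⟩)
    · exact (M.mem_bufs k).2 (Or.inl rfl)
  rcases (M.mem_bufs k).1 this with h1 | ⟨σ, γ, h1, h2⟩
  · exact (M.mem_bufs k).2 (Or.inl (by simp [stepc, h1]))
  · exact (M.mem_bufs k).2 (Or.inr ⟨σ, γ, h1, (List.tail_suffix _).trans h2⟩)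

variable {n : ℕ}

def tape (x : X n) : List Γ := x.1.map M.inp ++ [M.mark]

noncomputable def dd (t : ℕ) (x : X n) : Cfg Q Γ := (M.stepc k)^[t] (M.c1 k (M.tape x))

theorem tape_length (x : X n) : (M.tape x).length = n + 1 := by simp [tape, x.2]

theorem dd_succ (t : ℕ) (x : X n) : M.dd k (t + 1) x = M.stepc k (M.dd k t x) :=
  Function.iterate_succ_apply' _ _ _

theorem dd_ok (t : ℕ) (x : X n) : Ok k (M.dd k t x) := by
  induction t with
  | zero => exact ⟨by simp [dd, c1], fun σ h => h⟩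
  | succ t ih => rw [dd_succ]; exact ih.step M k

theorem dd_pre {t : ℕ} (ht : t ≤ n + 1) (x : X n) :
    (M.dd k t x).buf = (M.tape x).drop t ∧ (M.dd k t x).r = 0 := by
  induction t with
  | zero => exact ⟨rfl, rfl⟩
  | succ t ih =>
    obtain ⟨h1, h2⟩ := ih (by omega)
    have hl : t < (M.tape x).length := by rw [tape_length]; omega
    rw [List.drop_eq_getElem_cons hl] at h1
    rw [dd_succ]
    generalize (M.tape x)[t] = y at h1
    simp [stepc, wd, h1, h2, word]

theorem dd_buf {t : ℕ} (ht : n + 1 ≤ t) (x : X n) : (M.dd k t x).buf ∈ M.bufs k := by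
  induction t, ht using Nat.le_induction with
  | base =>
    rw [(M.dd_pre k le_rfl x).1, List.drop_eq_nil_of_le (M.tape_length x).le]
    exact (M.mem_bufs k).2 (Or.inl rfl)
  | succ t _ ih => rw [dd_succ]; exact M.buf_step k (M.dd_ok k t x) ih

/-- The write-once array of the fast machine. -/
noncomputable def str : Str n (Option Γ) where
  A τ x := match τ with
    | 0 => none
    | t + 1 => (M.wd k (M.dd k t x)).head?
  r τ x := match τ with
    | 0 => 0
    | t + 1 => (M.dd k t x).r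
  d := none
  r0 _ := rfl
  rs τ x := by
    cases τ with
    | zero => simp [dd, c1]
    | succ t =>
      simp only [dd_succ, stepc]
      split_ifs <;> omega

theorem dd_arr (t : ℕ) (x : X n) : (M.dd k t x).arr.length = t + 1 ∧
    ∀ p, (M.dd k t x).arr.getD p none = (M.str k).At (t + 1) p x := by
  induction t with
  | zero =>
    refine ⟨rfl, fun p => ?_⟩
    cases p <;> simp [dd, c1, Str.At, str]
  | succ t ih =>
    have e : (M.dd k (t + 1) x).arr = (M.dd k t x).arr ++ [(M.str k).A (t + 1) x] := by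
      rw [dd_succ]; rfl
    refine ⟨by simp [e, ih.1], fun p => ?_⟩
    rw [e]
    rcases lt_trichotomy p (t + 1) with h | rfl | h
    · rw [List.getD_append _ _ _ _ (by rw [ih.1]; exact h), ih.2, Str.At, Str.At, if_pos h,
        if_pos (by omega)]
    · rw [List.getD_append_right _ _ _ _ ih.1.le, ih.1, Nat.sub_self, Str.At, if_pos (by omega)]
      rfl
    · rw [List.getD_eq_default _ _ (by simp [ih.1]; omega), Str.At, if_neg (by omega)]
      rfl

theorem rd_eq (t : ℕ) (x : X n) : (M.str k).rd (t + 1) x = rdc (M.dd k t x) :=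
  ((M.dd_arr k t x).2 _).symm

/-- The finite control at time `t` is on wires. -/
def St (t : ℕ) (a : Pr n) : Prop :=
  Kn (fun x => (M.dd k t x).s) a ∧ Kn (fun x => (M.dd k t x).res) a ∧
    (∀ σ ∈ lists Q (2 * k + 3), Kn (fun x => (M.dd k t x).F σ) a) ∧
    (n + 1 ≤ t → Kn (fun x => (M.dd k t x).buf) a)

theorem st_mono (t : ℕ) : Mono (M.St (n := n) k t) := fun _ _ hab h =>
  ⟨h.1.mono hab, h.2.1.mono hab, fun σ hσ => (h.2.2.1 σ hσ).mono hab, fun ht => (h.2.2.2 ht).mono hab⟩

theorem st_zero (a : Pr n) : M.St k 0 a :=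
  ⟨kn_const _ a, kn_const _ a, fun _ _ => kn_const _ a, fun h => by omega⟩

/-- What one step has to deliver. -/
def Out (t : ℕ) (b : Pr n) : Prop :=
  M.St k (t + 1) b ∧ Kn ((M.str k).A (t + 1)) b ∧
    Kn (fun x => (M.str k).r (t + 1 + 1) x - (M.str k).r (t + 1) x) b

theorem step_pre {Y : ℕ} (hV : (lists Q (2 * k + 3)).card ≤ Y) (hΓ : Fintype.card Γ ≤ Y)
    (h2 : 2 ≤ Y) {t : ℕ} (ht : t < n + 1) (a : Pr n) (h : M.St k t a) :
    Can a (30 * Y ^ 15) (M.Out k t) := by
  have hy : Can a 5 (Kn fun x : X n => (M.tape x).getD t M.mark) := by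
    rcases Nat.lt_succ_iff_lt_or_eq.1 ht with h1 | rfl
    · refine ((can_inp a h1).bind fun b _ hb => can_un hb (sm_fin _) M.inp).weak (by simp)
        fun b _ hb => hb.congr fun x => ?_
      have : t < x.1.length := by rw [x.2]; exact h1
      obtain ⟨x, hx⟩ := x
      rw [tape, List.getD_append _ _ _ _ (by simpa using this), List.getD_eq_getElem _ _ this,
        List.getD_eq_getElem _ _ (by simpa using this), List.getElem_map]
    · exact (Can.now (monoK _) (Kn.of_const M.mark a fun x => by simp [tape, x.2])).cost (by norm_num)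
  have hb : ∀ x : X n, (M.dd k t x).buf = (M.tape x).getD t M.mark :: (M.tape x).drop (t + 1) := by
    intro x
    have hl : t < (M.tape x).length := by rw [tape_length]; omega
    rw [(M.dd_pre k ht.le x).1, List.drop_eq_getElem_cons hl]
    simp [hl]
  have hw : ∀ x : X n, M.wd k (M.dd k t x) = (M.tape x).getD t M.mark :: (M.tape x).drop (t + 1) :=
    fun x => by rw [wd, hb, word]
  refine (hy.bind (d := 2 * Y + Y * (2 * (Y * Y))) fun b hab hy => ?_).cost ?_
  · have sy : Sm (fun x : X n => (M.tape x).getD t M.mark) Y := (sm_fin _).mono hΓ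
    refine ((can_un hy sy some).and (monoK _) ((Can.all (lists Q (2 * k + 3)) (fun _ => monoK _)
      fun σ hσ => can_bin ((h.2.2.1 σ hσ).mono hab) hy ⟨_, hV, fun x =>
        mem_lists.2 ((M.dd_ok k t x).2 σ (mem_lists.1 hσ))⟩ sy
        fun u y => (M.band u [y]).1).cost (Nat.mul_le_mul_right _ hV))).weak le_rfl
      fun e hbe he => ⟨⟨?_, ?_, fun σ hσ => ?_, fun h1 => ?_⟩, ?_, ?_⟩
    · exact (h.1.mono (hab.trans hbe)).congr fun x => by simp [dd_succ, stepc, hw, hb, news]
    · exact (h.2.1.mono (hab.trans hbe)).congr fun x => by simp [dd_succ, stepc, hw]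
    · exact (he.2 σ hσ).congr fun x => by simp [dd_succ, stepc, hw, upd]
    · exact Kn.of_const [] e fun x => by
        rw [(M.dd_pre k ht x).1, List.drop_eq_nil_of_le (by rw [tape_length]; omega)]
    · exact he.1.congr fun x => by simp [str, hw]
    · exact Kn.of_const 0 e fun x => by simp [str, (M.dd_pre k ht x).2]
  · have h1 : 1 ≤ Y := by omega
    have a1 : Y ≤ Y ^ 15 := Nat.le_self_pow (by norm_num) _
    have a3 : Y ^ 3 ≤ Y ^ 15 := Nat.pow_le_pow_right h1 (by norm_num)
    nlinarith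

theorem can_fix (q₀ : Q) {Z : ℕ} (hV : (lists Q (2 * k + 3)).card ≤ Z) (hQ : Fintype.card Q ≤ Z)
    {F : X n → List Q → List Q} {q : X n → Q} {a : Pr n}
    (hF : ∀ σ ∈ lists Q (2 * k + 3), Kn (fun x => F x σ) a)
    (hl : ∀ x σ, σ.length = 2 * k + 3 → (F x σ).length = 2 * k + 3) (hq : Kn q a) (j : ℕ) :
    Can a ((j + 1) * (6 * Z ^ 4)) (Kn fun x => fixp (2 * k + 3) (F x) (q x) j) := by
  have hZ : 1 ≤ Z := le_trans (Fintype.card_pos_iff.2 ⟨q₀⟩) hQ
  have a1 : Z ≤ Z ^ 4 := Nat.le_self_pow (by norm_num) _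
  have a2 : Z ^ 2 ≤ Z ^ 4 := Nat.pow_le_pow_right hZ (by norm_num)
  induction j with
  | zero => exact (can_un hq ((sm_fin _).mono hQ) (List.replicate (2 * k + 3))).cost (by omega)
  | succ j ih =>
    have hm : ∀ x, fixp (2 * k + 3) (F x) (q x) j ∈ lists Q (2 * k + 3) :=
      fun x => mem_lists.2 (fixp_length (hl x) _ _)
    refine (ih.bind fun b hab hb => (can_look (F := fun σ x => F x σ) _ _ hV hV
      (List.replicate (2 * k + 3) q₀) (mem_lists.2 (by simp)) hb hm
      (fun σ hσ => (hF σ hσ).mono hab) fun σ hσ x => mem_lists.2 (hl x σ (mem_lists.1 hσ))).bind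
      fun e hbe he => can_bin (hq.mono (hab.trans hbe)) he ((sm_fin _).mono hQ)
        ⟨_, hV, fun x => mem_lists.2 (hl x _ (mem_lists.1 (hm x)))⟩
        fun u v => (u :: v).take (2 * k + 3)).cost ?_
    nlinarith

theorem step_main {Y : ℕ} (hV : (lists Q (2 * k + 3)).card ≤ Y) (hΓ : Fintype.card Γ + 1 ≤ Y)
    (hQ : Fintype.card Q ≤ Y) (hB : (M.bufs k).card ≤ Y) (hk : 2 * k + 4 ≤ Y) {t : ℕ}
    (ht : n + 1 ≤ t) (a : Pr n) (h : M.St k t a) (hr : Kn (fun x => rdc (M.dd k t x)) a) :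
    Can a (30 * Y ^ 15) (M.Out k t) := by
  obtain ⟨Z, hZ⟩ : ∃ Z, Z = Y ^ 3 := ⟨_, rfl⟩
  have hYZ : Y ≤ Z := hZ ▸ Nat.le_self_pow (by norm_num) _
  have ss : Sm (fun x : X n => (M.dd k t x).s) Y := ⟨_, hV, fun x => mem_lists.2 (M.dd_ok k t x).1⟩
  have sb : Sm (fun x : X n => (M.dd k t x).buf) Y := ⟨_, hB, M.dd_buf k ht⟩
  have sr : Sm (fun x : X n => rdc (M.dd k t x)) Y := (sm_fin _).mono (by simpa using hΓ)
  have se : Sm (fun x : X n => ((M.dd k t x).s, (M.dd k t x).buf, rdc (M.dd k t x))) Z :=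
    (ss.bin (sb.bin sr Prod.mk) Prod.mk).mono (by rw [hZ]; nlinarith)
  have sz : Sm (fun x : X n => M.zed k (M.dd k t x)) Z :=
    ⟨_, hV.trans hYZ, fun x => mem_lists.2 (fixp_length (M.dd_ok k t x).2 _ _)⟩
  have sF : ∀ σ ∈ lists Q (2 * k + 3), Sm (fun x : X n => (M.dd k t x).F σ) Z := fun σ hσ =>
    ⟨_, hV.trans hYZ, fun x => mem_lists.2 ((M.dd_ok k t x).2 σ (mem_lists.1 hσ))⟩
  have sres : Sm (fun x : X n => (M.dd k t x).res) Z := (sm_fin _).mono (by simp; omega)
  have c1 := can_tri h.1 (h.2.2.2 ht) hr ss sb sr fun u v w => (u, v, w)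
  have c2 : Can a (2 * Z + (2 * k + 3 + 1) * (6 * Z ^ 4)) (Kn fun x => M.zed k (M.dd k t x)) :=
    (can_un h.1 (ss.mono hYZ) fun u => u.getD k M.start).bind fun b hab hb =>
      can_fix k M.start (hV.trans hYZ) (hQ.trans hYZ) (F := fun x => (M.dd k t x).F)
        (fun σ hσ => (h.2.2.1 σ hσ).mono hab) (fun x => (M.dd_ok k t x).2) hb _
  refine ((c1.and (monoK _) c2).bind (d := 2 * (Z * Z) + (4 * Z ^ 3 + (Z * (2 * (Z * Z)) +
    (2 * Z + (2 * Z + 2 * Z))))) fun b hab hb => ?_).cost ?_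
  · obtain ⟨he, hz⟩ := hb
    have d1 := can_bin he hz se sz fun e z =>
      if M.word k e.1 e.2.1 e.2.2 = [] then z else M.news e.1 e.2.1 e.2.2
    have d2 := can_tri he hz (h.2.1.mono hab) se sz sres fun e z r =>
      if M.word k e.1 e.2.1 e.2.2 = [] then r.or (M.halt (z.getD (2 * k + 2) M.start)) else r
    have d3 := (Can.all (lists Q (2 * k + 3)) (fun _ => monoK _) fun σ hσ =>
      can_bin he ((h.2.2.1 σ hσ).mono hab) se (sF σ hσ) fun e u =>
        if M.word k e.1 e.2.1 e.2.2 = [] then σ else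
          (M.band u ((M.word k e.1 e.2.1 e.2.2).take 1)).1).cost
      (Nat.mul_le_mul_right _ (hV.trans hYZ))
    have d4 := can_un he se fun e => (M.word k e.1 e.2.1 e.2.2).tail
    have d5 := can_un he se fun e => (M.word k e.1 e.2.1 e.2.2).head?
    have d6 := can_un he se fun e => if e.2.1 = [] then 1 else 0
    refine (d1.and (monoK _) (d2.and (monoK _) (d3.and (mono_all _ fun _ => monoK _)
      (d4.and (monoK _) (d5.and (monoK _) d6))))).weak le_rfl
      fun e _ he => ⟨⟨he.1.congr fun x => ?_, he.2.1.congr fun x => ?_,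
        fun σ hσ => (he.2.2.1 σ hσ).congr fun x => ?_, fun _ => he.2.2.2.1.congr fun x => ?_⟩,
        he.2.2.2.2.1.congr fun x => rfl, he.2.2.2.2.2.congr fun x => ?_⟩
    · rw [dd_succ]; rfl
    · rw [dd_succ]; rfl
    · rw [dd_succ]
      simp only [stepc]
      change (if M.wd k (M.dd k t x) = [] then _ else _) = _
      split_ifs <;> rfl
    · rw [dd_succ]; rfl
    · simp only [str, dd_succ, stepc]
      split_ifs <;> omega
  · have h1 : 1 ≤ Z := by omega
    rw [show Y ^ 15 = Z ^ 5 by rw [hZ]; ring, ← hZ]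
    have a1 : Z ≤ Z ^ 5 := Nat.le_self_pow (by norm_num) _
    have a2 : Z ^ 2 ≤ Z ^ 5 := Nat.pow_le_pow_right h1 (by norm_num)
    have a3 : Z ^ 3 ≤ Z ^ 5 := Nat.pow_le_pow_right h1 (by norm_num)
    have a4 : (2 * k + 3 + 1) * (6 * Z ^ 4) ≤ Z * (6 * Z ^ 4) := Nat.mul_le_mul_right _ (by omega)
    nlinarith

/-- All value sets have at most `Y` elements. -/
structure Bd (Y : ℕ) : Prop where
  V : (lists Q (2 * k + 3)).card ≤ Y
  Γ : Fintype.card Γ + 1 ≤ Y
  Q : Fintype.card Q ≤ Y
  B : (M.bufs k).card ≤ Y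
  k : 2 * k + 4 ≤ Y

theorem step_all {Y : ℕ} (hY : M.Bd k Y) (t : ℕ) (a : Pr n) (h : M.St k t a)
    (hr : Kn (fun x => rdc (M.dd k t x)) a) : Can a (30 * Y ^ 15) (M.Out k t) := by
  rcases lt_or_ge t (n + 1) with ht | ht
  · exact M.step_pre k hY.V (by have := hY.Γ; omega) (by have := hY.k; omega) ht a h
  · exact M.step_main k hY.V hY.Γ hY.Q hY.B hY.k ht a h hr

theorem can_short {Y : ℕ} (hY : M.Bd k Y) (a : Pr n) {t : ℕ} (ht : t ≤ n + 2) :
    Can a (t * (30 * Y ^ 15)) (M.St k t) := by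
  induction t with
  | zero => exact (Can.now (M.st_mono k 0) (M.st_zero k a)).cost (by simp)
  | succ t ih =>
    rw [add_mul, one_mul]
    refine (ih (by omega)).bind fun b _ hb => (M.step_all k hY t b hb
      (Kn.of_const none b fun x => ?_)).weak le_rfl fun e _ he => he.1
    rw [rdc, (M.dd_pre k (by omega) x).2, (M.dd_arr k t x).2]
    simp [Str.At, str]

theorem can_long {Y g : ℕ} (hY : M.Bd k Y) (hg : 3 ≤ g) (hΓ : Fintype.card Γ + 1 ≤ g) (a : Pr n)
    (J : ℕ) : Can a (2 ^ J * (30 * Y ^ 15 + 39 * g ^ 4 * J)) (M.St k (2 ^ J - 1)) := by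
  refine queue_main (M.str k) (fun τ => M.St k (τ - 1)) (fun τ => M.st_mono k _) hg
    (by simpa using hΓ) (fun τ b hb hr => ?_) J a (M.st_zero k a)
  cases τ with
  | zero =>
    refine (Can.now (P := fun _ => True) (fun _ _ _ _ => trivial) trivial).weak (Nat.zero_le _)
      fun e _ _ => ⟨M.st_zero k e, kn_const none e, Kn.of_const 0 e fun x => by simp [str, dd, c1]⟩
  | succ t => exact M.step_all k hY t b hb (hr.congr (M.rd_eq k t))

end Clockwise

end Pool.Agent.MP_89e1e6_lc
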