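import Pool.Agent.MP_89e1e6_lc.Queue

set_option autoImplicit false

namespace Pool.Agent.MP_89e1e6_lc

open Classical

variable {n : ℕ} {ι P : Type}

/-- A tape whose cells have components indexed by `ι`, with a head that moves by at most one. -/
structure Tp (n : ℕ) (ι P : Type) where
  tp : ℕ → ℕ → ι → X n → P
  H : ℕ → X n → ℕ
  hs : ∀ τ x, H (τ + 1) x ≤ H τ x + 1 ∧ H τ x ≤ H (τ + 1) x + 1
  loc : ∀ τ p i x, p ≠ H τ x → tp (τ + 1) p i x = tp τ p i x

namespace Tp

variable (S : Tp n ι P)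

theorem H_add (τ s : ℕ) (x : X n) : S.H (τ + s) x ≤ S.H τ x + s ∧ S.H τ x ≤ S.H (τ + s) x + s := by
  induction s with
  | zero => simp
  | succ s ih =>
    have := S.hs (τ + s) x
    rw [← add_assoc]
    omega

theorem far (τ s p : ℕ) (i : ι) (x : X n) (h : p + s ≤ S.H τ x ∨ S.H τ x + s ≤ p) :
    S.tp (τ + s) p i x = S.tp τ p i x := by
  induction s with
  | zero => rfl
  | succ s ih =>
    have := S.H_add τ s x
    rw [← add_assoc, S.loc _ _ _ _ (by omega), ih (by omega)]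

def Win (m τ τ' u : ℕ) (i : ι) (x : X n) : P := S.tp τ' ((S.H τ x / m - 1) * m + u) i x
def Bt (m τ : ℕ) (x : X n) : ℕ := S.H τ x / m % 2
def Ov (m τ : ℕ) (x : X n) : ℕ := S.H (τ + m) x / m + 1 - S.H τ x / m

theorem div_step {m : ℕ} (hm : 0 < m) (τ : ℕ) (x : X n) :
    S.H (τ + m) x / m ≤ S.H τ x / m + 1 ∧ S.H τ x / m ≤ S.H (τ + m) x / m + 1 := by
  have h := S.H_add τ m x
  exact ⟨(Nat.div_le_div_right h.1).trans (Nat.add_div_right _ hm).le,
    (Nat.div_le_div_right h.2).trans (Nat.add_div_right _ hm).le⟩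

theorem ov_lt {m : ℕ} (hm : 0 < m) (τ : ℕ) (x : X n) : S.Ov m τ x < 3 := by
  have := S.div_step hm τ x
  unfold Ov; omega

theorem two_le {m a : ℕ} (hm : 0 < m) (h : 2 * m ≤ a) : 2 ≤ a / m :=
  (Nat.le_div_iff_mul_le hm).2 h

theorem start1 {m τ : ℕ} (hm : 0 < m) {x : X n} (h : 2 * m ≤ S.H τ x) :
    (S.H τ x / m - 1) * m = (S.H τ x / (2 * m) - 1) * (2 * m) + (S.Bt m τ x + 1) * m := by
  unfold Bt
  rw [Str.div2]
  have h2 := two_le hm h
  generalize S.H τ x / m = a at *
  obtain ⟨A, hA⟩ : ∃ A, a / 2 = A + 1 := ⟨a / 2 - 1, by omega⟩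
  rw [hA, show a - 1 = 2 * A + (a % 2 + 1) by omega, Nat.add_sub_cancel]
  ring

theorem start2 {m τ : ℕ} (hm : 0 < m) {x : X n} (h : 2 * m ≤ S.H τ x) :
    (S.H (τ + m) x / m - 1) * m =
      (S.H τ x / (2 * m) - 1) * (2 * m) + (S.Bt m τ x + S.Ov m τ x) * m := by
  unfold Bt Ov
  rw [Str.div2]
  have h2 := two_le hm h
  have h3 := S.div_step hm τ x
  generalize S.H τ x / m = a at *
  generalize S.H (τ + m) x / m = b at *
  obtain ⟨A, hA⟩ : ∃ A, a / 2 = A + 1 := ⟨a / 2 - 1, by omega⟩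
  rw [hA, show b - 1 = 2 * A + (a % 2 + (b + 1 - a)) by omega, Nat.add_sub_cancel]
  ring

/-- Writing a window back. -/
theorem back {m : ℕ} (hm : 0 < m) {τ z s : ℕ} {x : X n} (h1 : m ≤ S.H τ x)
    (h : (S.H τ x / m - 1) * m = z + s * m) (u : ℕ) (i : ι) :
    S.tp (τ + m) (z + u) i x = if s * m ≤ u ∧ u < s * m + 3 * m then
      S.Win m τ (τ + m) (u - s * m) i x else S.tp τ (z + u) i x := by
  split_ifs with hu
  · unfold Win
    rw [h, show z + s * m + (u - s * m) = z + u by omega]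
  · refine S.far τ m _ i x ?_
    have h2 : 1 ≤ S.H τ x / m := (Nat.le_div_iff_mul_le hm).2 (by omega)
    have h3 := Nat.div_add_mod (S.H τ x) m
    have h4 := Nat.mod_lt (S.H τ x) hm
    obtain ⟨A, hA⟩ : ∃ A, S.H τ x / m = A + 1 := ⟨S.H τ x / m - 1, by omega⟩
    rw [hA] at h h3
    rw [Nat.add_sub_cancel, mul_comm] at h
    rw [mul_add, h] at h3
    omega

theorem bt2 {m τ : ℕ} (hm : 0 < m) {x : X n} (h : 2 * m ≤ S.H τ x) :
    S.Bt m (τ + 2 * m) x = (S.Bt m τ x + S.Ov m τ x + S.Ov m (τ + m) x) % 2 ∧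
    S.Ov (2 * m) τ x = (S.Bt m τ x + S.Ov m τ x + S.Ov m (τ + m) x) / 2 := by
  unfold Bt Ov
  have h1 := S.div_step hm τ x
  have h' := S.div_step hm (τ + m) x
  have h2 := two_le hm h
  rw [Str.div2, Str.div2]
  rw [show τ + m + m = τ + 2 * m by ring] at *
  omega

end Tp

theorem can_sel4 [Fintype P] {a : Pr n} {s : X n → ℕ} {G : ℕ → X n → P} {g : ℕ} (hg : 4 ≤ g)
    (hP : Fintype.card P ≤ g) (p₀ : P) (hs : Kn s a) (h4 : ∀ x, s x < 4) (hG : ∀ v < 4, Kn (G v) a) :
    Can a (4 * g ^ 4) (Kn fun x => G (s x) x) :=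
  can_look (Finset.range 4) Finset.univ (by simpa using hg) hP p₀ (Finset.mem_univ _) hs
    (fun x => Finset.mem_range.2 (h4 x)) (fun v hv => hG v (Finset.mem_range.1 hv))
    fun _ _ _ => Finset.mem_univ _

theorem Can.grid {a : Pr n} {c : ℕ} {f : ℕ → ι → X n → P} (N : ℕ) (I : Finset ι)
    (h : ∀ u < N, ∀ i ∈ I, Can a c (Kn (f u i))) :
    Can a (N * (I.card * c)) fun b => ∀ u < N, ∀ i ∈ I, Kn (f u i) b :=
  Can.range N (fun _ => mono_all _ fun _ => monoK _) fun u hu =>
    Can.all I (fun _ => monoK _) (h u hu)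

theorem mono_grid (f : ℕ → ι → X n → P) (N : ℕ) (I : Finset ι) :
    Mono fun b => ∀ u < N, ∀ i ∈ I, Kn (f u i) b :=
  mono_all _ fun _ => mono_all _ fun _ => monoK _

theorem Kn.ite {f g : X n → P} {a : Pr n} (c : Prop) [Decidable c] (hf : c → Kn f a)
    (hg : ¬ c → Kn g a) : Kn (fun x => if c then f x else g x) a := by
  split_ifs with h
  · exact hf h
  · exact hg h

theorem tape_rec [Fintype P] (S : Tp n ι P) (I : Finset ι) (hI : 1 ≤ I.card) (p₀ : P)
    (St : ℕ → Pr n → Prop) (hSt : ∀ τ, Mono (St τ)) {C g N : ℕ} (hg : 4 ≤ g)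
    (hP : Fintype.card P ≤ g) (h0 : ∀ x, N ≤ S.H 0 x)
    (step : ∀ τ a, τ < N → St τ a → (∀ i ∈ I, Kn (fun x => S.tp τ (S.H τ x) i x) a) →
      Can a C fun b => St (τ + 1) b ∧ (∀ i ∈ I, Kn (fun x => S.tp (τ + 1) (S.H τ x) i x) b) ∧
        Kn (fun x => S.H (τ + 1) x + 1 - S.H τ x) b) (j : ℕ) :
    ∀ (τ : ℕ) (a : Pr n), τ + 2 ^ j ≤ N → St τ a → (∀ i < j, Kn (S.Bt (2 ^ i) τ) a) →
      (∀ u < 3 * 2 ^ j, ∀ i ∈ I, Kn (S.Win (2 ^ j) τ τ u i) a) →
      Can a (2 ^ j * (C + 11 * (I.card * (4 * g ^ 4)) * j)) fun b => St (τ + 2 ^ j) b ∧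
        (∀ i < j, Kn (S.Bt (2 ^ i) (τ + 2 ^ j)) b) ∧ Kn (S.Ov (2 ^ j) τ) b ∧
        ∀ u < 3 * 2 ^ j, ∀ i ∈ I, Kn (S.Win (2 ^ j) τ (τ + 2 ^ j) u i) b := by
  have hH : ∀ τ m x, τ + m ≤ N → m ≤ S.H τ x := fun τ m x h => by
    have h1 := (S.H_add 0 τ x).2
    have h2 := h0 x
    rw [zero_add] at h1
    omega
  induction j with
  | zero =>
    intro τ a hN h1 _ h3
    simp only [pow_zero, mul_one] at *
    have e : ∀ x, S.H τ x - 1 + 1 = S.H τ x := fun x => by have := hH τ 1 x hN; omega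
    refine (step τ a (by omega) h1 fun i hi => (h3 1 (by norm_num) i hi).congr fun x => by
      simp [Tp.Win, e]).weak (by simp) fun b hab hb =>
      ⟨hb.1, by simp, hb.2.2.congr fun x => by simp [Tp.Ov], fun u hu i hi => ?_⟩
    by_cases h : u = 1
    · exact (hb.2.1 i hi).congr fun x => by simp [Tp.Win, e, h]
    · refine ((h3 u hu i hi).mono hab).congr fun x => (S.loc _ _ _ _ ?_).symm
      have := e x
      simp only [Nat.div_one, mul_one]
      omega
  | succ j ih =>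
    intro τ a hN h1 h2 h3
    obtain ⟨m, hm⟩ : ∃ m, m = 2 ^ j := ⟨_, rfl⟩
    have hm0 : 0 < m := by rw [hm]; positivity
    have eM : 2 ^ (j + 1) = 2 * m := by rw [hm]; ring
    have ih1 := ih τ
    have ih2 := ih (τ + m)
    have hβ := h2 j (by omega)
    rw [eM] at hN h3 ⊢
    rw [← hm] at ih1 ih2 hβ
    clear ih eM
    rw [show τ + m + m = τ + 2 * m by ring] at ih2
    have hM : ∀ x, 2 * m ≤ S.H τ x := fun x => hH τ _ x hN
    have sB : ∀ x, S.Bt m τ x < 2 := fun x => Nat.mod_lt _ (by norm_num)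
    have sO : ∀ τ, Sm (S.Ov m τ) g := fun τ => (sm_lt (S.ov_lt hm0 τ)).mono (by omega)
    have sB' : Sm (S.Bt m τ) g := (sm_lt sB).mono (by omega)
    have sS : ∀ x, S.Bt m τ x + S.Ov m τ x < 4 := fun x => by
      have := sB x; have := S.ov_lt hm0 τ x; omega
    have c2 : 2 * (g * g) ≤ 4 * g ^ 4 := by nlinarith [Nat.mul_le_mul hg hg]
    obtain ⟨κ, hκ⟩ : ∃ κ, κ = 4 * g ^ 4 := ⟨_, rfl⟩
    have a1 : Can a (3 * m * (I.card * (4 * g ^ 4)))
        fun b => ∀ u < 3 * m, ∀ i ∈ I, Kn (S.Win m τ τ u i) b :=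
      Can.grid _ _ fun u hu i hi =>
        (can_sel4 (G := fun s x => if s < 2 then S.Win (2 * m) τ τ ((s + 1) * m + u) i x else p₀)
          hg hP p₀ hβ (fun x => by have := sB x; omega) fun s _ => Kn.ite _
            (fun hs => h3 _ (by nlinarith) i hi) fun _ => kn_const _ _).weak le_rfl
          fun b _ hb => hb.congr fun x => by
            simp only [sB x, if_true, Tp.Win, S.start1 hm0 (hM x), add_assoc]
    refine (a1.bind fun b hab hb =>
      (ih1 b (by omega) (hSt _ _ _ hab h1) (fun i hi => (h2 i (by omega)).mono hab) hb).bind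
        (d := 3 * (2 * m) * (I.card * (4 * g ^ 4)) + (4 * g ^ 4 + (3 * m * (I.card * (4 * g ^ 4)) +
          (m * (C + 11 * (I.card * (4 * g ^ 4)) * j) +
            (3 * (2 * m) * (I.card * (4 * g ^ 4)) + (4 * g ^ 4 + 4 * g ^ 4))))))
        fun c hbc hc => ?_).cost ?_
    · obtain ⟨c1, c2', c3', c4⟩ := hc
      have hac := hab.trans hbc
      have b1 : Can c (3 * (2 * m) * (I.card * (4 * g ^ 4)))
          fun e => ∀ u < 3 * (2 * m), ∀ i ∈ I, Kn (S.Win (2 * m) τ (τ + m) u i) e :=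
        Can.grid _ _ fun u hu i hi =>
          (can_sel4 (G := fun s x => if (s + 1) * m ≤ u ∧ u < (s + 1) * m + 3 * m then
            S.Win m τ (τ + m) (u - (s + 1) * m) i x else S.Win (2 * m) τ τ u i x) hg hP p₀
            (hβ.mono hac) (fun x => by have := sB x; omega) fun s _ => Kn.ite _
              (fun hs => c4 _ (by omega) i hi) fun _ => (h3 u hu i hi).mono hac).weak le_rfl
            fun e _ he => he.congr fun x =>
              (S.back hm0 (by have := hM x; omega) (S.start1 hm0 (hM x)) u i).symm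
      refine b1.bind fun e hce he => ?_
      have hae := hac.trans hce
      refine ((can_bin (hβ.mono hae) (c3'.mono hce) sB' (sO τ) fun u v => u + v).cost c2).bind
        fun e' hee' hs => ?_
      have hce' := hce.trans hee'
      have b2 : Can e' (3 * m * (I.card * (4 * g ^ 4)))
          fun b => ∀ u < 3 * m, ∀ i ∈ I, Kn (S.Win m (τ + m) (τ + m) u i) b :=
        Can.grid _ _ fun u hu i hi =>
          (can_sel4 (G := fun s => S.Win (2 * m) τ (τ + m) (s * m + u) i) hg hP p₀ hs sS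
            fun s hs => (he _ (by nlinarith) i hi).mono hee').weak le_rfl
            fun b _ hb => hb.congr fun x => by
              simp only [Tp.Win, S.start2 hm0 (hM x), add_assoc]
      refine b2.bind fun f hef hf => ?_
      have hcf := hce'.trans hef
      refine (ih2 f (by omega) (hSt _ _ _ hcf c1) (fun i hi => (c2' i hi).mono hcf) hf).bind
        fun k hfk hk => ?_
      obtain ⟨k1, k2, k3, k4⟩ := hk
      have hs' := hs.mono (hef.trans hfk)
      have b3 : Can k (3 * (2 * m) * (I.card * (4 * g ^ 4)))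
          fun e => ∀ u < 3 * (2 * m), ∀ i ∈ I, Kn (S.Win (2 * m) τ (τ + 2 * m) u i) e :=
        Can.grid _ _ fun u hu i hi =>
          (can_sel4 (G := fun s x => if s * m ≤ u ∧ u < s * m + 3 * m then
            S.Win m (τ + m) (τ + 2 * m) (u - s * m) i x else S.Win (2 * m) τ (τ + m) u i x) hg hP p₀
            hs' sS fun s _ => Kn.ite _ (fun hs => k4 _ (by omega) i hi)
              fun _ => (he u hu i hi).mono (hee'.trans (hef.trans hfk))).weak le_rfl
            fun e _ he => he.congr fun x => by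
              have := S.back hm0 (hH (τ + m) m x (by omega)) (S.start2 hm0 (hM x)) u i
              rw [show τ + m + m = τ + 2 * m by ring] at this
              exact this.symm
      refine (b3.and (mono_grid _ _ _)
        (((can_bin hs' k3 ((sm_lt sS).mono hg) (sO _) fun u v => (u + v) % 2).cost c2).and
        (monoK _) ((can_bin hs' k3 ((sm_lt sS).mono hg) (sO _) fun u v => (u + v) / 2).cost c2))).weak
        le_rfl fun l hkl hl => ⟨hSt _ _ _ hkl k1, fun i hi => ?_,
          hl.2.2.congr fun x => (S.bt2 hm0 (hM x)).2.symm, hl.1⟩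
      rcases Nat.lt_succ_iff_lt_or_eq.1 hi with h | rfl
      · exact (k2 i h).mono hkl
      · rw [← hm]
        exact hl.2.1.congr fun x => (S.bt2 hm0 (hM x)).1.symm
    · rw [← hκ]
      have e1 : κ ≤ m * (I.card * κ) := by
        rw [← mul_assoc]; exact Nat.le_mul_of_pos_left _ (Nat.mul_pos hm0 hI)
      generalize I.card * κ = E at *
      nlinarith

/-- Oblivious simulation of one tape. -/
theorem tape_main [Fintype P] (S : Tp n ι P) (I : Finset ι) (hI : 1 ≤ I.card) (p₀ : P)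
    (St : ℕ → Pr n → Prop) (hSt : ∀ τ, Mono (St τ)) {C g J : ℕ} (hg : 4 ≤ g)
    (hP : Fintype.card P ≤ g) (h0 : ∀ x, S.H 0 x = 2 ^ J)
    (step : ∀ τ a, τ < 2 ^ J → St τ a → (∀ i ∈ I, Kn (fun x => S.tp τ (S.H τ x) i x) a) →
      Can a C fun b => St (τ + 1) b ∧ (∀ i ∈ I, Kn (fun x => S.tp (τ + 1) (S.H τ x) i x) b) ∧
        Kn (fun x => S.H (τ + 1) x + 1 - S.H τ x) b) (a : Pr n) (h : St 0 a)
    (ht : ∀ p, ∀ i ∈ I, Kn (S.tp 0 p i) a) :
    Can a (2 ^ J * (C + 11 * (I.card * (4 * g ^ 4)) * J)) (St (2 ^ J)) := by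
  have := tape_rec S I hI p₀ St hSt hg hP (fun x => (h0 x).ge) step J 0 a (by simp) h
    (fun i _ => Kn.of_const (2 ^ J / 2 ^ i % 2) a fun x => by simp [Tp.Bt, h0])
    (fun u _ i hi => (ht u i hi).congr fun x => by simp [Tp.Win, h0])
  exact this.weak le_rfl fun b _ hb => by simpa using hb.1

/-- Several small values form one value. -/
theorem can_tuple [Fintype P] {a : Pr n} {f : ι → X n → P} {g : ℕ} (hg : 1 ≤ g)
    (hP : Fintype.card P ≤ g) (p₀ : P) (I : Finset ι) (h : ∀ i ∈ I, Kn (f i) a) :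
    Can a (I.card * (2 * g ^ I.card)) (Kn fun x i => if i ∈ I then f i x else p₀) ∧
      Sm (fun x i => if i ∈ I then f i x else p₀) (g ^ I.card) := by
  induction I using Finset.induction_on with
  | empty =>
    exact ⟨(Can.now (monoK _) (Kn.of_const (fun _ => p₀) a fun x => by simp)).cost (by simp),
      {fun _ => p₀}, by simp, fun x => by simp⟩
  | insert i I hi ih =>
    obtain ⟨h1, h2⟩ := ih fun j hj => h j (Finset.mem_insert_of_mem hj)
    have e : ∀ x, Function.update (fun j => if j ∈ I then f j x else p₀) i (f i x) =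
        fun j => if j ∈ insert i I then f j x else p₀ := fun x => by
      funext j
      by_cases hj : j = i
      · subst hj; simp
      · simp [hj]
    have s1 : Sm (f i) g := (sm_fin _).mono hP
    rw [Finset.card_insert_of_notMem hi]
    refine ⟨(h1.bind fun b hab hb => can_bin hb ((h i (Finset.mem_insert_self _ _)).mono hab) h2 s1
      fun v p => Function.update v i p).weak ?_ fun b _ hb => hb.congr e, ?_⟩
    · rw [pow_succ]
      nlinarith [Nat.mul_le_mul_left (I.card * (2 * g ^ I.card)) hg]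
    · have := h2.bin s1 fun v p => Function.update v i p
      rwa [funext e] at this

end Pool.Agent.MP_89e1e6_lc
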