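import Pool.Agent.MP_89e1e6_lc.Fast
import Pool.Agent.MP_89e1e6_lc.Tape
import Pool.Agent.MP_89e1e6_lc.Cost

set_option autoImplicit false
set_option linter.unusedSectionVars false

namespace Pool.Agent.MP_89e1e6_lc

open Classical

namespace OneTape

variable {Q Γ : Type} [Fintype Q] [Fintype Γ] (M : OneTape Q Γ) (c W K : ℕ)

noncomputable def short (Q : Type) [Fintype Q] (K : ℕ) : Finset (List Q) :=
  (Finset.range (K + 2)).biUnion (lists Q)

theorem mem_short {l : List Q} : l ∈ short Q K ↔ l.length ≤ K + 1 := by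
  simp [short, mem_lists, Nat.lt_succ_iff]

theorem card_short {e : ℕ} (he : Fintype.card Q + 1 ≤ e) : (short Q K).card ≤ (K + 2) * e ^ (K + 1) := by
  refine (Finset.card_biUnion_le_card_mul _ _ (e ^ (K + 1)) fun j hj => ?_).trans (by simp)
  have := Finset.mem_range.1 hj
  exact (card_lists Q j).trans ((Nat.pow_le_pow_left (by omega) _).trans
    (Nat.pow_le_pow_right (by omega) (by omega)))

def GT (O : List Q → Option Q) : Prop := ∀ σ, K < σ.length → O σ = none
def GC (d : Cell Q Γ) : Prop := d.u.length = W ∧ d.h.length ≤ K ∧ GT K d.O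
def GK (k : Ctl Q) : Prop :=
  k.s.length ≤ K + 1 ∧ (∀ ρ, k.e = some ρ → ρ.length ≤ K + 1) ∧ GT K k.O

theorem gt_nO (d : Cell Q Γ) : GT K (M.nO c W K d) := fun σ h => if_pos (by simp; omega)

variable {W K}

theorem mst_good (hW : 1 ≤ W) (F : ℕ) {k : Ctl Q} {d : Cell Q Γ} (hk : GK K k) (hd : GC W K d) :
    GK K (M.mst c W K F k d).1 ∧ GC W K (M.mst c W K F k d).2.1 ∧ (M.mst c W K F k d).2.2 ≤ 2 ∧
      (M.mst c W K F k d).2.1.f = d.f := by
  unfold mst
  by_cases h0 : M.halt k.q ≠ none
  · rw [if_pos h0]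
    exact ⟨hk, hd, by simp, rfl⟩
  rw [if_neg h0]
  by_cases h1 : k.md = none
  · rw [if_pos h1]
    refine ⟨⟨by simp, fun ρ hρ => ?_, hk.2.2⟩, ⟨rs_len hW _ _ hd.1, hd.2⟩, ?_, rfl⟩
    · obtain ⟨ρ', -, rfl⟩ := Option.map_eq_some_iff.1 hρ
      simp
    · dsimp only
      split_ifs <;> omega
  rw [if_neg h1]
  by_cases h2 : k.md = some true
  · rw [if_pos h2]
    by_cases h3 : d.z = true ∧ k.e = none
    · rw [if_pos h3]
      exact ⟨⟨by simp, by simp, M.gt_nO c _ _ _⟩, ⟨hd.1, by simp, hd.2.2⟩, by simp, rfl⟩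
    · rw [if_neg h3]
      refine ⟨⟨by simp, fun ρ hρ => ?_, hk.2.2⟩, ⟨M.app_len c W _ hd.1 _, by simp, hd.2.2⟩, le_rfl, rfl⟩
      obtain ⟨ρ', -, e2⟩ := Option.bind_eq_some_iff.1 hρ
      split_ifs at e2
      obtain rfl : _ = ρ := by simpa using e2
      simp
  · rw [if_neg h2]
    refine ⟨⟨hk.1, hk.2.1, M.gt_nO c _ _ _⟩, ⟨hd.1, hd.2.1, hk.2.2⟩, ?_, rfl⟩
    dsimp only
    split_ifs <;> omega

theorem sm_ctl {n : ℕ} {f : X n → Ctl Q} (h : ∀ x, GK K (f x)) : Sm f (Fintype.card
    (Option Bool × Q × short Q K × Option (short Q K) × (short Q K → Option Q))) := by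
  refine ⟨Finset.univ.image
    fun a : Option Bool × Q × short Q K × Option (short Q K) × (short Q K → Option Q) =>
      ⟨a.1, a.2.1, a.2.2.1, a.2.2.2.1.map Subtype.val,
        fun σ => if h : σ ∈ short Q K then a.2.2.2.2 ⟨σ, h⟩ else none⟩,
    Finset.card_image_le, fun x => Finset.mem_image.2 ?_⟩
  obtain ⟨h1, h2, h3⟩ := h x
  generalize f x = k at *
  obtain ⟨md, q, s, e, O⟩ := k
  have hO : (fun σ => if σ ∈ short Q K then O σ else none) = O := funext fun σ => by
    split_ifs with h
    · rfl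
    · exact (h3 σ (by rw [mem_short] at h; omega)).symm
  cases e with
  | none => exact ⟨(md, q, ⟨s, (mem_short K).2 h1⟩, none, fun σ => O σ), Finset.mem_univ _, by simp [hO]⟩
  | some ρ =>
    exact ⟨(md, q, ⟨s, (mem_short K).2 h1⟩, some ⟨ρ, (mem_short K).2 (h2 ρ rfl)⟩, fun σ => O σ),
      Finset.mem_univ _, by simp [hO]⟩

def comp (d : Cell Q Γ) : ℕ ⊕ List Q → Option Γ × Option Q × Bool × Bool
  | .inl j => (d.u[j]?, d.h[j]?, d.z, d.f)
  | .inr σ => (none, d.O σ, false, false)

noncomputable def idx (Q : Type) [Fintype Q] (W K : ℕ) : Finset (ℕ ⊕ List Q) :=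
  (Finset.range W).disjSum (short Q K)

theorem comp_inj (hK : K < W) {d d' : Cell Q Γ} (h : GC W K d) (h' : GC W K d')
    (e : ∀ i ∈ idx Q W K, comp d i = comp d' i) : d = d' := by
  have e1 : ∀ j < W, comp d (.inl j) = comp d' (.inl j) := fun j hj => e _ (by simpa [idx] using hj)
  have e2 := e1 0 (by omega)
  obtain ⟨h1, h2, h3⟩ := h
  obtain ⟨h4, h5, h6⟩ := h'
  obtain ⟨u, O, l, z, f⟩ := d
  obtain ⟨u', O', l', z', f'⟩ := d'
  simp only [comp, Prod.mk.injEq, Cell.mk.injEq] at *
  refine ⟨List.ext_getElem? fun j => ?_, funext fun σ => ?_, List.ext_getElem? fun j => ?_,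
    e2.2.2⟩
  · rcases lt_or_ge j W with h | h
    · exact (e1 j h).1
    · rw [List.getElem?_eq_none (by omega), List.getElem?_eq_none (by omega)]
  · rcases le_or_gt σ.length K with h | h
    · simpa using e (.inr σ) (by simp [idx, mem_short]; omega)
    · rw [h3 σ h, h6 σ h]
  · rcases lt_or_ge j W with h | h
    · exact (e1 j h).2.1
    · rw [List.getElem?_eq_none (by omega), List.getElem?_eq_none (by omega)]

/-- A cell is known as a whole once its components are. -/
theorem can_cell (hK : K < W) {n g : ℕ} (hg : 1 ≤ g)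
    (hP : Fintype.card (Option Γ × Option Q × Bool × Bool) ≤ g) {a : Pr n} {f : X n → Cell Q Γ}
    (hf : ∀ x, GC W K (f x)) (h : ∀ i ∈ idx Q W K, Kn (fun x => comp (f x) i) a) :
    Can a (((idx Q W K).card + 1) * (2 * g ^ (idx Q W K).card)) (Kn f) ∧
      Sm f (g ^ (idx Q W K).card) := by
  obtain ⟨h1, h2⟩ := can_tuple hg hP (none, none, false, false) _ h
  let D : (ℕ ⊕ List Q → Option Γ × Option Q × Bool × Bool) → Cell Q Γ := fun v =>
    if h : ∃ d, GC W K d ∧ ∀ i ∈ idx Q W K, comp d i = v i then h.choose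
    else ⟨[], fun _ => none, [], false, false⟩
  have e : ∀ x v, (∀ i ∈ idx Q W K, comp (f x) i = v i) → D v = f x := fun x v hv => by
    have h3 : ∃ d, GC W K d ∧ ∀ i ∈ idx Q W K, comp d i = v i := ⟨f x, hf x, hv⟩
    exact (dif_pos h3).trans (comp_inj hK h3.choose_spec.1 (hf x) fun i hi =>
      (h3.choose_spec.2 i hi).trans (hv i hi).symm)
  refine ⟨(h1.bind fun b _ hb => can_un hb h2 D).weak (by rw [add_mul, one_mul])
    fun b _ hb => hb.congr fun x => e x _ fun i hi => by simp [hi], ?_⟩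
  obtain ⟨R, r1, r2⟩ := h2.bin (sm_fin fun _ => ()) fun v _ => D v
  refine ⟨R, by simpa using r1, fun x => ?_⟩
  have := r2 x
  beta_reduce at this
  rwa [e x _ fun i hi => by simp [hi]] at this

variable (W K)

def ub (x : List Bool) (i : ℕ) : List Γ := (List.range W).map fun j => M.tp x 0 (i * W + j)

noncomputable def iO (x : List Bool) : ℕ → ℕ → List Q → Option Q
  | 0, _ => fun _ => none
  | m + 1, i => M.nO c W K ⟨M.ub W x i, iO x m (i + 1), [], false, false⟩

noncomputable def ini (T : ℕ) (x : List Bool) (i : ℕ) : Cell Q Γ :=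
  ⟨M.ub W x i, M.iO c W K x (2 * T + 1 - i) (i + 1), [], decide (∃ r, i = 2 ^ r), decide (i = 0)⟩

noncomputable def sta (T F : ℕ) (x : List Bool) (s : ℕ) : Ctl Q × ℕ × (ℕ → Cell Q Γ) :=
  (M.fst c W K F)^[s] (⟨none, M.start, [], none, fun _ => none⟩, 0, M.ini c W K T x)

theorem sta_succ (T F : ℕ) (x : List Bool) (s : ℕ) :
    M.sta c W K T F x (s + 1) = M.fst c W K F (M.sta c W K T F x s) :=
  Function.iterate_succ_apply' _ _ _

theorem ini_O {T i : ℕ} (x : List Bool) (h : i ≤ 2 * T) :
    (M.ini c W K T x i).O = M.nO c W K (M.ini c W K T x (i + 1)) := by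
  simp only [ini]
  rw [show 2 * T + 1 - i = 2 * T + 1 - (i + 1) + 1 by omega]
  rfl

theorem ub_ag (x : List Bool) (i : ℕ) : M.Ag (M.tp x 0) (i * W) W (M.ub W x i) := fun j hj => by
  simp [ub, hj]

theorem ini_rp (T : ℕ) (x : List Bool) (L : ℕ → ℕ) (m : ℕ) : ∀ i, i + m ≤ 2 * T + 1 →
    M.Rp c W K (M.ini c W K T x) (M.tp x 0) L m i [] := by
  induction m with
  | zero => exact fun _ _ => trivial
  | succ m ih =>
    exact fun i h => ⟨by simp [ini, app], M.ub_ag W x i, by simp [ini], by simp [ini],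
      M.ini_O c W K x (by omega), ih (i + 1) (by omega)⟩

variable {M c W K}

theorem sta_q {x : List Bool} {T k₀ s : ℕ} (hc : M.Visits c) (hT : M.halt (M.st x T) ≠ none)
    (hW : 1 ≤ W) (hk : 1 ≤ k₀) (hs : 11 * T ≤ k₀ * W * s) :
    (M.sta c W (c * k₀) T (k₀ * W) x s).1.q = M.st x T := by
  refine Inv.time (c := c) hT hW hk hs ?_
  clear hs
  induction s with
  | zero =>
    refine ⟨0, rfl, Or.inr ⟨fun _ => 0, rfl, fun i => by simp [sta, ini], by simp,
      Or.inl ⟨rfl, rfl, fun j _ => ⟨M.ub_ag W x j, rfl⟩, M.ini_O c W _ x (by omega),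
        M.ini_rp c W _ T x _ _ _ (by omega), by simp [Phi]⟩⟩⟩
  | succ s ih =>
    rw [sta_succ]
    exact ih.step hc hT hW hk

theorem ini_good (T : ℕ) (x : List Bool) (i : ℕ) : GC W K (M.ini c W K T x i) := by
  refine ⟨by simp [ini, ub], by simp [ini], ?_⟩
  simp only [ini]
  cases 2 * T + 1 - i with
  | zero => exact fun _ _ => rfl
  | succ m => exact M.gt_nO c _ _ _

theorem sta_good (hW : 1 ≤ W) (T F : ℕ) (x : List Bool) (s : ℕ) : GK K (M.sta c W K T F x s).1 ∧
    ∀ i, GC W K ((M.sta c W K T F x s).2.2 i) ∧ (((M.sta c W K T F x s).2.2 i).f = true ↔ i = 0) := by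
  induction s with
  | zero => exact ⟨⟨by simp [sta], by simp [sta], fun _ _ => rfl⟩,
      fun i => ⟨ini_good T x i, by simp [sta, ini]⟩⟩
  | succ s ih =>
    rw [sta_succ]
    obtain ⟨h1, h2, -, h4⟩ := M.mst_good c hW F ih.1 (ih.2 (M.sta c W K T F x s).2.1).1
    refine ⟨h1, fun i => ?_⟩
    by_cases hi : i = (M.sta c W K T F x s).2.1
    · simp only [fst]
      rw [hi, Function.update_self, h4]
      exact ⟨h2, (ih.2 _).2⟩
    · simp only [fst]
      rw [Function.update_of_ne hi]
      exact ih.2 i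

theorem ini_const (hW : 1 ≤ W) {n : ℕ} (T : ℕ) (x y : X n) {i : ℕ} (hi : n ≤ i) :
    M.ini c W K T x.1 i = M.ini c W K T y.1 i := by
  have h1 : ∀ i, n ≤ i → M.ub W x.1 i = M.ub W y.1 i := fun i hi => by
    refine List.map_congr_left fun j _ => ?_
    have : n ≤ i * W + j := by nlinarith
    change (x.1.map M.inp).getD _ _ = (y.1.map M.inp).getD _ _
    rw [List.getD_eq_default _ _ (by simpa [x.2]), List.getD_eq_default _ _ (by simpa [y.2])]
  have h2 : ∀ m i, n ≤ i → M.iO c W K x.1 m i = M.iO c W K y.1 m i := fun m => by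
    induction m with
    | zero => exact fun _ _ => rfl
    | succ m ih => exact fun i hi => by rw [iO, iO, h1 i hi, ih _ (by omega)]
  rw [ini, ini, h1 i hi, h2 _ _ (by omega)]

theorem can_ini (hK : K < W) {n g T E : ℕ} (hn : n ≤ T) (hg : 4 ≤ g)
    (hP : Fintype.card (Option Γ × Option Q × Bool × Bool) ≤ g) (h1 : (idx Q W K).card + 3 ≤ E)
    (h2 : g ^ (idx Q W K).card ≤ E) (a : Pr n) (d : ℕ) (hd : d ≤ n) : Can a (d * (4 * E ^ 3))
      fun b => ∀ j, n ≤ j + d → ∀ i ∈ idx Q W K, Kn (fun x => comp (M.ini c W K T x.1 j) i) b := by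
  induction d with
  | zero =>
    refine (Can.now (P := fun _ => True) (fun _ _ _ _ => trivial) trivial).weak (by simp)
      fun b _ _ j hj i _ => Kn.of_const (comp (M.ini c W K T (List.replicate n false) j) i) b
        fun x => by rw [ini_const (by omega) T x ⟨List.replicate n false, by simp⟩ (show n ≤ j from hj)]
  | succ d ih =>
    rw [add_mul, one_mul]
    refine (ih (by omega)).bind fun b _ hb => ?_
    obtain ⟨j, hj⟩ : ∃ j, n = j + d + 1 := ⟨n - d - 1, by omega⟩
    obtain ⟨k1, k2⟩ := can_cell hK (by omega) hP (fun x : X n => ini_good T x.1 (j + 1))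
      (hb (j + 1) (by omega))
    refine (k1.bind fun e hbe he => Can.all (c := 2 * E) (idx Q W K)
      (P := fun i => Kn fun x => comp (M.ini c W K T x.1 j) i) (fun _ => monoK _) fun i hi => ?_).weak
      ?_ fun e hbe he j' hj' i hi => ?_
    · cases i with
      | inl l =>
        have hl : l < W := by simpa [idx] using hi
        rcases lt_or_ge (j * W + l) n with h | h
        · refine ((can_inp e h).bind fun e' _ h' => can_un h' (sm_fin _) fun v =>
            ((some (M.inp v), none, decide (∃ r, j = 2 ^ r), decide (j = 0)) :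
              Option Γ × Option Q × Bool × Bool)).weak (by simp; omega) fun _ _ h' => h'.congr fun x => ?_
          have : j * W + l < x.1.length := by rw [x.2]; exact h
          simp [comp, ini, ub, hl, tp, run, List.getElem?_eq_getElem this]
        · refine (Can.now (monoK _) (Kn.of_const
            (some M.blank, none, decide (∃ r, j = 2 ^ r), decide (j = 0)) e fun x => ?_)).cost (by omega)
          have : x.1.length ≤ j * W + l := by rw [x.2]; exact h
          simp [comp, ini, ub, hl, tp, run, List.getElem?_eq_none this]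
      | inr σ =>
        refine (can_un he k2 fun d => ((none, M.nO c W K d σ, false, false) :
          Option Γ × Option Q × Bool × Bool)).weak (by omega) fun _ _ h' => h'.congr fun x => ?_
        rw [comp, M.ini_O c W K x.1 (by omega)]
    · have := Nat.mul_le_mul (show (idx Q W K).card + 1 ≤ E by omega) (Nat.mul_le_mul_left 2 h2)
      have := Nat.mul_le_mul_right (2 * E) (show (idx Q W K).card ≤ E by omega)
      have := Nat.mul_le_mul_left (E * E) (show 1 ≤ E by omega)
      nlinarith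
    · rcases le_or_gt n (j' + d) with h | h
      · exact (hb j' h i hi).mono hbe
      · obtain rfl : j' = j := by omega
        exact he i hi

variable (M c W K)

noncomputable def tape (hW : 1 ≤ W) (n T F J : ℕ) :
    Tp n (ℕ ⊕ List Q) (Option Γ × Option Q × Bool × Bool) where
  tp τ p i x := if p < 2 ^ J then (none, none, false, false) else
    comp ((M.sta c W K T F x.1 τ).2.2 (p - 2 ^ J)) i
  H τ x := 2 ^ J + (M.sta c W K T F x.1 τ).2.1
  hs τ x := by
    have h := sta_good (M := M) (c := c) (K := K) hW T F x.1 τ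
    have := (M.mst_good c hW F h.1 (h.2 (M.sta c W K T F x.1 τ).2.1).1).2.2.1
    rw [sta_succ, fst]
    dsimp only
    omega
  loc τ p i x h := by
    split_ifs with h1
    · rfl
    · rw [sta_succ, fst]
      dsimp only
      rw [Function.update_of_ne (by omega)]

variable {M c W K}

theorem can_run (hK : K < W) {n g T E F J : ℕ} (hn : n ≤ T) (hg : 4 ≤ g)
    (hP : Fintype.card (Option Γ × Option Q × Bool × Bool) ≤ g) (h1 : (idx Q W K).card + 3 ≤ E)
    (h2 : g ^ (idx Q W K).card ≤ E) (h3 : Fintype.card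
      (Option Bool × Q × short Q K × Option (short Q K) × (short Q K → Option Q)) ≤ E) (a : Pr n) :
    Can a (n * (4 * E ^ 3) + (2 ^ J * (4 * E ^ 3 + 11 * ((idx Q W K).card * (4 * g ^ 4)) * J) + 2 * E))
      (Kn fun x => M.halt (M.sta c W K T F x.1 (2 ^ J)).1.q) := by
  have hW : 1 ≤ W := by omega
  have sk : ∀ τ, Sm (fun x : X n => (M.sta c W K T F x.1 τ).1) E := fun τ =>
    (sm_ctl fun x => (sta_good hW T F x.1 τ).1).mono h3
  refine (can_ini (M := M) (c := c) hK hn hg hP h1 h2 a n le_rfl).bind fun b _ hb =>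
    (tape_main (M.tape c W K hW n T F J) (idx Q W K) (by simp [idx]; omega) (none, none, false, false)
      (fun τ => Kn fun x => (M.sta c W K T F x.1 τ).1) (fun _ => monoK _) hg hP (fun _ => rfl)
      (fun τ a _ hk hd => ?_) b (kn_const _ _) fun p i hi => ?_).bind
      fun e _ he => can_un he (sk _) fun k => M.halt k.q
  · have gd := fun x : X n => (sta_good (M := M) (c := c) (K := K) hW T F x.1 τ).2
      (M.sta c W K T F x.1 τ).2.1
    obtain ⟨k1, k2⟩ := can_cell hK (by omega) hP (fun x => (gd x).1)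
      fun i hi => (hd i hi).congr fun x => by simp [tape]
    refine (k1.bind fun e hae he =>
      (can_bin (hk.mono hae) he (sk τ) (k2.mono h2) fun k d => (M.mst c W K F k d).1).and (monoK _)
      ((Can.all (idx Q W K) (fun _ => monoK _) fun i _ => can_bin (hk.mono hae) he (sk τ)
        (k2.mono h2) fun k d => comp (M.mst c W K F k d).2.1 i).and (mono_all _ fun _ => monoK _)
      (can_bin (hk.mono hae) he (sk τ) (k2.mono h2) fun k d =>
        if d.f then max (M.mst c W K F k d).2.2 1 else (M.mst c W K F k d).2.2))).weak ?_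
      fun e _ he => ⟨he.1.congr fun x => by rw [sta_succ]; rfl, fun i hi => (he.2.1 i hi).congr
        fun x => by simp [tape, sta_succ, fst], he.2.2.congr fun x => ?_⟩
    · have := Nat.mul_le_mul (show (idx Q W K).card + 1 ≤ E by omega) (Nat.mul_le_mul_left 2 h2)
      have := Nat.mul_le_mul_right (2 * (E * E)) h1
      have := Nat.mul_le_mul_left (E * E) (show 1 ≤ E by omega)
      nlinarith
    · have := (gd x).2
      simp only [tape, sta_succ, fst]
      split_ifs with h
      · have := this.1 h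
        omega
      · have : (M.sta c W K T F x.1 τ).2.1 ≠ 0 := fun h' => h (this.2 h')
        omega
  · exact Kn.ite _ (fun _ => kn_const _ _) fun _ => hb _ (by omega) i hi

end OneTape

end Pool.Agent.MP_89e1e6_lc
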