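import Mathlib

set_option autoImplicit false

namespace Pool.Agent.MP_89e1e6_lc

/-- A gate; its arguments are numbers of wires. -/
inductive Gate where
  | and (i j : ℕ)
  | or (i j : ℕ)
  | not (i : ℕ)

/-- All arguments of the gate are wires with number below `m`. -/
def Gate.Below (m : ℕ) : Gate → Prop
  | .and i j => i < m ∧ j < m
  | .or i j => i < m ∧ j < m
  | .not i => i < m

/-- The value of a gate when the wires carry the values `w`. -/
def Gate.eval (w : List Bool) : Gate → Bool
  | .and i j => w.getD i false && w.getD j false
  | .or i j => w.getD i false || w.getD j false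
  | .not i => !w.getD i false

/-- A Boolean circuit on `n` inputs. Wires `0, …, n-1` are the inputs, wire `n + k` is the output
of gate number `k`, which reads only earlier wires; `out` is the output wire. -/
structure Circuit (n : ℕ) where
  gates : List Gate
  out : ℕ
  acyclic : ∀ (k : ℕ) (h : k < gates.length), gates[k].Below (n + k)
  out_lt : out < n + gates.length

/-- The value of the output wire on input `x`. -/
def Circuit.eval {n : ℕ} (C : Circuit n) (x : List Bool) : Bool :=
  (C.gates.foldl (fun w g => w ++ [g.eval w]) x).getD C.out false

/-- A clockwise Turing machine with states `Q` and tape alphabet `Γ`: one circular tape; in each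
step the scanned cell is replaced by a nonempty word and the head moves on to the next old cell. -/
structure Clockwise (Q Γ : Type) where
  start : Q
  inp : Bool → Γ
  mark : Γ
  next : Q → Γ → Q
  write : Q → Γ → List Γ
  write_ne : ∀ q a, write q a ≠ []
  halt : Q → Option Bool

/-- One step. The tape is listed clockwise from the scanned cell on. -/
def Clockwise.step {Q Γ : Type} (M : Clockwise Q Γ) : Q × List Γ → Q × List Γ
  | (q, []) => (q, [])
  | (q, a :: w) => if (M.halt q).isSome then (q, a :: w) else (M.next q a, w ++ M.write q a)

/-- On every input `x` the machine, started on the tape `x` followed by the end mark, is after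
`T |x|` steps in a halting state, and that state accepts exactly when `x ∈ L`. -/
def Clockwise.Decides {Q Γ : Type} (M : Clockwise Q Γ) (L : Set (List Bool)) (T : ℕ → ℕ) : Prop :=
  ∀ x : List Bool, ∃ b : Bool,
    M.halt (M.step^[T x.length] (M.start, x.map M.inp ++ [M.mark])).1 = some b ∧
      (b = true ↔ x ∈ L)

end Pool.Agent.MP_89e1e6_lc
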