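import Pool.Agent.MP_89e1e6_lc.Defs

set_option autoImplicit false

namespace Pool.Agent.MP_89e1e6_lc

/-- A one-tape Turing machine with states `Q` and tape alphabet `Γ` on the cells `0, 1, 2, …`. -/
structure OneTape (Q Γ : Type) where
  start : Q
  blank : Γ
  inp : Bool → Γ
  next : Q → Γ → Q
  write : Q → Γ → Γ
  right : Q → Γ → Bool
  halt : Q → Option Bool

/-- One step on (state, head position, tape); a left move on cell `0` stays on cell `0`. -/
def OneTape.step {Q Γ : Type} (M : OneTape Q Γ) : Q × ℕ × (ℕ → Γ) → Q × ℕ × (ℕ → Γ)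
  | (q, p, τ) => if (M.halt q).isSome then (q, p, τ) else
      (M.next q (τ p), if M.right q (τ p) then p + 1 else p - 1,
        Function.update τ p (M.write q (τ p)))

/-- The configuration after `t` steps on input `x`. -/
def OneTape.run {Q Γ : Type} (M : OneTape Q Γ) (x : List Bool) (t : ℕ) : Q × ℕ × (ℕ → Γ) :=
  M.step^[t] (M.start, 0, fun i => (x.map M.inp).getD i M.blank)

/-- After `T |x|` steps the state is halting, and it accepts exactly when `x ∈ L`. -/
def OneTape.Decides {Q Γ : Type} (M : OneTape Q Γ) (L : Set (List Bool)) (T : ℕ → ℕ) : Prop :=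
  ∀ x : List Bool, ∃ b : Bool, M.halt (M.run x (T x.length)).1 = some b ∧ (b = true ↔ x ∈ L)

/-- In every time interval in which the machine has not halted and does not scan cell `0`, each
cell is scanned at most `c` times. -/
def OneTape.Visits {Q Γ : Type} (M : OneTape Q Γ) (c : ℕ) : Prop :=
  ∀ (x : List Bool) (a b p : ℕ),
    (∀ t, a ≤ t → t < b → (M.run x t).2.1 ≠ 0 ∧ M.halt (M.run x t).1 = none) →
    ((Finset.Ico a b).filter fun t => (M.run x t).2.1 = p).card ≤ c

end Pool.Agent.MP_89e1e6_lc
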