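import Pool.Agent.MP_89e1e6_lc.Defs2

set_option autoImplicit false

namespace Pool.Agent.MP_89e1e6_lc

open Classical

namespace OneTape

variable {Q Γ S : Type} (M : OneTape Q Γ) (c : ℕ) (x : List Bool)

def st (t : ℕ) : Q := (M.run x t).1
def ps (t : ℕ) : ℕ := (M.run x t).2.1
def tp (t : ℕ) : ℕ → Γ := (M.run x t).2.2

theorem run_succ (t : ℕ) : M.run x (t + 1) = M.step (M.st x t, M.ps x t, M.tp x t) :=
  Function.iterate_succ_apply' _ _ _

variable {M x}

theorem go {t : ℕ} (h : M.halt (M.st x t) = none) :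
    M.st x (t + 1) = M.next (M.st x t) (M.tp x t (M.ps x t)) ∧
    M.ps x (t + 1) = (if M.right (M.st x t) (M.tp x t (M.ps x t)) then M.ps x t + 1
      else M.ps x t - 1) ∧
    M.tp x (t + 1) (M.ps x t) = M.write (M.st x t) (M.tp x t (M.ps x t)) := by
  have e := M.run_succ x t
  simp only [step, h, Option.isSome_none, Bool.false_eq_true, if_false] at e
  refine ⟨congrArg Prod.fst e, congrArg (fun z => z.2.1) e, ?_⟩
  have : M.tp x (t + 1) = _ := congrArg (fun z => z.2.2) e
  rw [this]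
  exact Function.update_self _ _ _

theorem tp_succ {t i : ℕ} (h : i ≠ M.ps x t) : M.tp x (t + 1) i = M.tp x t i := by
  change (M.run x (t + 1)).2.2 i = _
  rw [run_succ, step]
  split_ifs
  · rfl
  · exact Function.update_of_ne h _ _
  · exact Function.update_of_ne h _ _

theorem ps_add (t s : ℕ) : M.ps x (t + s) ≤ M.ps x t + s := by
  induction s with
  | zero => simp
  | succ s ih =>
    have : M.ps x (t + s + 1) ≤ M.ps x (t + s) + 1 := by
      change (M.run x (t + s + 1)).2.1 ≤ _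
      rw [run_succ, step]
      split_ifs <;> simp only <;> omega
    rw [← add_assoc]
    omega

theorem st_add {t : ℕ} (h : M.halt (M.st x t) ≠ none) (s : ℕ) : M.st x (t + s) = M.st x t := by
  induction s with
  | zero => rfl
  | succ s ih =>
    change (M.run x (t + s + 1)).1 = _
    rw [run_succ, step, ih, if_pos (Option.isSome_iff_ne_none.2 h)]

theorem lt_of_go {t T : ℕ} (hT : M.halt (M.st x T) ≠ none) (h : M.halt (M.st x t) = none) :
    t < T := by
  by_contra h'
  obtain ⟨s, rfl⟩ := Nat.exists_eq_add_of_le (not_lt.1 h')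
  exact hT (st_add hT s ▸ h)

variable (M x)

def Gd (a t : ℕ) : Prop :=
  a ≤ t ∧ ∀ s, a ≤ s → s < t → M.ps x s ≠ 0 ∧ M.halt (M.st x s) = none

def cnt (a p t : ℕ) : ℕ := ((Finset.Ico a t).filter fun s => M.ps x s = p).card

variable {M x c}

theorem cnt_mono (a p : ℕ) {t t' : ℕ} (h : t ≤ t') : M.cnt x a p t ≤ M.cnt x a p t' :=
  Finset.card_le_card (Finset.filter_subset_filter _ (Finset.Ico_subset_Ico_right h))

theorem cnt_succ {a p t : ℕ} (h : a ≤ t) (hp : M.ps x t = p) :
    M.cnt x a p (t + 1) = M.cnt x a p t + 1 := by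
  unfold cnt
  rw [← Finset.insert_Ico_right_eq_Ico_add_one h, Finset.filter_insert, if_pos hp,
    Finset.card_insert_of_notMem (by simp)]

theorem Gd.succ {a t : ℕ} (h : M.Gd x a t) (h0 : M.ps x t ≠ 0) (h1 : M.halt (M.st x t) = none) :
    M.Gd x a (t + 1) := by
  refine ⟨h.1.trans (Nat.le_succ _), fun s h2 h3 => ?_⟩
  rcases Nat.lt_succ_iff_lt_or_eq.1 h3 with h4 | rfl
  · exact h.2 s h2 h4
  · exact ⟨h0, h1⟩

theorem Gd.cnt_le (hc : M.Visits c) {a t : ℕ} (h : M.Gd x a t) (p : ℕ) : M.cnt x a p t ≤ c :=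
  hc x a t p h.2

variable (M x c)

/-- Visits to one cell, with an oracle for the cells to its right. -/
noncomputable def lp (O : Q → S → Option Q × S) : ℕ → Q → Γ → S → Option Q × Γ × S
  | 0, _, a, s => (none, a, s)
  | j + 1, q, a, s =>
    if M.right q a = true ∧ M.halt (M.next q a) = none then
      match (O (M.next q a) s).1 with
      | some q' => if M.halt q' = none then lp O j q' (M.write q a) (O (M.next q a) s).2
          else (some q', M.write q a, (O (M.next q a) s).2)
      | none => (none, M.write q a, (O (M.next q a) s).2)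
    else (some (M.next q a), M.write q a, s)

/-- An entry into a block of cells. -/
noncomputable def blk (O : Q → S → Option Q × S) : ℕ → Q → List Γ × S → Option Q × List Γ × S
  | 0, q, us => ((O q us.2).1, [], (O q us.2).2)
  | m + 1, q, us =>
    let r := M.lp (blk O m) c q (us.1.headD M.blank) (us.1.tail, us.2)
    (r.1, r.2.1 :: r.2.2.1, r.2.2.2)

theorem lp_pres {O : Q → S → Option Q × S} {P : S → Prop} (h : ∀ q s, P s → P (O q s).2) :
    ∀ j q a s, P s → P (M.lp O j q a s).2.2 := by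
  intro j
  induction j with
  | zero => exact fun _ _ _ hs => hs
  | succ j ih =>
    intro q a s hs
    unfold lp
    split_ifs
    · split
      · split_ifs
        · exact ih _ _ _ (h _ _ hs)
        · exact h _ _ hs
      · exact h _ _ hs
    · exact hs

theorem blk_len (O : Q → S → Option Q × S) (m : ℕ) :
    ∀ q us, us.1.length = m → (M.blk c O m q us).2.1.length = m := by
  induction m with
  | zero => exact fun _ _ _ => rfl
  | succ m ih =>
    intro q us h
    have := M.lp_pres (P := fun us : List Γ × S => us.1.length = m) ih c q (us.1.headD M.blank)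
      (us.1.tail, us.2) (by simp [h])
    simpa [blk] using this

/-- The conclusion of a simulated entry. -/
def Out (a p t : ℕ) (r : Option Q) (R : ℕ → Prop) (F : Prop) : Prop :=
  (∀ q', r = some q' → ∃ t', t < t' ∧ M.Gd x a t' ∧ M.st x t' = q' ∧
    (M.halt q' = none → M.ps x t' + 1 = p) ∧ (∀ i < p, M.tp x t' i = M.tp x t i) ∧ R t') ∧
  (r = none → F)

def Sim (a p : ℕ) (O : Q → S → Option Q × S) (R : S → ℕ → Prop) (F : S → Prop) : Prop :=
  (∀ s t, M.ps x t < p → R s t → R s (t + 1)) ∧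
  ∀ s t, M.Gd x a t → M.ps x t = p → M.halt (M.st x t) = none → R s t →
    M.Out x a p t (O (M.st x t) s).1 (R (O (M.st x t) s).2) (F (O (M.st x t) s).2)

variable {M x c}

theorem lp_sim (hc : M.Visits c) {a p : ℕ} (hp : 1 ≤ p) {O : Q → S → Option Q × S}
    {R : S → ℕ → Prop} {F : S → Prop} (h : M.Sim x a (p + 1) O R F) (j : ℕ) :
    ∀ s t, c ≤ M.cnt x a p t + j → M.Gd x a t → M.ps x t = p → M.halt (M.st x t) = none → R s t →
      M.Out x a p t (M.lp O j (M.st x t) (M.tp x t p) s).1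
        (fun t' => M.tp x t' p = (M.lp O j (M.st x t) (M.tp x t p) s).2.1 ∧
          R (M.lp O j (M.st x t) (M.tp x t p) s).2.2 t')
        (F (M.lp O j (M.st x t) (M.tp x t p) s).2.2) := by
  induction j with
  | zero =>
    intro s t h1 h2 h3 h4 _
    have := (h2.succ (by omega) h4).cnt_le hc p
    rw [cnt_succ h2.1 h3] at this
    omega
  | succ j ih =>
    intro s t h1 h2 h3 h4 h5
    obtain ⟨g1, g2, g3⟩ := go h4
    rw [h3] at g1 g2 g3
    have g4 := h2.succ (by omega) h4
    have g5 := h.1 s t (by omega) h5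
    have g6 : ∀ i < p, M.tp x (t + 1) i = M.tp x t i := fun i hi => tp_succ (by omega)
    unfold lp
    rw [← g1, ← g3]
    split_ifs with h6
    · rw [if_pos h6.1] at g2
      obtain ⟨o1, o2⟩ := h.2 s (t + 1) g4 g2 h6.2 g5
      split
      · rename_i q' hq
        obtain ⟨t', k1, k2, k3, k4, k5, k6⟩ := o1 q' hq
        have k7 : ∀ i < p, M.tp x t' i = M.tp x t i := fun i hi => (k5 i (by omega)).trans (g6 i hi)
        split_ifs with h7
        · have k8 := cnt_mono (M := M) (x := x) a p k1.le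
          rw [cnt_succ h2.1 h3] at k8
          obtain ⟨i1, i2⟩ := ih _ t' (by omega) k2 (by have := k4 h7; omega) (k3 ▸ h7) k6
          rw [k3, k5 p (by omega)] at i1 i2
          refine ⟨fun q'' hq'' => ?_, i2⟩
          obtain ⟨t'', l1, l2, l3, l4, l5, l6⟩ := i1 q'' hq''
          exact ⟨t'', by omega, l2, l3, l4, fun i hi => (l5 i hi).trans (k7 i hi), l6⟩
        · refine ⟨fun q'' hq'' => ?_, fun h => by simp at h⟩
          obtain rfl : q' = q'' := by simpa using hq''
          exact ⟨t', by omega, k2, k3, fun h => absurd h h7, k7, k5 p (by omega), k6⟩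
      · rename_i hq
        exact ⟨fun q'' hq'' => by simp at hq'', fun _ => o2 hq⟩
    · refine ⟨fun q'' hq'' => ?_, fun h => by simp at h⟩
      obtain rfl : M.st x (t + 1) = q'' := by simpa using hq''
      refine ⟨t + 1, by omega, g4, rfl, fun h7 => ?_, g6, rfl, g5⟩
      rw [if_neg fun h8 => h6 ⟨h8, h7⟩] at g2
      omega

/-- The block `u` stands on the tape from `p` on. -/
def Ag (M : OneTape Q Γ) (τ : ℕ → Γ) (p m : ℕ) (u : List Γ) : Prop :=
  ∀ j < m, τ (p + j) = u.getD j M.blank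

theorem ag_succ {τ : ℕ → Γ} {p m : ℕ} {u : List Γ} : M.Ag τ p (m + 1) u ↔
    τ p = u.headD M.blank ∧ M.Ag τ (p + 1) m u.tail := by
  unfold Ag
  rw [Nat.forall_lt_succ_left]
  cases u <;> simp [add_assoc, add_comm 1]

theorem blk_sim (hc : M.Visits c) {a : ℕ} {O : Q → S → Option Q × S}
    {R : S → ℕ → Prop} {F : S → Prop} (m : ℕ) : ∀ p, 1 ≤ p → M.Sim x a (p + m) O R F →
    M.Sim x a p (M.blk c O m) (fun us t => M.Ag (M.tp x t) p m us.1 ∧ R us.2 t)
      fun us => F us.2 := by
  induction m with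
  | zero =>
    intro p _ h
    refine ⟨fun s t h1 h2 => ⟨by simp [Ag], h.1 _ _ h1 h2.2⟩, fun s t h1 h2 h3 h4 => ?_⟩
    simpa [blk, Ag] using h.2 s.2 t h1 h2 h3 h4.2
  | succ m ih =>
    intro p hp h
    refine ⟨fun s t h1 h2 => ⟨fun j hj => (tp_succ (by omega)).trans (h2.1 j hj),
      h.1 _ _ (by omega) h2.2⟩, fun s t h1 h2 h3 h4 => ?_⟩
    obtain ⟨h5, h6⟩ := ag_succ.1 h4.1
    have := lp_sim hc hp (ih (p + 1) (by omega) (by rwa [add_assoc, add_comm 1])) c
      (s.1.tail, s.2) t (by omega) h1 h2 h3 ⟨h6, h4.2⟩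
    rw [h5] at this
    simpa [blk, ag_succ, and_assoc] using this

/-- A table of answers, used as an oracle on the list of the entries so far. -/
def tab (O : List Q → Option Q) (q : Q) (h : List Q) : Option Q × List Q :=
  (O (h ++ [q]), h ++ [q])

variable (M c) (W K : ℕ)

noncomputable def app (O : List Q → Option Q) (u : List Γ) (H : List Q) :
    Option Q × List Γ × List Q :=
  H.foldl (fun r q => if r.1 = none then r else M.blk c (tab O) W q r.2) (some M.start, u, [])

theorem app_len (O : List Q → Option Q) {u : List Γ} (hu : u.length = W) (H : List Q) :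
    (M.app c W O u H).2.1.length = W := by
  unfold app
  induction H using List.reverseRecOn with
  | nil => exact hu
  | append_singleton H q ih =>
    rw [List.foldl_append, List.foldl_cons, List.foldl_nil]
    split_ifs
    · exact ih
    · exact M.blk_len c _ _ _ _ ih

/-- A block with the table of the tape to its right and the entries not yet carried out. -/
structure Cell (Q Γ : Type) where
  u : List Γ
  O : List Q → Option Q
  h : List Q
  z : Bool
  f : Bool

noncomputable def nO (d : Cell Q Γ) (σ : List Q) : Option Q :=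
  if K < (d.h ++ σ).length then none else (M.app c W d.O d.u (d.h ++ σ)).1

def Rp (cs : ℕ → Cell Q Γ) (τ : ℕ → Γ) (L : ℕ → ℕ) : ℕ → ℕ → List Q → Prop
  | 0, _, _ => True
  | m + 1, i, σ => (M.app c W (cs i).O (cs i).u ((cs i).h ++ σ)).1 ≠ none ∧
      M.Ag τ (i * W) W (M.app c W (cs i).O (cs i).u ((cs i).h ++ σ)).2.1 ∧
      ((cs i).h ++ σ).length ≤ L i ∧ ((cs i).h ++ σ).length ≤ K ∧
      (cs i).O = M.nO c W K (cs (i + 1)) ∧
      Rp cs τ L m (i + 1) (M.app c W (cs i).O (cs i).u ((cs i).h ++ σ)).2.2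

def Fp (cs : ℕ → Cell Q Γ) (B : ℕ → ℕ) : ℕ → ℕ → List Q → Prop
  | 0, _, _ => False
  | m + 1, i, ρ => if K < ((cs i).h ++ ρ).length then K < B i + c else
      Fp cs B m (i + 1) (M.app c W (cs i).O (cs i).u ((cs i).h ++ ρ)).2.2

variable {M c W K} {cs cs' : ℕ → Cell Q Γ}

theorem Rp.congr {τ τ' : ℕ → Γ} {L L' : ℕ → ℕ} {m : ℕ} : ∀ {i σ}, (∀ j, i ≤ j → cs j = cs' j) →
    (∀ p, i * W ≤ p → τ p = τ' p) → (∀ j, i ≤ j → L j ≤ L' j) → M.Rp c W K cs τ L m i σ →
    M.Rp c W K cs' τ' L' m i σ := by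
  induction m with
  | zero => exact fun _ _ _ _ => trivial
  | succ m ih =>
    intro i σ h1 h2 h3 h
    obtain ⟨k1, k2, k3, k4, k5, k6⟩ := h
    rw [Rp, ← h1 i le_rfl, ← h1 (i + 1) (by omega)]
    exact ⟨k1, fun j hj => (h2 _ (by omega)).symm.trans (k2 j hj), k3.trans (h3 i le_rfl), k4, k5,
      ih (fun j hj => h1 j (by omega)) (fun p hp => h2 p (by nlinarith))
        (fun j hj => h3 j (by omega)) k6⟩

theorem Fp.congr {B : ℕ → ℕ} {m : ℕ} : ∀ {i ρ}, (∀ j, i ≤ j → cs j = cs' j) →
    M.Fp c W K cs B m i ρ → M.Fp c W K cs' B m i ρ := by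
  induction m with
  | zero => exact fun _ h => h
  | succ m ih =>
    intro i ρ h1 h
    rw [Fp, ← h1 i le_rfl]
    rw [Fp] at h
    split_ifs at h ⊢
    · exact h
    · exact ih (fun j hj => h1 j (by omega)) h

theorem Fp.ex {B : ℕ → ℕ} {m : ℕ} : ∀ {i ρ}, M.Fp c W K cs B m i ρ →
    ∃ j, i ≤ j ∧ K < B j + c := by
  induction m with
  | zero => exact fun h => h.elim
  | succ m ih =>
    intro i ρ h
    rw [Fp] at h
    split_ifs at h
    · exact ⟨i, le_rfl, h⟩
    · obtain ⟨j, h1, h2⟩ := ih h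
      exact ⟨j, by omega, h2⟩

theorem Fp.take {B : ℕ → ℕ} {m i : ℕ} {ρ : List Q} (h : M.Fp c W K cs B m i ρ) :
    M.Fp c W K cs B m i (ρ.take (K + 1)) := by
  rcases le_or_gt ρ.length (K + 1) with h1 | h1
  · rwa [List.take_of_length_le h1]
  · cases m with
    | zero => exact h
    | succ m =>
      rw [Fp, if_pos (by simp; omega)] at h ⊢
      exact h

theorem Rp.take {τ : ℕ → Γ} {L : ℕ → ℕ} {m i : ℕ} {σ : List Q} (h : M.Rp c W K cs τ L m i σ) :
    M.Rp c W K cs τ L m i (σ.take (K + 1)) := by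
  cases m with
  | zero => trivial
  | succ m =>
    have := h.2.2.2.1
    rwa [List.take_of_length_le (by simp at this; omega)]

theorem tab_sim (hc : M.Visits c) {T : ℕ} (hT : M.halt (M.st x T) ≠ none) (hW : 1 ≤ W) (a : ℕ)
    (B : ℕ → ℕ) (m : ℕ) : ∀ i, 1 ≤ i → T ≤ (i + m) * W →
    M.Sim x a (i * W) (tab (M.nO c W K (cs i)))
      (fun σ t => M.Rp c W K cs (M.tp x t) (fun j => B j + M.cnt x a (j * W) t) m i σ)
      (M.Fp c W K cs B m i) := by
  have stab : ∀ m i σ t, M.ps x t < i * W →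
      M.Rp c W K cs (M.tp x t) (fun j => B j + M.cnt x a (j * W) t) m i σ →
      M.Rp c W K cs (M.tp x (t + 1)) (fun j => B j + M.cnt x a (j * W) (t + 1)) m i σ :=
    fun m i σ t h1 h2 => h2.congr (fun _ _ => rfl) (fun p hp => (tp_succ (by omega)).symm)
      fun j _ => Nat.add_le_add_left (cnt_mono _ _ (by omega)) _
  induction m with
  | zero =>
    refine fun i _ h => ⟨stab 0 i, fun s t _ h2 h3 _ => ?_⟩
    have h4 := lt_of_go hT h3
    have h5 := ps_add (M := M) (x := x) 0 t
    have h6 : M.ps x 0 = 0 := rfl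
    simp only [zero_add, add_zero] at h h5
    omega
  | succ m ih =>
    refine fun i hi h => ⟨stab _ i, fun σ t h1 h2 h3 h4 => ?_⟩
    obtain ⟨k1, k2, k3, k4, k5, k6⟩ := h4
    have hp : 1 ≤ i * W := Nat.mul_pos hi hW
    have s1 := ih (i + 1) (by omega) (by rwa [add_assoc, add_comm 1])
    rw [← k5, add_mul, one_mul] at s1
    obtain ⟨o1, o2⟩ := (blk_sim hc W _ hp s1).2 _ t h1 h2 h3 ⟨k2, k6⟩
    have e : M.app c W (cs i).O (cs i).u ((cs i).h ++ (σ ++ [M.st x t])) = M.blk c (tab (cs i).O) W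
        (M.st x t) (M.app c W (cs i).O (cs i).u ((cs i).h ++ σ)).2 := by
      rw [← List.append_assoc, app, List.foldl_append, List.foldl_cons, List.foldl_nil]
      exact if_neg k1
    have n1 := cnt_succ h1.1 h2
    have n2 := (h1.succ (by omega) h3).cnt_le hc (i * W)
    have n3 : ((cs i).h ++ (σ ++ [M.st x t])).length = ((cs i).h ++ σ).length + 1 := by
      simp [add_assoc]
    rw [← e] at o1 o2
    simp only [tab, nO]
    refine ⟨fun q' hq => ?_, fun hq => ?_⟩
    · split_ifs at hq with h5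
      obtain ⟨t', l1, l2, l3, l4, l5, l6, l7⟩ := o1 q' hq
      have := cnt_mono (M := M) (x := x) a (i * W) (show t + 1 ≤ t' from l1)
      exact ⟨t', l1, l2, l3, l4, l5, by simp [hq], l6, by beta_reduce at k3 ⊢; omega, by omega,
        k5, l7⟩
    · rw [Fp]
      split_ifs at hq ⊢ with h5
      · beta_reduce at k3; omega
      · exact o2 hq

variable (M c W)

/-- One step on cell `0` with the excursion that follows it. -/
noncomputable def rnd (O : List Q → Option Q) (q : Q) (u : List Γ) (σ : List Q) :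
    Option Q × List Γ × List Q :=
  if M.right q (u.headD M.blank) = true ∧ M.halt (M.next q (u.headD M.blank)) = none then
    let r := M.blk c (tab O) (W - 1) (M.next q (u.headD M.blank)) (u.tail, σ)
    (r.1, M.write q (u.headD M.blank) :: r.2.1, r.2.2)
  else (some (M.next q (u.headD M.blank)), M.write q (u.headD M.blank) :: u.tail, σ)

variable {M c W}

theorem rnd_len (hW : 1 ≤ W) (O : List Q → Option Q) (q : Q) {u : List Γ} (hu : u.length = W)
    (σ : List Q) : (M.rnd c W O q u σ).2.1.length = W := by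
  unfold rnd
  split_ifs
  · have := M.blk_len c (tab O) (W - 1) (M.next q (u.headD M.blank)) (u.tail, σ) (by simp [hu])
    simp only [List.length_cons, this]
    omega
  · simp only [List.length_cons, List.length_tail]
    omega

theorem rnd_sim (hc : M.Visits c) {T : ℕ} (hT : M.halt (M.st x T) ≠ none) (hW : 1 ≤ W)
    {B : ℕ → ℕ} {m t : ℕ} (hm : T ≤ (1 + m) * W) {u : List Γ} {σ : List Q} (h0 : M.ps x t = 0)
    (h1 : M.halt (M.st x t) = none) (h2 : M.Ag (M.tp x t) 0 W u)
    (h3 : M.Rp c W K cs (M.tp x t) B m 1 σ) {r : Option Q × List Γ × List Q}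
    (hr : r = M.rnd c W (M.nO c W K (cs 1)) (M.st x t) u σ) :
    (∀ q', r.1 = some q' → ∃ t', t < t' ∧ t' ≤ T ∧ M.st x t' = q' ∧
      (M.halt q' = none → M.ps x t' = 0) ∧ M.Ag (M.tp x t') 0 W r.2.1 ∧
      M.Rp c W K cs (M.tp x t') (fun j => B j + if j * W ≤ t' - t then c else 0) m 1 r.2.2) ∧
    (r.1 = none → M.Fp c W K cs B m 1 r.2.2) := by
  obtain ⟨V, rfl⟩ : ∃ V, W = V + 1 := ⟨W - 1, by omega⟩
  obtain ⟨g1, g2, g3⟩ := go h1
  obtain ⟨h4, h5⟩ := ag_succ.1 h2
  rw [h0, h4] at g1 g2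
  rw [h0, h4] at g3
  have g4 : ∀ p, 1 ≤ p → M.tp x t p = M.tp x (t + 1) p := fun p hp => (tp_succ (by omega)).symm
  have g5 : M.Ag (M.tp x (t + 1)) (0 + 1) V u.tail := fun j hj =>
    (g4 _ (by omega)).symm.trans (h5 j hj)
  have g6 := lt_of_go hT h1
  rw [rnd, ← g1, ← g3] at hr
  split_ifs at hr with h6
  · rw [if_pos h6.1] at g2
    have s1 := tab_sim (K := K) (cs := cs) hc hT hW (t + 1) B m 1 le_rfl hm
    rw [one_mul, add_comm V] at s1
    rw [add_comm V] at h3
    obtain ⟨o1, o2⟩ := (blk_sim hc V 1 le_rfl s1).2 (u.tail, σ) (t + 1) ⟨le_rfl, by omega⟩ g2 h6.2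
      ⟨g5, h3.congr (fun _ _ => rfl) (fun p hp => g4 p (by omega)) fun j _ => by simp⟩
    rw [add_comm 1 V] at o1 o2
    subst hr
    refine ⟨fun q' hq => ?_, o2⟩
    obtain ⟨t', l1, l2, l3, l4, l5, l6, l7⟩ := o1 q' hq
    have l8 := lt_of_go hT (l2.2 (t' - 1) (by omega) (by omega)).2
    refine ⟨t', by omega, by omega, l3, fun h => by have := l4 h; omega,
      ag_succ.2 ⟨l5 0 (by omega), l6⟩, l7.congr (fun _ _ => rfl) (fun _ _ => rfl) fun j _ => ?_⟩
    refine Nat.add_le_add_left ?_ _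
    split_ifs with h7
    · exact l2.cnt_le hc _
    · refine (Finset.card_eq_zero.2 (Finset.filter_eq_empty_iff.2 fun s hs => ?_)).le
      have h8 := Finset.mem_Ico.1 hs
      have := ps_add (M := M) (x := x) t (s - t)
      rw [show t + (s - t) = s by omega] at this
      omega
  · subst hr
    refine ⟨fun q' hq => ?_, fun h => by simp at h⟩
    obtain rfl : M.st x (t + 1) = q' := by simpa using hq
    refine ⟨t + 1, by omega, by omega, rfl, fun h7 => ?_, ag_succ.2 ⟨rfl, g5⟩,
      h3.congr (fun _ _ => rfl) (fun p hp => g4 p (by omega)) fun j _ => by simp⟩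
    rw [if_neg fun h8 => h6 ⟨h8, h7⟩] at g2
    omega

end OneTape

end Pool.Agent.MP_89e1e6_lc
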