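import Pool.Agent.MP_89e1e6_lc.Exc

set_option autoImplicit false

namespace Pool.Agent.MP_89e1e6_lc

open Classical

theorem pow_sum (W D R : ℕ) :
    W * ∑ r ∈ Finset.range R, 2 ^ r * (if 2 ^ r * W ≤ D then 1 else 0) ≤ 2 * D ∧
    W * ∑ r ∈ Finset.range R, 2 ^ r * (if 2 ^ r * W ≤ D then 1 else 0) ≤ 2 ^ R * W := by
  induction R with
  | zero => simp
  | succ R ih =>
    rw [Finset.sum_range_succ, mul_add, pow_succ]
    split_ifs with h <;> constructor <;> nlinarith [ih.1, ih.2]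

def Phi (T : ℕ) (φ : ℕ → ℕ) : ℕ := ∑ r ∈ Finset.range (T + 1), 2 ^ r * φ r

theorem phi_cut {T r : ℕ} (h : r ≤ T) (φ : ℕ → ℕ) :
    Phi T (fun s => if s ≤ r then 0 else φ s) + 2 ^ r * φ r ≤ Phi T φ := by
  have hr : r ∈ Finset.range (T + 1) := Finset.mem_range.2 (by omega)
  unfold Phi
  rw [← Finset.add_sum_erase _ _ hr, ← Finset.add_sum_erase _ _ hr]
  simp only [le_refl, if_true, mul_zero, zero_add]
  rw [add_comm]
  refine Nat.add_le_add_left (Finset.sum_le_sum fun s _ => Nat.mul_le_mul_left _ ?_) _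
  split_ifs <;> omega

namespace OneTape

variable {Q Γ : Type} (M : OneTape Q Γ) (c W K : ℕ)

noncomputable def rs (O : List Q → Option Q) (z : Q × List Γ × List Q × Option (List Q)) :
    Q × List Γ × List Q × Option (List Q) :=
  if M.halt z.1 = none ∧ z.2.2.2 = none then
    match (M.rnd c W O z.1 z.2.1 z.2.2.1).1 with
    | some q' => (q', (M.rnd c W O z.1 z.2.1 z.2.2.1).2.1, (M.rnd c W O z.1 z.2.1 z.2.2.1).2.2, none)
    | none => (z.1, z.2.1, z.2.2.1, some (M.rnd c W O z.1 z.2.1 z.2.2.1).2.2)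
  else z

variable {M c W K} {x : List Bool} {cs : ℕ → Cell Q Γ} {T : ℕ}

theorem rs_len (hW : 1 ≤ W) (O : List Q → Option Q) (j : ℕ)
    {z : Q × List Γ × List Q × Option (List Q)} (hz : z.2.1.length = W) :
    ((M.rs c W O)^[j] z).2.1.length = W := by
  induction j with
  | zero => exact hz
  | succ j ih =>
    rw [Function.iterate_succ_apply', rs]
    split_ifs
    · split
      · exact rnd_len hW _ _ ih _
      · exact ih
    · exact ih

theorem rs_sim (hc : M.Visits c) (hT : M.halt (M.st x T) ≠ none) (hW : 1 ≤ W) {t : ℕ} {φ : ℕ → ℕ}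
    {u : List Γ} {σ : List Q} (h0 : M.ps x t = 0) (h2 : M.Ag (M.tp x t) 0 W u)
    (h3 : M.Rp c W K cs (M.tp x t) (fun j => c * φ (Nat.log 2 j)) (2 * T) 1 σ)
    (h4 : ∀ r, φ r ≠ 0 → 2 ^ r * W ≤ T) (j : ℕ) : ∀ z,
    z = (M.rs c W (M.nO c W K (cs 1)))^[j] (M.st x t, u, σ, none) → ∃ t', M.st x t' = z.1 ∧
      (M.halt z.1 ≠ none ∨ ∃ φ' : ℕ → ℕ, M.ps x t' = 0 ∧ M.Ag (M.tp x t') 0 W z.2.1 ∧
        M.Rp c W K cs (M.tp x t') (fun j => c * φ' (Nat.log 2 j)) (2 * T) 1 z.2.2.1 ∧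
        (∀ r, φ' r ≠ 0 → 2 ^ r * W ≤ T) ∧
        (∀ ρ, z.2.2.2 = some ρ → M.Fp c W K cs (fun j => c * φ' (Nat.log 2 j)) (2 * T) 1 ρ) ∧
        5 * (W * Phi T φ') + 11 * t + (if z.2.2.2 = none then j else 0) ≤
          5 * (W * Phi T φ) + 11 * t') := by
  induction j with
  | zero =>
    rintro z rfl
    exact ⟨t, rfl, Or.inr ⟨φ, h0, h2, h3, h4, by simp, by simp⟩⟩
  | succ j ih =>
    intro z hz
    rw [Function.iterate_succ_apply'] at hz
    obtain ⟨t', k1, k2⟩ := ih _ rfl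
    generalize (M.rs c W (M.nO c W K (cs 1)))^[j] (M.st x t, u, σ, none) = y at *
    rw [rs] at hz
    split_ifs at hz with h5
    · obtain ⟨φ', l0, l2, l3, l4, -, l6⟩ := k2.resolve_left (by simp [h5.1])
      rw [if_pos h5.2] at l6
      rw [← k1] at hz h5
      obtain ⟨o1, o2⟩ := rnd_sim hc hT hW (by nlinarith) l0 h5.1 l2 l3 rfl
      split at hz
      · rename_i q' hq
        obtain ⟨t'', n1, n2, n3, n4, n5, n6⟩ := o1 q' hq
        subst hz
        refine ⟨t'', n3, ?_⟩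
        by_cases h6 : M.halt q' = none
        swap
        · exact Or.inl h6
        refine Or.inr ⟨fun r => φ' r + if 2 ^ r * W ≤ t'' - t' then 1 else 0, n4 h6, n5,
          n6.congr (fun _ _ => rfl) (fun _ _ => rfl) fun i hi => ?_, fun r hr => ?_, by simp, ?_⟩
        · have := Nat.mul_le_mul_right W (Nat.pow_log_le_self 2 (show i ≠ 0 by omega))
          beta_reduce
          split_ifs <;> first | omega | simp [mul_add]
        · beta_reduce at hr
          split_ifs at hr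
          · omega
          · exact l4 r hr
        · have := (pow_sum W (t'' - t') (T + 1)).1
          simp only [Phi, mul_add, Finset.sum_add_distrib, if_true] at l6 ⊢
          omega
      · rename_i hq
        subst hz
        refine ⟨t', rfl, Or.inr ⟨φ', l0, l2, l3, l4, fun ρ hρ => ?_, by simp; omega⟩⟩
        obtain rfl : _ = ρ := by simpa using hρ
        exact o2 hq
    · subst hz
      refine ⟨t', k1, k2.elim Or.inl fun ⟨φ', l0, l2, l3, l4, l5, l6⟩ => ?_⟩
      by_cases h6 : M.halt z.1 = none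
      · have h7 : z.2.2.2 ≠ none := fun h => h5 ⟨h6, h⟩
        exact Or.inr ⟨φ', l0, l2, l3, l4, l5, by simpa [h7] using l6⟩
      · exact Or.inl h6

/-- Control of the fast machine; the mode is home, walking right, or walking left. -/
structure Ctl (Q : Type) where
  md : Option Bool
  q : Q
  s : List Q
  e : Option (List Q)
  O : List Q → Option Q

variable (M c W K)

/-- New control, new cell and move (plus one) of the fast machine. -/
noncomputable def mst (F : ℕ) (k : Ctl Q) (d : Cell Q Γ) : Ctl Q × Cell Q Γ × ℕ :=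
  if M.halt k.q ≠ none then (k, d, 1) else
  if k.md = none then
    let r := (M.rs c W d.O)^[F] (k.q, d.u, k.s, none)
    (⟨if r.2.2.2 = none then none else some true, r.1, r.2.2.1.take (K + 1),
      r.2.2.2.map (List.take (K + 1)), k.O⟩, ⟨r.2.1, d.O, d.h, d.z, d.f⟩,
      if r.2.2.2 = none then 1 else 2)
  else if k.md = some true then
    if d.z = true ∧ k.e = none then
      (⟨some false, k.q, [], none, M.nO c W K ⟨d.u, d.O, (d.h ++ k.s).take K, d.z, d.f⟩⟩,
        ⟨d.u, d.O, (d.h ++ k.s).take K, d.z, d.f⟩, 0)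
    else
      (⟨some true, k.q, (M.app c W d.O d.u (d.h ++ k.s)).2.2.take (K + 1),
        k.e.bind fun ρ => if K < (d.h ++ ρ).length then none else
          some ((M.app c W d.O d.u (d.h ++ ρ)).2.2.take (K + 1)), k.O⟩,
        ⟨(M.app c W d.O d.u (d.h ++ k.s)).2.1, d.O, [], d.z, d.f⟩, 2)
  else
    (⟨if d.f then none else some false, k.q, k.s, k.e, M.nO c W K ⟨d.u, k.O, d.h, d.z, d.f⟩⟩,
      ⟨d.u, k.O, d.h, d.z, d.f⟩, if d.f then 1 else 0)

noncomputable def fst (F : ℕ) (z : Ctl Q × ℕ × (ℕ → Cell Q Γ)) : Ctl Q × ℕ × (ℕ → Cell Q Γ) :=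
  ((M.mst c W K F z.1 (z.2.2 z.2.1)).1, z.2.1 + (M.mst c W K F z.1 (z.2.2 z.2.1)).2.2 - 1,
    Function.update z.2.2 z.2.1 (M.mst c W K F z.1 (z.2.2 z.2.1)).2.1)

variable (x T)

def Low (t H : ℕ) (cs : ℕ → Cell Q Γ) : Prop :=
  ∀ j < H, M.Ag (M.tp x t) (j * W) W (cs j).u ∧ (cs j).h = []

def Fl (cs : ℕ → Cell Q Γ) : Prop :=
  ∀ i, ((cs i).z = true ↔ ∃ r, i = 2 ^ r) ∧ ((cs i).f = true ↔ i = 0)

def Inv (k₀ s : ℕ) (z : Ctl Q × ℕ × (ℕ → Cell Q Γ)) : Prop :=
  ∃ t, M.st x t = z.1.q ∧ (M.halt z.1.q ≠ none ∨ ∃ φ : ℕ → ℕ, M.ps x t = 0 ∧ Fl z.2.2 ∧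
    (∀ r, φ r ≠ 0 → 2 ^ r * W ≤ T) ∧
    ((z.1.md = none ∧ z.2.1 = 0 ∧ M.Low W x t 1 z.2.2 ∧ (z.2.2 0).O = M.nO c W K (z.2.2 1) ∧
      M.Rp c W K z.2.2 (M.tp x t) (fun j => c * φ (Nat.log 2 j)) (2 * T) 1 z.1.s ∧
      k₀ * W * s + 5 * (W * Phi T φ) ≤ 11 * t) ∨
    (z.1.md = some true ∧ 1 ≤ z.2.1 ∧ M.Low W x t z.2.1 z.2.2 ∧
      M.Rp c W K z.2.2 (M.tp x t) (fun j => c * φ (Nat.log 2 j)) (2 * T + 1 - z.2.1) z.2.1 z.1.s ∧
      k₀ * W * s + 5 * (W * Phi T φ) ≤ 11 * t + k₀ * W * z.2.1 ∧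
      (∀ ρ, z.1.e = some ρ →
        M.Fp c W K z.2.2 (fun j => c * φ (Nat.log 2 j)) (2 * T + 1 - z.2.1) z.2.1 ρ) ∧
      (z.1.e = none → ∃ r, 2 ^ r < z.2.1 ∧ z.2.1 ≤ 2 ^ (r + 1) ∧ k₀ ≤ φ r)) ∨
    (z.1.md = some false ∧ z.2.1 ≤ 2 * T ∧ M.Low W x t (z.2.1 + 1) z.2.2 ∧ z.1.s = [] ∧
      z.1.O = M.nO c W K (z.2.2 (z.2.1 + 1)) ∧
      M.Rp c W K z.2.2 (M.tp x t) (fun j => c * φ (Nat.log 2 j)) (2 * T - z.2.1) (z.2.1 + 1) [] ∧
      k₀ * W * (s + z.2.1 + 1) + 5 * (W * Phi T φ) ≤ 11 * t)))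

variable {M c W K x T}

theorem Fl.upd (h : Fl cs) {H : ℕ} {d : Cell Q Γ} (h1 : d.z = (cs H).z) (h2 : d.f = (cs H).f) :
    Fl (Function.update cs H d) := fun i => by
  by_cases hi : i = H
  · subst hi
    rw [Function.update_self, h1, h2]
    exact h i
  · rw [Function.update_of_ne hi]
    exact h i

theorem upd_ge {H : ℕ} (d : Cell Q Γ) {i : ℕ} (hi : H < i) :
    ∀ j, i ≤ j → cs j = Function.update cs H d j := fun j hj =>
  (Function.update_of_ne (by omega) _ _).symm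

theorem ovf {k₀ v : ℕ} (h : c * k₀ < c * v + c) : k₀ ≤ v :=
  Nat.lt_succ_iff.1 (Nat.lt_of_mul_lt_mul_left (a := c) (by rwa [Nat.mul_succ]))

theorem Inv.step (hc : M.Visits c) (hT : M.halt (M.st x T) ≠ none) (hW : 1 ≤ W) {k₀ s : ℕ}
    (hk : 1 ≤ k₀) {z : Ctl Q × ℕ × (ℕ → Cell Q Γ)} (h : M.Inv c W (c * k₀) x T k₀ s z) :
    M.Inv c W (c * k₀) x T k₀ (s + 1) (M.fst c W (c * k₀) (k₀ * W) z) := by
  obtain ⟨k, H, cs⟩ := z
  obtain ⟨t, h1, h2⟩ := h
  by_cases h0 : M.halt k.q ≠ none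
  · exact ⟨t, by simpa [fst, mst, h0] using h1, Or.inl (by simp [fst, mst, h0])⟩
  obtain ⟨φ, p0, fl, bd, h3⟩ := h2.resolve_left h0
  dsimp only at h1 fl h3
  rcases h3 with ⟨m1, rfl, lo, hO, hR, ac⟩ | ⟨m1, hH, lo, hR, ac, hF, hN⟩ |
    ⟨m1, hH, lo, hs, hO, hR, ac⟩
  · obtain ⟨l1, l2⟩ := lo 0 (by omega)
    rw [zero_mul] at l1
    obtain ⟨t', k1, k2⟩ := rs_sim hc hT hW p0 l1 hR bd (k₀ * W) _ rfl
    rw [h1, ← hO] at k1 k2
    rw [fst, mst, if_neg h0, if_pos m1]
    dsimp only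
    generalize (M.rs c W (cs 0).O)^[k₀ * W] (k.q, (cs 0).u, k.s, none) = y at *
    refine ⟨t', k1, k2.imp_right fun ⟨φ', n0, n1, n2, n3, n4, n5⟩ =>
      ⟨φ', n0, fl.upd rfl rfl, n3, ?_⟩⟩
    have lo' : M.Low W x t' 1 (Function.update cs 0 ⟨y.2.1, (cs 0).O, (cs 0).h, (cs 0).z, (cs 0).f⟩) :=
      fun j hj => by
        obtain rfl : j = 0 := by omega
        simpa using ⟨n1, l2⟩
    have hR' := n2.take.congr (upd_ge ⟨y.2.1, (cs 0).O, (cs 0).h, (cs 0).z, (cs 0).f⟩ one_pos)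
      (fun _ _ => rfl) fun _ _ => le_rfl
    by_cases he : y.2.2.2 = none
    · rw [if_pos he] at n5
      refine Or.inl ⟨if_pos he, by simp [he], lo', by simpa using hO, hR', ?_⟩
      rw [mul_add]
      omega
    · rw [if_neg he] at n5
      dsimp only
      rw [if_neg he, if_neg he]
      refine Or.inr (Or.inl ⟨rfl, le_rfl, lo', hR', by rw [mul_add]; omega, fun ρ hρ => ?_,
        fun h => absurd (by simpa using h) he⟩)
      obtain ⟨ρ', e1, rfl⟩ := Option.map_eq_some_iff.1 hρ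
      exact (n4 ρ' e1).take.congr (upd_ge _ one_pos)
  · have hH2 : H ≤ 2 * T := by
      cases he : k.e with
      | none =>
        obtain ⟨r, -, r2, r3⟩ := hN he
        have := bd r (by omega)
        rw [pow_succ] at r2
        nlinarith
      | some ρ =>
        by_contra h
        have := hF ρ he
        rw [show 2 * T + 1 - H = 0 by omega] at this
        exact this
    obtain ⟨m, hm⟩ : ∃ m, 2 * T + 1 - H = m + 1 := ⟨2 * T - H, by omega⟩
    rw [hm] at hR hF
    obtain ⟨r1, r2, r3, r4, r5, r6⟩ := hR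
    rw [fst, mst, if_neg h0, if_neg (by simp [m1]), if_pos m1]
    refine ⟨t, by split_ifs <;> exact h1, Or.inr ?_⟩
    split_ifs with hz
    · obtain ⟨r, a1, a2, a3⟩ := hN hz.2
      obtain ⟨r', hi⟩ := (fl H).1.1 hz.1
      obtain rfl : r' = r + 1 := le_antisymm ((Nat.pow_le_pow_iff_right (by norm_num)).1 (hi ▸ a2))
        ((Nat.pow_lt_pow_iff_right (by norm_num)).1 (hi ▸ a1))
      obtain ⟨i, rfl⟩ : ∃ i, H = i + 1 := ⟨H - 1, by omega⟩
      have b1 := bd r (by omega)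
      have b2 : r < 2 ^ r := Nat.lt_two_pow_self
      have b3 := phi_cut (T := T) (r := r) (by nlinarith) φ
      have b4 : ∀ j, i + 1 ≤ j → c * φ (Nat.log 2 j) ≤
          c * if Nat.log 2 j ≤ r then 0 else φ (Nat.log 2 j) := fun j hj => by
        have := Nat.le_log_of_pow_le (b := 2) (by norm_num) (hi ▸ hj)
        rw [if_neg (by omega)]
      rw [List.take_of_length_le r4]
      refine ⟨fun s => if s ≤ r then 0 else φ s, p0, fl.upd rfl rfl, fun s hs => bd s ?_,
        Or.inr (Or.inr ⟨rfl, by dsimp only; omega, fun j hj => ?_, rfl, by simp, ?_, ?_⟩)⟩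
      · intro h
        simp [h] at hs
      · dsimp only at hj ⊢
        rw [Function.update_of_ne (by omega)]
        exact lo j (by omega)
      · dsimp only
        rw [add_zero, Nat.add_sub_cancel, show 2 * T - i = m + 1 by omega, Rp, Function.update_self,
          Function.update_of_ne (by omega), List.append_nil]
        exact ⟨r1, r2, r3.trans (b4 _ le_rfl), r4, r5, r6.congr (upd_ge _ (by omega))
          (fun _ _ => rfl) fun j hj => b4 j (by omega)⟩
      · dsimp only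
        rw [add_zero, Nat.add_sub_cancel]
        rw [pow_succ] at hi
        have b5 := Nat.mul_le_mul_left W b3
        have b6 := Nat.mul_le_mul_left (W * 2 ^ r) a3
        have b7 : k₀ * W * (2 * i + 3) ≤ k₀ * W * (5 * 2 ^ r) := Nat.mul_le_mul_left _ (by omega)
        nlinarith
    · refine ⟨φ, p0, fl.upd rfl rfl, bd, Or.inr (Or.inl ?_)⟩
      dsimp only
      rw [show H + 2 - 1 = H + 1 by omega, show 2 * T + 1 - (H + 1) = m by omega]
      refine ⟨rfl, by omega, fun j hj => ?_, r6.take.congr (upd_ge _ (by omega)) (fun _ _ => rfl)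
        fun _ _ => le_rfl, by rw [mul_add, mul_add]; omega, fun ρ hρ => ?_, fun he => ?_⟩
      · rcases Nat.lt_succ_iff_lt_or_eq.1 hj with h | rfl
        · rw [Function.update_of_ne h.ne]
          exact lo j h
        · rw [Function.update_self]
          exact ⟨r2, rfl⟩
      · obtain ⟨ρ', e1, e2⟩ := Option.bind_eq_some_iff.1 hρ
        have := hF ρ' e1
        rw [Fp] at this
        split_ifs at e2 this
        obtain rfl : _ = ρ := by simpa using e2
        exact this.take.congr (upd_ge _ (by omega))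
      · cases he' : k.e with
        | none =>
          obtain ⟨r, a1, a2, a3⟩ := hN he'
          refine ⟨r, by omega, lt_of_le_of_ne a2 fun h => hz ⟨(fl H).1.2 ⟨_, h⟩, he'⟩, a3⟩
        | some ρ =>
          have := hF ρ he'
          rw [he', Option.bind_some] at he
          rw [Fp] at this
          split_ifs at he this
          exact ⟨Nat.log 2 H, Nat.lt_succ_of_le (Nat.pow_log_le_self 2 (by omega)),
            Nat.lt_pow_succ_log_self (by norm_num) H, ovf this⟩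
  · rw [fst, mst, if_neg h0, if_neg (by simp [m1]), if_neg (by simp [m1])]
    refine ⟨t, h1, Or.inr ⟨φ, p0, fl.upd rfl rfl, bd, ?_⟩⟩
    have lo' : M.Low W x t (H + 1) (Function.update cs H ⟨(cs H).u, k.O, (cs H).h, (cs H).z, (cs H).f⟩) :=
      fun j hj => by
        by_cases h : j = H
        · subst h
          rw [Function.update_self]
          exact lo j hj
        · rw [Function.update_of_ne h]
          exact lo j hj
    have hR' := hR.congr (upd_ge ⟨(cs H).u, k.O, (cs H).h, (cs H).z, (cs H).f⟩ H.lt_succ_self)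
      (fun _ _ => rfl) fun _ _ => le_rfl
    dsimp only
    cases H with
    | zero =>
      rw [if_pos ((fl 0).2.2 rfl), if_pos ((fl 0).2.2 rfl)]
      exact Or.inl ⟨rfl, rfl, lo', by simpa using hO, hs ▸ hR', ac⟩
    | succ i =>
      have hf : ¬ (cs (i + 1)).f = true := fun h => by simpa using (fl _).2.1 h
      rw [if_neg hf, if_neg hf, add_zero, Nat.add_sub_cancel]
      obtain ⟨l1, l2⟩ := lo (i + 1) (by omega)
      refine Or.inr (Or.inr ⟨rfl, by omega, fun j hj => lo' j (by omega), hs, by simp, ?_,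
        by rwa [show s + 1 + i + 1 = s + (i + 1) + 1 by ring]⟩)
      rw [show 2 * T - i = 2 * T - (i + 1) + 1 by omega, Rp, Function.update_self,
        Function.update_of_ne (by omega)]
      simp only [l2, app, List.append_nil, List.foldl_nil] at hR' ⊢
      exact ⟨by simp, l1, by simp, by simp, hO, hR'⟩

theorem Inv.time (hT : M.halt (M.st x T) ≠ none) (hW : 1 ≤ W) {k₀ s : ℕ} (hk : 1 ≤ k₀)
    (hs : 11 * T ≤ k₀ * W * s) {z : Ctl Q × ℕ × (ℕ → Cell Q Γ)}
    (h : M.Inv c W (c * k₀) x T k₀ s z) : z.1.q = M.st x T := by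
  obtain ⟨t, h1, h2⟩ := h
  by_cases h0 : M.halt z.1.q = none
  · exfalso
    obtain ⟨φ, -, -, bd, h3⟩ := h2.resolve_left (by simp [h0])
    have ht := lt_of_go hT (h1 ▸ h0)
    rcases h3 with ⟨-, -, -, -, -, ac⟩ | ⟨-, hH, -, -, ac, hF, hN⟩ | ⟨-, -, -, -, -, -, ac⟩
    · omega
    · obtain ⟨r, r1, r2⟩ : ∃ r, z.2.1 ≤ 2 ^ (r + 1) ∧ k₀ ≤ φ r := by
        cases he : z.1.e with
        | none => exact (hN he).imp fun _ h => h.2
        | some ρ =>
          obtain ⟨j, j1, j2⟩ := (hF ρ he).ex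
          exact ⟨_, j1.trans (Nat.lt_pow_succ_log_self (by norm_num) j).le, ovf j2⟩
      have b1 := bd r (by omega)
      have b2 : r < 2 ^ r := Nat.lt_two_pow_self
      have b3 := Nat.mul_le_mul_left W (phi_cut (T := T) (r := r) (by nlinarith) φ)
      have b6 := Nat.mul_le_mul_left (W * 2 ^ r) r2
      have b7 := Nat.mul_le_mul_left (k₀ * W) r1
      rw [pow_succ] at b7
      nlinarith
    · rw [add_assoc, mul_add] at ac
      omega
  · rw [← h1] at h0 ⊢
    rcases le_total t T with h | h <;> obtain ⟨d, rfl⟩ := Nat.exists_eq_add_of_le h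
    · exact (st_add h0 d).symm
    · exact st_add hT d

end OneTape

end Pool.Agent.MP_89e1e6_lc
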