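import Pool.Agent.MP_89e1e6_lc.Cost

set_option autoImplicit false

namespace Pool.Agent.MP_89e1e6_lc

open Classical

theorem exists_pow {k T n : ℕ} (h : (2 * k + 2) * (n + 1) < T) :
    ∃ J, n + 2 ≤ 2 ^ J - 1 ∧ 2 * T ≤ (k + 1) * (2 ^ J - 1) ∧ (k + 1) * 2 ^ J ≤ 8 * T ∧
      J ≤ Nat.log 2 T + 4 := by
  obtain ⟨N, hN⟩ : ∃ N, N = 2 * T / (k + 1) + 2 := ⟨_, rfl⟩
  have h1 : N < 2 ^ (Nat.log 2 N + 1) := Nat.lt_pow_succ_log_self (by norm_num) N
  have h2 : 2 ^ Nat.log 2 N ≤ N := Nat.pow_log_le_self 2 (by rw [hN]; exact Nat.succ_ne_zero _)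
  have h3 : 2 * T < (k + 1) * (2 * T / (k + 1) + 1) := Nat.lt_mul_div_succ _ (by omega)
  have h4 : (k + 1) * (2 * T / (k + 1)) ≤ 2 * T := Nat.mul_div_le _ _
  have h5 : 2 * T ≤ (k + 1) * N := by rw [hN]; nlinarith
  have h6 : (k + 1) * 2 ^ (Nat.log 2 N + 1) ≤ 8 * T := by
    have : (k + 1) * N ≤ 4 * T := by rw [hN]; nlinarith
    rw [pow_succ]; nlinarith
  refine ⟨Nat.log 2 N + 1, ?_, h5.trans (Nat.mul_le_mul_left _ (by omega)), h6, ?_⟩
  · have h9 : (k + 1) * (n + 2) ≤ (k + 1) * N := by nlinarith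
    have := Nat.le_of_mul_le_mul_left h9 (by omega)
    omega
  · have h7 : T < 2 ^ (Nat.log 2 T + 1) := Nat.lt_pow_succ_log_self (by norm_num) T
    have h8 : 2 ^ (Nat.log 2 N + 1) < 2 ^ (Nat.log 2 T + 4) := by
      rw [show Nat.log 2 T + 4 = Nat.log 2 T + 1 + 3 by ring, pow_add 2 _ 3]
      nlinarith
    exact ((Nat.pow_lt_pow_iff_right (by norm_num)).1 h8).le

theorem choose_k {D : ℕ} (κ : ℕ) (hD : 2 ≤ D) : ∃ (c : ℝ) (n₀ : ℕ), ∀ T : ℕ, n₀ ≤ T → ∃ k : ℕ,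
    ∀ s : ℕ, (k + 1) * s ≤ (k + 1) * (11 * T * D ^ (k + 1)) + κ * T * (Nat.log 2 T + 4) →
      (s : ℝ) ≤ c * (T * Real.log T / Real.log (Real.log T)) := by
  have hD0 : (0 : ℝ) < D := by positivity
  have hl : 0 < Real.log D := Real.log_pos (by exact_mod_cast hD)
  refine ⟨22 + 24 * κ * Real.log D, ⌈Real.exp (Real.exp (2 * Real.log D))⌉₊, fun T hT => ?_⟩
  have hT1 : Real.exp (Real.exp (2 * Real.log D)) ≤ T := Nat.ceil_le.1 hT
  have hT0 : (0 : ℝ) < T := (Real.exp_pos _).trans_le hT1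
  have hu : Real.exp (2 * Real.log D) ≤ Real.log T := (Real.le_log_iff_exp_le hT0).2 hT1
  have hu1 : 1 ≤ Real.log T := (Real.one_le_exp (by linarith)).trans hu
  have hlog : (Nat.log 2 T : ℝ) ≤ 2 * Real.log T := by
    have h1 : ((2 : ℝ) ^ Nat.log 2 T) ≤ T := by
      exact_mod_cast Nat.pow_log_le_self 2 (by exact_mod_cast hT0.ne')
    have h2 := Real.log_le_log (by positivity) h1
    rw [Real.log_pow] at h2
    nlinarith [Real.log_two_gt_d9, (Nat.cast_nonneg (Nat.log 2 T) : (0 : ℝ) ≤ _)]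
  generalize Real.log T = u at *
  have hv : 2 * Real.log D ≤ Real.log u := (Real.le_log_iff_exp_le (by linarith)).2 hu
  have hv0 : 0 < Real.log u := by linarith
  have hy : 1 ≤ Real.log u / (2 * Real.log D) := (one_le_div (by linarith)).2 hv
  obtain ⟨k, hk⟩ : ∃ k, ⌊Real.log u / (2 * Real.log D)⌋₊ = k + 1 :=
    ⟨_, (Nat.succ_pred_eq_of_pos (Nat.floor_pos.2 hy)).symm⟩
  have k1 : ((k + 1 : ℕ) : ℝ) ≤ Real.log u / (2 * Real.log D) := hk ▸ Nat.floor_le (by linarith)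
  have k2 : Real.log u / (2 * Real.log D) < (k + 1 : ℕ) + 1 := hk ▸ Nat.lt_floor_add_one _
  rw [le_div_iff₀ (by linarith)] at k1
  rw [div_lt_iff₀ (by linarith)] at k2
  refine ⟨k, fun s hs => ?_⟩
  have hs' : ((k + 1 : ℕ) : ℝ) * s ≤ (k + 1 : ℕ) * (11 * T * (D : ℝ) ^ (k + 1)) +
      κ * T * (Nat.log 2 T + 4) := by exact_mod_cast hs
  have hK : (1 : ℝ) ≤ (k + 1 : ℕ) := by exact_mod_cast Nat.succ_le_succ (Nat.zero_le k)
  have e1 : (D : ℝ) ^ (k + 1) ≤ Real.exp (Real.log u / 2) := by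
    rw [← Real.exp_log hD0, ← Real.exp_nat_mul]
    exact Real.exp_le_exp.2 (by linarith)
  have e2 : Real.exp (Real.log u / 2) * Real.exp (Real.log u / 2) = u := by
    rw [← Real.exp_add, add_halves, Real.exp_log (by linarith)]
  have e3 : Real.log u / 2 + 1 ≤ Real.exp (Real.log u / 2) := Real.add_one_le_exp _
  have e4 : (D : ℝ) ^ (k + 1) * Real.log u ≤ 2 * u := by
    nlinarith [Real.exp_pos (Real.log u / 2)]
  generalize ((k + 1 : ℕ) : ℝ) = K at *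
  generalize (D : ℝ) ^ (k + 1) = E at *
  generalize Real.log u = v at *
  generalize Real.log D = l at *
  have hκ : (0 : ℝ) ≤ κ := Nat.cast_nonneg _
  have e5 : v ≤ 4 * l * K := by nlinarith
  have e6 : (κ : ℝ) * T * (Nat.log 2 T + 4) ≤ κ * T * (6 * u) :=
    mul_le_mul_of_nonneg_left (by linarith) (by positivity)
  rw [← mul_div_assoc, le_div_iff₀ hv0]
  refine le_of_mul_le_mul_left ?_ (show 0 < K by linarith)
  have e7 : K * s * v ≤ (K * (11 * T * E) + κ * T * (6 * u)) * v :=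
    mul_le_mul_of_nonneg_right (by linarith) hv0.le
  have e8 : K * (11 * T) * (E * v) ≤ K * (11 * T) * (2 * u) :=
    mul_le_mul_of_nonneg_left e4 (by positivity)
  have e9 : κ * T * (6 * u) * v ≤ κ * T * (6 * u) * (4 * l * K) :=
    mul_le_mul_of_nonneg_left e5 (by positivity)
  nlinarith

namespace Clockwise

variable {Q Γ : Type} [Fintype Q] [Fintype Γ] (M : Clockwise Q Γ)

theorem exists_bd : ∃ D, 2 ≤ D ∧ ∀ k, ∃ Y, M.Bd k Y ∧ 30 * Y ^ 15 ≤ D ^ (k + 1) := by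
  obtain ⟨c, hc⟩ : ∃ c, ∀ q a, (M.wr q a).length ≤ c :=
    ⟨Finset.univ.sup fun z : Q × Γ => (M.wr z.1 z.2).length, fun q a =>
      Finset.le_sup (f := fun z : Q × Γ => (M.wr z.1 z.2).length) (Finset.mem_univ (q, a))⟩
  obtain ⟨e, he⟩ : ∃ e, e = Fintype.card Q + Fintype.card Γ + c + 4 := ⟨_, rfl⟩
  have e4 : 4 ≤ e := by omega
  refine ⟨30 * e ^ 90, by nlinarith [Nat.one_le_pow 90 e (by omega)], fun k => ?_⟩
  obtain ⟨E, hE⟩ : ∃ E, E = e ^ (k + 1) := ⟨_, rfl⟩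
  have h1 : e ≤ E := hE ▸ Nat.le_self_pow (by omega) _
  have h2 : Fintype.card Q ^ (2 * k + 3) ≤ E ^ 3 := by
    rw [hE, ← pow_mul]
    exact (Nat.pow_le_pow_left (by omega) _).trans (Nat.pow_le_pow_right (by omega) (by omega))
  have h3 : c ^ (k + 1) + 1 ≤ E := by
    rw [hE]
    exact Nat.pow_lt_pow_left (by omega) (by omega)
  have h4 : 2 * k + 4 ≤ E := by
    have : k + 1 < 2 ^ (k + 1) := Nat.lt_two_pow_self
    have h5 : 2 ^ (k + 1) * 2 ^ (k + 1) ≤ E := by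
      rw [← mul_pow, hE]; exact Nat.pow_le_pow_left e4 _
    nlinarith
  have hE1 : 1 ≤ E := by omega
  have h6 : E ≤ E ^ 6 := Nat.le_self_pow (by norm_num) _
  refine ⟨E ^ 6, ⟨(card_lists Q _).trans (h2.trans (Nat.pow_le_pow_right hE1 (by norm_num))),
    by omega, by omega, (M.card_bufs k hc).trans ?_, by omega⟩, ?_⟩
  · have h7 : Fintype.card Q ^ (2 * k + 3) * Fintype.card Γ * (c ^ (k + 1) + 1) ≤ E ^ 3 * E * E :=
      Nat.mul_le_mul (Nat.mul_le_mul h2 (by omega)) h3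
    have h8 : E ^ 5 < E ^ 6 := Nat.pow_lt_pow_right (by omega) (by norm_num)
    rw [show E ^ 3 * E * E = E ^ 5 by ring] at h7
    omega
  · rw [mul_pow, hE, ← pow_mul, ← pow_mul, ← pow_mul, show (k + 1) * (6 * 15) = 90 * (k + 1) by ring]
    exact Nat.mul_le_mul_right _ (Nat.le_self_pow (by omega) _)

theorem discrete : ∃ D κ : ℕ, 2 ≤ D ∧ ∀ (k n T : ℕ) (f : X n → Bool), 1 ≤ n → n ≤ T →
    (∀ x, M.halt (M.step^[T] (M.start, M.tape x)).1 = some (f x)) →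
    ∃ C : Circuit n, (∀ x : X n, C.eval x.1 = true ↔ f x = true) ∧
      (k + 1) * C.gates.length ≤ (k + 1) * (11 * T * D ^ (k + 1)) + κ * T * (Nat.log 2 T + 4) := by
  obtain ⟨D, hD, hbd⟩ := M.exists_bd
  obtain ⟨g, hg⟩ : ∃ g, g = Fintype.card Γ + 3 := ⟨_, rfl⟩
  refine ⟨D, 8 * (39 * g ^ 4), hD, fun k n T f hn hT hf => ?_⟩
  obtain ⟨Y, hY, hc⟩ := hbd k
  have hE : 1 ≤ D ^ (k + 1) := Nat.one_le_pow _ _ (by omega)
  have fin : ∀ t c, n + 2 ≤ t → (T ≤ (2 * k + 2) * (n + 1) ∨ 2 * T ≤ (k + 1) * t) →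
      (∀ a : Pr n, Can a c (M.St k t)) → ∃ C : Circuit n, C.gates.length ≤ 3 + c ∧
        ∀ x : X n, C.eval x.1 = true ↔ f x = true := by
    intro t c h1 h2 h3
    refine exists_circuit hn (fun a => (h3 a).weak le_rfl fun b _ hb => ?_) true
    have e : ∀ x : X n, (M.dd k t x).res = some (f x) := fun x =>
      M.micro_time k (by rw [tape_length]; omega) (hf x) (by rw [tape_length]; omega)
        (by rw [tape_length]; exact h2)
    intro p
    convert hb.2.1 (some p) using 2 with x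
    simp [e]
  rcases le_or_gt T ((2 * k + 2) * (n + 1)) with h | h
  · obtain ⟨C, h1, h2⟩ := fin (n + 2) _ le_rfl (Or.inl h) fun a => M.can_short k hY a le_rfl
    refine ⟨C, h2, le_add_right (Nat.mul_le_mul_left _ (h1.trans ?_))⟩
    have := Nat.mul_le_mul (show n + 2 ≤ 3 * T by omega) hc
    nlinarith
  · obtain ⟨J, j1, j2, j3, j4⟩ := exists_pow h
    obtain ⟨C, h1, h2⟩ := fin _ _ j1 (Or.inr j2) fun a =>
      M.can_long k hY (g := g) (by omega) (by omega) a J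
    refine ⟨C, h2, ?_⟩
    have a1 : 2 ^ J ≤ 8 * T := le_trans (Nat.le_mul_of_pos_left _ (by omega)) j3
    have a2 := Nat.mul_le_mul a1 hc
    have a3 := Nat.mul_le_mul j3 (Nat.mul_le_mul_left (39 * g ^ 4) j4)
    have a4 : C.gates.length ≤ 11 * T * D ^ (k + 1) + 2 ^ J * (39 * g ^ 4 * J) := by nlinarith
    nlinarith [Nat.mul_le_mul_left (k + 1) a4]

theorem main (L : Set (List Bool)) (T : ℕ → ℕ) (hT : ∀ n, n ≤ T n) (h : M.Decides L T) :
    ∃ (c : ℝ) (n₀ : ℕ), ∀ n, n₀ ≤ n → ∃ C : Circuit n,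
      (∀ x : List Bool, x.length = n → (C.eval x = true ↔ x ∈ L)) ∧
      (C.gates.length : ℝ) ≤ c * (T n * Real.log (T n) / Real.log (Real.log (T n))) := by
  obtain ⟨D, κ, hD, hd⟩ := M.discrete
  obtain ⟨c, n₀, hk⟩ := choose_k κ hD
  refine ⟨c, n₀ + 1, fun n hn => ?_⟩
  obtain ⟨k, hk⟩ := hk (T n) (by have := hT n; omega)
  choose f hf using h
  obtain ⟨C, h1, h2⟩ := hd k n (T n) (fun x => f x.1) (by omega) (hT n) fun x => by
    have := (hf x.1).1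
    rwa [x.2] at this
  exact ⟨C, fun x hx => (h1 ⟨x, hx⟩).trans (hf x).2, hk _ h2⟩

end Clockwise

end Pool.Agent.MP_89e1e6_lc
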