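import Pool.Agent.MP_89e1e6_lc.Cost2

set_option autoImplicit false

namespace Pool.Agent.MP_89e1e6_lc

open Classical

theorem exists_pow2 {F T : ℕ} (hF : 1 ≤ F) (hT : 1 ≤ T) :
    ∃ J, 11 * T ≤ F * 2 ^ J ∧ F * 2 ^ J ≤ 22 * T + 2 * F ∧ 2 ^ J ≤ 24 * T ∧ J ≤ Nat.log 2 T + 6 := by
  obtain ⟨N, hN⟩ : ∃ N, N = 11 * T / F + 1 := ⟨_, rfl⟩
  have h1 : N < 2 ^ (Nat.log 2 N + 1) := Nat.lt_pow_succ_log_self (by norm_num) N
  have h2 : 2 ^ Nat.log 2 N ≤ N := Nat.pow_log_le_self 2 (by rw [hN]; exact Nat.succ_ne_zero _)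
  have h3 : 11 * T < F * (11 * T / F + 1) := Nat.lt_mul_div_succ _ (by omega)
  have h4 : F * (11 * T / F) ≤ 11 * T := Nat.mul_div_le _ _
  have h5 : 11 * T / F ≤ 11 * T := Nat.div_le_self _ _
  have h6 : 2 ^ (Nat.log 2 N + 1) ≤ 24 * T := by rw [pow_succ]; omega
  refine ⟨Nat.log 2 N + 1, by rw [← hN] at h3; nlinarith, ?_, h6, ?_⟩
  · have := Nat.mul_le_mul_left F h2
    rw [pow_succ]
    rw [hN] at this ⊢
    nlinarith
  · have h7 : T < 2 ^ (Nat.log 2 T + 1) := Nat.lt_pow_succ_log_self (by norm_num) T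
    have h8 : 2 ^ (Nat.log 2 N + 1) < 2 ^ (Nat.log 2 T + 6) := by
      rw [show Nat.log 2 T + 6 = Nat.log 2 T + 1 + 5 by ring, pow_add 2 _ 5]
      omega
    exact ((Nat.pow_lt_pow_iff_right (by norm_num)).1 h8).le

theorem choose_k3 {D : ℕ} (κ : ℕ) (hD : 2 ≤ D) : ∃ (c : ℝ) (n₀ : ℕ), ∀ T : ℕ, n₀ ≤ T → ∃ k : ℕ,
    ∀ s : ℕ, (k + 1) * s ≤ κ * ((k + 1) * (T * D ^ D ^ (k + 1)) + T * (Nat.log 2 T + 6)) →
      (s : ℝ) ≤ c * (T * Real.log T / Real.log (Real.log (Real.log T))) := by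
  have hD0 : (0 : ℝ) < D := by positivity
  have hl : 0 < Real.log D := Real.log_pos (by exact_mod_cast hD)
  refine ⟨κ * (2 * Real.exp (Real.log D ^ 2 / 2) + 32 * Real.log D),
    ⌈Real.exp (Real.exp (Real.exp (2 * Real.log D)))⌉₊, fun T hT => ?_⟩
  have hT1 : Real.exp (Real.exp (Real.exp (2 * Real.log D))) ≤ T := Nat.ceil_le.1 hT
  have hT0 : (0 : ℝ) < T := (Real.exp_pos _).trans_le hT1
  have hu : Real.exp (Real.exp (2 * Real.log D)) ≤ Real.log T := (Real.le_log_iff_exp_le hT0).2 hT1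
  have hu1 : 1 ≤ Real.log T := (Real.one_le_exp (Real.exp_pos _).le).trans hu
  have hlog : (Nat.log 2 T : ℝ) ≤ 2 * Real.log T := by
    have h1 : ((2 : ℝ) ^ Nat.log 2 T) ≤ T := by
      exact_mod_cast Nat.pow_log_le_self 2 (by exact_mod_cast hT0.ne')
    have h2 := Real.log_le_log (by positivity) h1
    rw [Real.log_pow] at h2
    nlinarith [Real.log_two_gt_d9, (Nat.cast_nonneg (Nat.log 2 T) : (0 : ℝ) ≤ _)]
  generalize Real.log T = u at *
  have hv : Real.exp (2 * Real.log D) ≤ Real.log u := (Real.le_log_iff_exp_le (by linarith)).2 hu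
  have hv1 : 1 ≤ Real.log u := (Real.one_le_exp (by linarith)).trans hv
  have eu : Real.exp (Real.log u / 2) * Real.exp (Real.log u / 2) = u := by
    rw [← Real.exp_add, add_halves, Real.exp_log (by linarith)]
  generalize Real.log u = v at *
  have hw : 2 * Real.log D ≤ Real.log v := (Real.le_log_iff_exp_le (by linarith)).2 hv
  have hw0 : 0 < Real.log v := by linarith
  have hy : 1 ≤ Real.log v / (2 * Real.log D) := (one_le_div (by linarith)).2 hw
  obtain ⟨k, hk⟩ : ∃ k, ⌊Real.log v / (2 * Real.log D)⌋₊ = k + 1 :=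
    ⟨_, (Nat.succ_pred_eq_of_pos (Nat.floor_pos.2 hy)).symm⟩
  have k1 : ((k + 1 : ℕ) : ℝ) ≤ Real.log v / (2 * Real.log D) := hk ▸ Nat.floor_le (by linarith)
  have k2 : Real.log v / (2 * Real.log D) < (k + 1 : ℕ) + 1 := hk ▸ Nat.lt_floor_add_one _
  rw [le_div_iff₀ (by linarith)] at k1
  rw [div_lt_iff₀ (by linarith)] at k2
  refine ⟨k, fun s hs => ?_⟩
  have hs' : ((k + 1 : ℕ) : ℝ) * s ≤ κ * ((k + 1 : ℕ) * (T * (D : ℝ) ^ D ^ (k + 1)) +
      T * (Nat.log 2 T + 6)) := by exact_mod_cast hs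
  have hK : (1 : ℝ) ≤ (k + 1 : ℕ) := by exact_mod_cast Nat.succ_le_succ (Nat.zero_le k)
  have e1 : ((D ^ (k + 1) : ℕ) : ℝ) ≤ Real.exp (Real.log v / 2) := by
    rw [Nat.cast_pow, ← Real.exp_log hD0, ← Real.exp_nat_mul]
    exact Real.exp_le_exp.2 (by linarith)
  have e2 : Real.exp (Real.log v / 2) * Real.exp (Real.log v / 2) = v := by
    rw [← Real.exp_add, add_halves, Real.exp_log (by linarith)]
  have e3 : (D : ℝ) ^ D ^ (k + 1) ≤ Real.exp (v / 2) * Real.exp (Real.log D ^ 2 / 2) := by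
    rw [← Real.exp_add]
    nth_rewrite 1 [← Real.exp_log hD0]
    rw [← Real.exp_nat_mul]
    refine Real.exp_le_exp.2 ?_
    nlinarith [sq_nonneg (Real.exp (Real.log v / 2) - Real.log D)]
  have e4 : Real.log v ≤ 2 * Real.exp (v / 2) := by
    have := Real.add_one_le_exp (v / 2)
    have := Real.log_le_sub_one_of_pos (show 0 < v by linarith)
    linarith
  have e5 : (D : ℝ) ^ D ^ (k + 1) * Real.log v ≤ 2 * Real.exp (Real.log D ^ 2 / 2) * u := by
    have := mul_le_mul e3 e4 hw0.le (by positivity)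
    rw [← eu]
    linarith
  generalize ((k + 1 : ℕ) : ℝ) = K at *
  generalize (D : ℝ) ^ D ^ (k + 1) = E at *
  generalize Real.log v = w at *
  generalize Real.exp (Real.log D ^ 2 / 2) = A at *
  generalize Real.log D = l at *
  have hκ : (0 : ℝ) ≤ κ := Nat.cast_nonneg _
  have e6 : w ≤ 4 * l * K := by nlinarith
  have e7 : (T : ℝ) * (Nat.log 2 T + 6) ≤ T * (8 * u) :=
    mul_le_mul_of_nonneg_left (by linarith) hT0.le
  rw [← mul_div_assoc, le_div_iff₀ hw0]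
  refine le_of_mul_le_mul_left ?_ (show 0 < K by linarith)
  have e8 : K * s * w ≤ κ * (K * (T * E) + T * (8 * u)) * w :=
    mul_le_mul_of_nonneg_right (hs'.trans (mul_le_mul_of_nonneg_left (by linarith) hκ)) hw0.le
  have e9 : κ * K * T * (E * w) ≤ κ * K * T * (2 * A * u) :=
    mul_le_mul_of_nonneg_left e5 (by positivity)
  have e10 : κ * T * (8 * u) * w ≤ κ * T * (8 * u) * (4 * l * K) :=
    mul_le_mul_of_nonneg_left e6 (by positivity)
  nlinarith

namespace OneTape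

variable {Q Γ : Type} [Fintype Q] [Fintype Γ] (M : OneTape Q Γ)

theorem exists_par (Q : Type) [Fintype Q] (c : ℕ) {g : ℕ} (hg : 4 ≤ g) : ∃ D, 2 ≤ D ∧ ∀ k, ∃ W E,
    c * (k + 1) < W ∧ (idx Q W (c * (k + 1))).card ≤ 2 * W ∧
    (idx Q W (c * (k + 1))).card + 3 ≤ E ∧ g ^ (idx Q W (c * (k + 1))).card ≤ E ∧
    Fintype.card (Option Bool × Q × short Q (c * (k + 1)) × Option (short Q (c * (k + 1))) ×
      (short Q (c * (k + 1)) → Option Q)) ≤ E ∧ W ≤ E ∧ 4 * E ^ 3 ≤ D ^ D ^ (k + 1) := by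
  obtain ⟨e, he⟩ : ∃ e, e = Fintype.card Q + g := ⟨_, rfl⟩
  have e4 : 4 ≤ e := by omega
  have pw : ∀ m, m < e ^ m := fun m => Nat.lt_pow_self (by omega)
  have mo : ∀ {a b}, a ≤ b → e ^ a ≤ e ^ b := fun h => Nat.pow_le_pow_right (by omega) h
  have d1 : e ≤ e ^ (2 * c + 4) := Nat.le_self_pow (by omega) _
  refine ⟨16 * e ^ (2 * c + 4), by omega, fun k => ?_⟩
  generalize hK : c * (k + 1) = K
  have l1 := card_short (Q := Q) K (e := e) (by omega)
  obtain ⟨W, hW⟩ : ∃ W, W = (short Q K).card + K + 1 := ⟨_, rfl⟩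
  have i1 : (idx Q W K).card = W + (short Q K).card := by simp [idx]
  have w1 := pw W
  have w2 : e ≤ e ^ W := Nat.le_self_pow (by omega) _
  refine ⟨W, e ^ (5 * W), by omega, by omega, ?_, (Nat.pow_le_pow_left (by omega) _).trans
    (mo (by omega)), ?_, w1.le.trans (mo (by omega)), ?_⟩
  · have := pw (5 * W)
    omega
  · simp only [Fintype.card_prod, Fintype.card_option, Fintype.card_bool, Fintype.card_coe,
      Fintype.card_fun]
    rw [show e ^ (5 * W) = e ^ W * (e ^ W * (e ^ W * (e ^ W * e ^ W))) by ring]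
    exact Nat.mul_le_mul (by omega) (Nat.mul_le_mul (by omega) (Nat.mul_le_mul (by omega)
      (Nat.mul_le_mul (by omega) ((Nat.pow_le_pow_left (by omega) _).trans (mo (by omega))))))
  · have a1 : W ≤ e ^ ((2 * c + 4) * (k + 1)) := by
      have b1 := pw (K + 2)
      have b2 := Nat.mul_le_mul_right (e ^ (K + 1)) b1
      have b3 := pw (K + 1)
      have b4 : e ^ (K + 2) * e ^ (K + 1) ≤ e ^ ((2 * c + 4) * (k + 1)) := by
        rw [← pow_add]
        exact mo (by nlinarith)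
      nlinarith
    have a2 : 16 * W ≤ (16 * e ^ (2 * c + 4)) ^ (k + 1) := by
      rw [mul_pow, ← pow_mul]
      exact Nat.mul_le_mul (Nat.le_self_pow (by omega) _) a1
    calc 4 * (e ^ (5 * W)) ^ 3 ≤ e ^ W * (e ^ (5 * W)) ^ 3 := Nat.mul_le_mul_right _ (by omega)
      _ = e ^ (16 * W) := by ring
      _ ≤ _ := (mo a2).trans (Nat.pow_le_pow_left (by omega) _)

theorem discrete {c : ℕ} (hc : M.Visits c) : ∃ D κ : ℕ, 2 ≤ D ∧ ∀ (k n T : ℕ) (f : X n → Bool),
    1 ≤ n → n ≤ T → (∀ x : X n, M.halt (M.st x.1 T) = some (f x)) →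
    ∃ C : Circuit n, (∀ x : X n, C.eval x.1 = true ↔ f x = true) ∧ (k + 1) * C.gates.length ≤
      κ * ((k + 1) * (T * D ^ D ^ (k + 1)) + T * (Nat.log 2 T + 6)) := by
  obtain ⟨g, hg⟩ : ∃ g, g = Fintype.card (Option Γ × Option Q × Bool × Bool) + 4 := ⟨_, rfl⟩
  obtain ⟨D, hD, hp⟩ := exists_par Q c (g := g) (by omega)
  refine ⟨D, 30 + 22 * (88 * g ^ 4), hD, fun k n T f hn hT hf => ?_⟩
  obtain ⟨W, E, p1, p2, p3, p4, p5, p6, p7⟩ := hp k
  obtain ⟨J, j1, j2, j3, j4⟩ := exists_pow2 (F := (k + 1) * W) (T := T)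
    (Nat.mul_pos (by omega) (by omega)) (by omega)
  obtain ⟨C, h1, h2⟩ := exists_circuit hn (f := fun x => some (f x)) (fun a =>
    (can_run (M := M) (c := c) (F := (k + 1) * W) (J := J) p1 hT (by omega) (by omega) p3 p4 p5
      a).weak le_rfl fun b _ hb => hb.congr fun x => by
        rw [sta_q hc (by simp [hf]) (by omega) (by omega) j1, hf]) (some true)
  refine ⟨C, fun x => by simpa using h2 x, ?_⟩
  have y1 : E ≤ E ^ 3 := Nat.le_self_pow (by norm_num) _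
  have l1 : Nat.log 2 T < T := Nat.log_lt_self 2 (by omega)
  generalize D ^ D ^ (k + 1) = Y at *
  generalize Nat.log 2 T = l at *
  generalize (idx Q W (c * (k + 1))).card = I at *
  generalize g ^ 4 = G at *
  generalize 2 ^ J = N at *
  have a1 : C.gates.length ≤ 30 * (T * Y) + W * N * (88 * G * (l + 6)) := by
    have b1 := Nat.mul_le_mul hT p7
    have b2 := Nat.mul_le_mul j3 p7
    have b3 := Nat.mul_le_mul_left N (Nat.mul_le_mul (Nat.mul_le_mul_right (44 * G) p2) j4)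
    have b4 : Y ≤ T * Y := Nat.le_mul_of_pos_left _ (by omega)
    nlinarith
  have a2 := Nat.mul_le_mul_right (88 * G * (l + 6)) j2
  have a3 : 2 * W * (l + 6) ≤ 22 * (T * Y) := by
    have := Nat.mul_le_mul (show 2 * W ≤ Y by omega) (show l + 6 ≤ 22 * T by omega)
    nlinarith
  have a4 := Nat.mul_le_mul_left ((k + 1) * (88 * G)) a3
  nlinarith [Nat.mul_le_mul_left (k + 1) a1, Nat.zero_le (T * (l + 6))]

theorem main {c : ℕ} (hc : M.Visits c) (L : Set (List Bool)) (T : ℕ → ℕ) (hT : ∀ n, n ≤ T n)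
    (h : M.Decides L T) : ∃ (a : ℝ) (n₀ : ℕ), ∀ n, n₀ ≤ n → ∃ C : Circuit n,
      (∀ x : List Bool, x.length = n → (C.eval x = true ↔ x ∈ L)) ∧ (C.gates.length : ℝ) ≤
        a * (T n * Real.log (T n) / Real.log (Real.log (Real.log (T n)))) := by
  obtain ⟨D, κ, hD, hd⟩ := M.discrete hc
  obtain ⟨a, n₀, hk⟩ := choose_k3 κ hD
  refine ⟨a, n₀ + 1, fun n hn => ?_⟩
  obtain ⟨k, hk⟩ := hk (T n) (by have := hT n; omega)
  choose f hf using h
  obtain ⟨C, h1, h2⟩ := hd k n (T n) (fun x => f x.1) (by omega) (hT n) fun x => by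
    have := (hf x.1).1
    rwa [x.2] at this
  exact ⟨C, fun x hx => (h1 ⟨x, hx⟩).trans (hf x).2, hk _ h2⟩

end OneTape

end Pool.Agent.MP_89e1e6_lc
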