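import Pool.Agent.MP_89e1e6_lc.Band

set_option autoImplicit false

namespace Pool.Agent.MP_89e1e6_lc

open Classical

/-- Configurations of the fast machine. -/
structure Cfg (Q Γ : Type) where
  s : List Q
  buf : List Γ
  F : List Q → List Q
  res : Option Bool
  r : ℕ
  arr : List (Option Γ)

namespace Clockwise

variable {Q Γ : Type} (M : Clockwise Q Γ) (k : ℕ)

def upd (F : List Q → List Q) (w : List Γ) : List Q → List Q := fun σ => (M.band (F σ) w).1

theorem upd_nil (F : List Q → List Q) : M.upd F [] = F := by
  funext σ; simp [upd, band_nil]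

theorem upd_append (F : List Q → List Q) (u w : List Γ) :
    M.upd (M.upd F u) w = M.upd F (u ++ w) := by
  funext σ; simp [upd, band_append]

def word (s : List Q) : List Γ → Option Γ → List Γ
  | y :: rest, _ => y :: rest
  | [], some γ => (M.band (s.take (k + 1)) [γ]).2
  | [], none => []

def news (s : List Q) : List Γ → Option Γ → List Q
  | [], some γ => (M.band s [γ]).1
  | _, _ => s

def rdc (c : Cfg Q Γ) : Option Γ := c.arr.getD c.r none

def zed (c : Cfg Q Γ) : List Q := fixp (2 * k + 3) c.F (c.s.getD k M.start) (2 * k + 3)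

def wd (c : Cfg Q Γ) : List Γ := M.word k c.s c.buf (rdc c)

noncomputable def stepc (c : Cfg Q Γ) : Cfg Q Γ where
  s := if M.wd k c = [] then M.zed k c else M.news c.s c.buf (rdc c)
  buf := (M.wd k c).tail
  F := if M.wd k c = [] then id else M.upd c.F ((M.wd k c).take 1)
  res := if M.wd k c = [] then c.res.or (M.halt ((M.zed k c).getD (2 * k + 2) M.start)) else c.res
  r := if c.buf = [] then c.r + 1 else c.r
  arr := c.arr ++ [(M.wd k c).head?]

theorem flush (c : Cfg Q Γ) : (M.stepc k)^[c.buf.length] c =
    { c with buf := [], F := M.upd c.F c.buf, arr := c.arr ++ c.buf.map some } := by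
  obtain ⟨s, buf, F, res, r, arr⟩ := c
  induction buf generalizing F arr with
  | nil => simp [upd_nil]
  | cons y rest ih =>
    have e : M.stepc k ⟨s, y :: rest, F, res, r, arr⟩ =
        ⟨s, rest, M.upd F [y], res, r, arr ++ [some y]⟩ := by
      simp [stepc, wd, word, news]
    simp only [List.length_cons, Function.iterate_succ_apply, e]
    simpa [upd_append] using ih (M.upd F [y]) (arr ++ [some y])

theorem read (c : Cfg Q Γ) (hb : c.buf = []) {γ : Γ} (h : rdc c = some γ) :
    (M.stepc k)^[(M.band (c.s.take (k + 1)) [γ]).2.length] c =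
      { c with
        s := (M.band c.s [γ]).1
        F := M.upd c.F (M.band (c.s.take (k + 1)) [γ]).2
        r := c.r + 1
        arr := c.arr ++ (M.band (c.s.take (k + 1)) [γ]).2.map some } := by
  have hw : M.wd k c = (M.band (c.s.take (k + 1)) [γ]).2 := by rw [wd, hb, h, word]
  have hl := M.band_len (c.s.take (k + 1)) [γ]
  have hn : M.news c.s [] (rdc c) = (M.band c.s [γ]).1 := by rw [h, news]
  generalize (M.band (c.s.take (k + 1)) [γ]).2 = v at *
  cases v with
  | nil => simp at hl
  | cons y rest =>
    have e : M.stepc k c = ⟨(M.band c.s [γ]).1, rest, M.upd c.F [y], c.res, c.r + 1,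
        c.arr ++ [some y]⟩ := by
      simp [stepc, hw, hn, hb]
    have := M.flush k ⟨(M.band c.s [γ]).1, rest, M.upd c.F [y], c.res, c.r + 1, c.arr ++ [some y]⟩
    simp only [List.length_cons, Function.iterate_succ_apply, e]
    simpa [upd_append, hb] using this

theorem rdc_drop {c : Cfg Q Γ} {a : Option Γ} {t : List (Option Γ)} (h : c.arr.drop c.r = a :: t) :
    rdc c = a ∧ ∀ v, (c.arr ++ v).drop (c.r + 1) = t ++ v := by
  have hl : c.r < c.arr.length := by
    by_contra hc
    rw [List.drop_eq_nil_of_le (by omega)] at h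
    simp at h
  rw [List.drop_eq_getElem_cons hl] at h
  refine ⟨by simp [rdc, hl, (List.cons.inj h).1], fun v => ?_⟩
  rw [List.drop_append_of_le_length hl, (List.cons.inj h).2]

theorem pass (u : List Γ) : ∀ (c : Cfg Q Γ) (t : List (Option Γ)), c.buf = [] →
    c.arr.drop c.r = u.map some ++ t →
    (M.stepc k)^[(M.band (c.s.take (k + 1)) u).2.length] c =
      { c with
        s := (M.band c.s u).1
        F := M.upd c.F (M.band (c.s.take (k + 1)) u).2
        r := c.r + u.length
        arr := c.arr ++ (M.band (c.s.take (k + 1)) u).2.map some } := by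
  induction u with
  | nil => intro c t _ _; simp [band_nil, upd_nil]
  | cons γ u ih =>
    intro c t hb h
    obtain ⟨h1, h2⟩ := rdc_drop h
    have e := M.band_append (c.s.take (k + 1)) [γ] u
    have e' := M.band_append c.s [γ] u
    rw [List.singleton_append] at e e'
    rw [e, e', List.length_append, add_comm, Function.iterate_add_apply, M.read k c hb h1,
      ← band_take]
    have := ih ⟨(M.band c.s [γ]).1, c.buf, M.upd c.F (M.band (c.s.take (k + 1)) [γ]).2, c.res,
      c.r + 1, c.arr ++ (M.band (c.s.take (k + 1)) [γ]).2.map some⟩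
      (t ++ (M.band (c.s.take (k + 1)) [γ]).2.map some) hb (by simpa using h2 _)
    refine this.trans ?_
    simp [upd_append, add_assoc, add_comm 1]

/-- The fast machine is about to treat the turns that start in `P`. -/
structure Inv (P : Q × List Γ) (c : Cfg Q Γ) : Prop where
  buf : c.buf = []
  F : c.F = id
  s : c.s = M.vec (2 * k + 3) P
  arr : c.arr.drop c.r = P.2.map some ++ [none]
  res : c.res = M.halt (M.G^[2 * k + 2] P).1

theorem mark_step (P : Q × List Γ) (c : Cfg Q Γ) (hb : c.buf = []) (hF : c.F = M.upd id P.2)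
    (hs : c.s.getD k M.start = P.1) (ha : c.arr.drop c.r = none :: P.2.map some)
    (hr : c.res = none ∨ c.res = M.halt (M.G^[2 * k + 2] P).1) : M.Inv k P (M.stepc k c) := by
  obtain ⟨h1, h2⟩ := rdc_drop ha
  have hw : M.wd k c = [] := by rw [wd, hb, h1, word]
  have hz : M.zed k c = M.vec (2 * k + 3) P := by
    rw [zed, hs, hF]; exact M.fixp_eq _ P
  refine ⟨by simp [stepc, hw], by simp [stepc, hw], by simp [stepc, hw, hz], ?_, ?_⟩
  · simpa [stepc, hw, hb] using h2 [none]
  · simp only [stepc, hw, if_true, hz]
    rw [M.vec_getD (by omega)]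
    rcases hr with h | h <;> simp [h]

theorem Inv.next {P : Q × List Γ} {c : Cfg Q Γ} (h : M.Inv k P c) :
    M.Inv k (M.G^[k + 1] P) ((M.stepc k)^[(M.G^[k + 1] P).2.length + 1] c) := by
  have h1 := M.pass k P.2 c [none] h.buf h.arr
  rw [h.s, M.vec_take (by omega), band_vec, band_vec] at h1
  simp only at h1
  rw [Function.iterate_succ_apply' (M.stepc k), h1]
  refine M.mark_step k _ _ h.buf (by simp [h.F]) ?_ ?_ ?_
  · rw [M.vec_getD (by omega), Function.iterate_succ_apply]
  · have hl : c.r + P.2.length < c.arr.length := by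
      have := congrArg List.length h.arr
      simp at this
      omega
    simp only
    rw [List.drop_append_of_le_length hl.le, ← List.drop_drop, h.arr]
    simp
  · simp only [h.res]
    by_cases hh : (M.halt (M.G^[2 * k + 2] P).1).isSome
    · right
      rw [← Function.iterate_add_apply, M.G_halt P (j := 2 * k + 2 + (k + 1)) (by omega) hh]
    · left; simpa using hh

/-- The start configuration for the tape `w`. -/
def c1 (w : List Γ) : Cfg Q Γ := ⟨List.replicate (2 * k + 3) M.start, w, id, none, 0, [none]⟩

theorem inv_all (w : List Γ) (b : ℕ) : M.Inv k (M.G^[(k + 1) * b] (M.start, w))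
    ((M.stepc k)^[∑ i ∈ Finset.range (b + 1), ((M.G^[(k + 1) * i] (M.start, w)).2.length + 1)]
      (M.c1 k w)) := by
  induction b with
  | zero =>
    have := M.flush k (M.c1 k w)
    simp only [mul_zero, zero_add, Finset.sum_range_one, Function.iterate_zero_apply,
      Function.iterate_succ_apply']
    change (M.stepc k)^[w.length] _ = _ at this
    rw [this]
    exact M.mark_step k _ _ rfl rfl (by simp [c1, List.getD, show k < 2 * k + 3 by omega])
      (by simp [c1]) (Or.inl rfl)
  | succ b ih =>
    have := ih.next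
    rw [← Function.iterate_add_apply, ← Function.iterate_add_apply,
      show k + 1 + (k + 1) * b = (k + 1) * (b + 1) by ring] at this
    rwa [Finset.sum_range_succ, add_comm (∑ _ ∈ _, _)]

theorem res_stay {c : Cfg Q Γ} {v : Bool} (h : c.res = some v) (t : ℕ) :
    ((M.stepc k)^[t] c).res = some v := by
  induction t with
  | zero => exact h
  | succ t ih =>
    rw [Function.iterate_succ_apply']
    simp only [stepc, ih]
    split_ifs <;> simp

theorem tot_ge (p : Q × List Γ) (g : ℕ) : g * p.2.length ≤ M.tot p g := by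
  calc g * p.2.length = ∑ _i ∈ Finset.range g, (M.G^[0] p).2.length := by simp
    _ ≤ _ := Finset.sum_le_sum fun i _ => M.G_len p (Nat.zero_le i)

theorem micro_time {w : List Γ} (hw : 1 ≤ w.length) {T : ℕ} {v : Bool}
    (h : M.halt (M.step^[T] (M.start, w)).1 = some v) {t : ℕ} (h1 : w.length + 1 ≤ t)
    (h2 : T ≤ (2 * k + 2) * w.length ∨ 2 * T ≤ (k + 1) * t) :
    ((M.stepc k)^[t] (M.c1 k w)).res = some v := by
  have hex : ∃ b, M.halt (M.G^[(k + 1) * (b + 2)] (M.start, w)).1 = some v := by
    refine ⟨T, (M.halt_or_lt h _).resolve_right fun h' => ?_⟩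
    have := M.tot_ge (M.start, w) ((k + 1) * (T + 2))
    nlinarith [h'.2, Nat.mul_le_mul_left ((k + 1) * (T + 2)) hw]
  have hb := Nat.find_spec hex
  have hlt : ∀ b, b < Nat.find hex → M.tot (M.start, w) ((k + 1) * (b + 2)) < T := fun b hb' =>
    ((M.halt_or_lt h _).resolve_left (Nat.find_min hex hb')).2
  generalize Nat.find hex = b at hb hlt
  have hi := (M.inv_all k w b).res
  rw [← Function.iterate_add_apply, show 2 * k + 2 + (k + 1) * b = (k + 1) * (b + 2) by ring,
    hb] at hi
  suffices hle : ∑ i ∈ Finset.range (b + 1), ((M.G^[(k + 1) * i] (M.start, w)).2.length + 1) ≤ t by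
    obtain ⟨s, rfl⟩ := Nat.exists_eq_add_of_le hle
    rw [add_comm, Function.iterate_add_apply]
    exact M.res_stay k hi s
  rcases b with _ | b
  · simpa using h1
  · have a0 := hlt 0 (by omega)
    have a1 := M.tot_ge (M.start, w) ((k + 1) * (0 + 2))
    have a2 := hlt b (by omega)
    have a3 := M.tot_band (M.start, w) (k + 1) (b + 2)
    have a4 : ∑ i ∈ Finset.range (b + 1 + 1), ((M.G^[(k + 1) * i] (M.start, w)).2.length + 1) ≤
        2 * ∑ i ∈ Finset.range (b + 2), (M.G^[(k + 1) * i] (M.start, w)).2.length := by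
      rw [Finset.mul_sum]
      refine Finset.sum_le_sum fun i _ => ?_
      have := M.G_len (M.start, w) (Nat.zero_le ((k + 1) * i))
      simp only [Function.iterate_zero_apply] at this
      omega
    rcases h2 with h2 | h2
    · simp only at a1
      nlinarith
    · refine a4.trans (Nat.le_of_mul_le_mul_left ?_ (Nat.succ_pos k))
      nlinarith

end Clockwise

end Pool.Agent.MP_89e1e6_lc
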